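import Mathlib

set_option autoImplicit false

open Finset

namespace Pool.Agent.Helper7

/-- The integer `n! / r^{v_r(n!)}` divides `∏_{k=1}^n (k r + 1)`. -/
lemma ordCompl_factorial_dvd_prod (r n : ℕ) (hr : r.Prime) :
    (n.factorial / r ^ (n.factorial).factorization r) ∣ ∏ k ∈ Finset.Icc 1 n, (k * r + 1) := by
  set N := n.factorial / r ^ (n.factorial).factorization r with hN
  have hcop : Nat.Coprime r N := Nat.coprime_ordCompl hr (Nat.factorial_ne_zero n)
  have hNdvd : N ∣ n.factorial := Nat.ordCompl_dvd _ _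
  have hunit : IsUnit ((r : ℕ) : ZMod N) := (ZMod.isUnit_iff_coprime r N).2 hcop
  obtain ⟨u, hu⟩ := hunit
  have hNpos : 0 < N := Nat.pos_of_dvd_of_pos hNdvd (Nat.factorial_pos n)
  have : NeZero N := ⟨hNpos.ne'⟩
  set s : ℕ := ((u⁻¹ : (ZMod N)ˣ) : ZMod N).val with hs
  have hsu : ((s : ℕ) : ZMod N) = ((u⁻¹ : (ZMod N)ˣ) : ZMod N) := by
    rw [hs, ZMod.natCast_val, ZMod.cast_id]
  have hrs : ((r : ℕ) : ZMod N) * ((s : ℕ) : ZMod N) = 1 := by
    rw [hsu, ← hu]; exact u.mul_inv
  have hscop : Nat.Coprime s N := by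
    rw [← ZMod.isUnit_iff_coprime, hsu]
    exact Units.isUnit _
  have hprod : ((s ^ n * ∏ k ∈ Finset.Icc 1 n, (k * r + 1) : ℕ) : ZMod N)
      = ((∏ k ∈ Finset.Icc 1 n, (k + s) : ℕ) : ZMod N) := by
    have hc : s ^ n = ∏ _k ∈ Finset.Icc 1 n, s := by
      rw [Finset.prod_const, Nat.card_Icc, Nat.add_sub_cancel]
    rw [hc, ← Finset.prod_mul_distrib]
    push_cast
    refine Finset.prod_congr rfl fun k _ => ?_
    have : (s : ZMod N) * ((k : ZMod N) * (r : ZMod N) + 1)
        = (k : ZMod N) * ((r : ZMod N) * (s : ZMod N)) + (s : ZMod N) := by ring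
    rw [this, hrs, mul_one]
  have hasc : (∏ k ∈ Finset.Icc 1 n, (k + s)) = (s + 1).ascFactorial n := by
    rw [Nat.ascFactorial_eq_prod_range, Finset.range_eq_Ico,
      Finset.prod_Ico_eq_prod_range]
    rw [← Finset.Ico_succ_right_eq_Icc, Finset.prod_Ico_eq_prod_range]
    refine Finset.prod_congr (by simp) fun k _ => ?_
    ring
  have hdvd : N ∣ s ^ n * ∏ k ∈ Finset.Icc 1 n, (k * r + 1) := by
    rw [← ZMod.natCast_eq_zero_iff, hprod, hasc, ZMod.natCast_eq_zero_iff]
    exact hNdvd.trans (Nat.factorial_dvd_ascFactorial _ _)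
  exact (Nat.Coprime.pow_left n hscop).symm.dvd_of_dvd_mul_left hdvd


lemma prod_primes_dvd_prod (r x : ℕ) :
    (∏ p ∈ (Finset.Ioc (x / r) x).filter (fun p => p.Prime ∧ p % r = 1), p) ∣
      ∏ k ∈ Finset.Icc 1 (x / r), (k * r + 1) := by
  refine Finset.prod_primes_dvd _ (fun p hp => ?_) (fun p hp => ?_)
  · exact (Finset.mem_filter.1 hp).2.1.prime
  · obtain ⟨hp1, hp2, hp3⟩ := Finset.mem_filter.1 hp
    rw [Finset.mem_Ioc] at hp1
    have hk : p / r * r + 1 = p := by
      have := Nat.div_add_mod p r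
      rw [hp3] at this
      rw [mul_comm]; exact this
    have hk1 : 1 ≤ p / r := by
      by_contra h
      have h0 : p / r = 0 := Nat.lt_one_iff.1 (not_le.1 h)
      rw [h0] at hk
      have := hp2.one_lt
      omega
    have hmem : p / r ∈ Finset.Icc 1 (x / r) :=
      Finset.mem_Icc.2 ⟨hk1, Nat.div_le_div_right hp1.2⟩
    have := Finset.dvd_prod_of_mem (fun k => k * r + 1) hmem
    simp only [hk] at this
    exact this

lemma prod_primes_le (r x : ℕ) (hr : r.Prime) :
    (∏ p ∈ (Finset.Ioc (x / r) x).filter (fun p => p.Prime ∧ p % r = 1), p) ≤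
      r ^ (3 * (x / r)) := by
  set n := x / r with hn
  set P := ∏ p ∈ (Finset.Ioc n x).filter (fun p => p.Prime ∧ p % r = 1), p with hP
  set N := n.factorial / r ^ (n.factorial).factorization r with hN
  set R := ∏ k ∈ Finset.Icc 1 n, (k * r + 1) with hR
  have hNR : N ∣ R := ordCompl_factorial_dvd_prod r n hr
  have hPR : P ∣ R := prod_primes_dvd_prod r x
  have hNpos : 0 < N := Nat.pos_of_dvd_of_pos (Nat.ordCompl_dvd _ _) (Nat.factorial_pos n)
  have hcop : Nat.Coprime P N := by
    refine Nat.Coprime.prod_left fun p hp => ?_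
    obtain ⟨hp1, hp2, hp3⟩ := Finset.mem_filter.1 hp
    rw [Finset.mem_Ioc] at hp1
    have h1 : Nat.Coprime p n.factorial := by
      rw [Nat.Prime.coprime_iff_not_dvd hp2, hp2.dvd_factorial]
      omega
    exact Nat.Coprime.coprime_dvd_right (Nat.ordCompl_dvd _ _) h1
  have hRpos : 0 < R := Finset.prod_pos fun k _ => Nat.succ_pos _
  have hPN : P * N ≤ R := Nat.le_of_dvd hRpos (hcop.mul_dvd_of_dvd_of_dvd hPR hNR)
  have hRle : R ≤ r ^ n * (n + 1).factorial := by
    have h1 : R ≤ ∏ k ∈ Finset.Icc 1 n, (r * (k + 1)) := by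
      refine Finset.prod_le_prod' fun k _ => ?_
      have := hr.one_lt
      nlinarith
    have h2 : ∏ k ∈ Finset.Icc 1 n, (r * (k + 1)) = r ^ n * (n + 1).factorial := by
      rw [Finset.prod_mul_distrib, Finset.prod_const, Nat.card_Icc, Nat.add_sub_cancel]
      congr 1
      clear_value N R P
      clear * -
      induction n with
      | zero => simp
      | succ m ih =>
        rw [Finset.prod_Icc_succ_top (by omega), ih, Nat.factorial_succ (m + 1)]
        ring
    rw [← h2]; exact h1
  set v := (n.factorial).factorization r with hv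
  have hfac : n.factorial = r ^ v * N := by
    rw [hN]; exact (Nat.ordProj_mul_ordCompl_eq_self n.factorial r).symm
  have hvn : v ≤ n := by
    have : Fact r.Prime := ⟨hr⟩
    have h1 := sub_one_mul_padicValNat_factorial (p := r) n
    have h2 : v = padicValNat r n.factorial := by
      rw [hv, Nat.factorization_def _ hr]
    have h3 : 1 ≤ r - 1 := by have := hr.two_le; omega
    have h4 : v ≤ (r - 1) * v := Nat.le_mul_of_pos_left v h3
    rw [h2] at h4 ⊢
    rw [h1] at h4
    exact h4.trans (Nat.sub_le _ _)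
  have hfin : P * N ≤ (r ^ (n + v) * (n + 1)) * N := by
    calc P * N ≤ R := hPN
      _ ≤ r ^ n * (n + 1).factorial := hRle
      _ = r ^ n * ((n + 1) * n.factorial) := by rw [Nat.factorial_succ]
      _ = (r ^ (n + v) * (n + 1)) * N := by rw [hfac, pow_add]; ring
  have hP1 : P ≤ r ^ (n + v) * (n + 1) := Nat.le_of_mul_le_mul_right hfin hNpos
  have h2n : n + 1 ≤ r ^ n := by
    calc n + 1 ≤ 2 ^ n := Nat.lt_two_pow_self
      _ ≤ r ^ n := Nat.pow_le_pow_left hr.two_le n
  calc P ≤ r ^ (n + v) * (n + 1) := hP1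
    _ ≤ r ^ (n + n) * r ^ n := by
        apply Nat.mul_le_mul _ h2n
        exact Nat.pow_le_pow_right hr.pos (by omega)
    _ = r ^ (3 * n) := by rw [← pow_add]; congr 1; ring

/-- Chebyshev-type bound in the progression `1 mod r`, uniform in the prime `r`. -/
theorem theta_ap_le (r : ℕ) (hr : r.Prime) (x : ℕ) :
    (∑ p ∈ (Finset.range (x + 1)).filter (fun p => p.Prime ∧ p % r = 1), Real.log p) ≤
      6 * x * Real.log r / r := by
  have hr2 : (2 : ℝ) ≤ r := by exact_mod_cast hr.two_le
  have hlogr : 0 ≤ Real.log r := Real.log_nonneg (by linarith)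
  induction x using Nat.strong_induction_on with
  | _ x ih =>
    rcases Nat.eq_zero_or_pos x with hx | hx
    · subst hx
      have : (Finset.range (0 + 1)).filter (fun p => p.Prime ∧ p % r = 1) = ∅ := by
        ext p; simp only [Finset.mem_filter, Finset.mem_range, Finset.notMem_empty, iff_false]
        rintro ⟨h1, h2, _⟩
        have := h2.pos
        omega
      rw [this]; simp
    · have hlt : x / r < x := Nat.div_lt_self hx hr.one_lt
      have hsplit : (Finset.range (x + 1)).filter (fun p => p.Prime ∧ p % r = 1) =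
          (Finset.range (x / r + 1)).filter (fun p => p.Prime ∧ p % r = 1) ∪
          (Finset.Ioc (x / r) x).filter (fun p => p.Prime ∧ p % r = 1) := by
        ext p
        simp only [Finset.mem_filter, Finset.mem_range, Finset.mem_union, Finset.mem_Ioc]
        constructor
        · rintro ⟨h1, h2⟩
          by_cases h : p < x / r + 1
          · exact Or.inl ⟨h, h2⟩
          · exact Or.inr ⟨⟨by omega, by omega⟩, h2⟩
        · rintro (⟨h1, h2⟩ | ⟨h1, h2⟩)
          · exact ⟨by omega, h2⟩
          · exact ⟨by omega, h2⟩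
      have hdisj : Disjoint
          ((Finset.range (x / r + 1)).filter (fun p => p.Prime ∧ p % r = 1))
          ((Finset.Ioc (x / r) x).filter (fun p => p.Prime ∧ p % r = 1)) := by
        rw [Finset.disjoint_left]
        intro p h1 h2
        simp only [Finset.mem_filter, Finset.mem_range, Finset.mem_Ioc] at h1 h2
        omega
      rw [hsplit, Finset.sum_union hdisj]
      have h1 := ih (x / r) hlt
      have h2 : (∑ p ∈ (Finset.Ioc (x / r) x).filter (fun p => p.Prime ∧ p % r = 1),
          Real.log p) ≤ 3 * (x / r : ℕ) * Real.log r := by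
        have hle := prod_primes_le r x hr
        have hcast : ((∏ p ∈ (Finset.Ioc (x / r) x).filter
            (fun p => p.Prime ∧ p % r = 1), p : ℕ) : ℝ) ≤ (r : ℝ) ^ (3 * (x / r)) := by
          exact_mod_cast hle
        have hlog : Real.log ((∏ p ∈ (Finset.Ioc (x / r) x).filter
            (fun p => p.Prime ∧ p % r = 1), p : ℕ) : ℝ) =
            ∑ p ∈ (Finset.Ioc (x / r) x).filter (fun p => p.Prime ∧ p % r = 1),
              Real.log p := by
          push_cast
          rw [Real.log_prod]
          intro p hp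
          have := (Finset.mem_filter.1 hp).2.1.pos
          positivity
        rw [← hlog]
        calc _ ≤ Real.log ((r : ℝ) ^ (3 * (x / r))) := by
              apply Real.log_le_log _ hcast
              have : 0 < (∏ p ∈ (Finset.Ioc (x / r) x).filter
                (fun p => p.Prime ∧ p % r = 1), p : ℕ) :=
                Finset.prod_pos fun p hp => (Finset.mem_filter.1 hp).2.1.pos
              exact_mod_cast this
          _ = 3 * (x / r : ℕ) * Real.log r := by
              rw [Real.log_pow]; push_cast; ring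
      have hdiv : ((x / r : ℕ) : ℝ) ≤ (x : ℝ) / r := Nat.cast_div_le
      have hx0 : (0 : ℝ) ≤ x := Nat.cast_nonneg x
      have hrpos : (0 : ℝ) < r := by linarith
      have e1 : 6 * ((x / r : ℕ) : ℝ) * Real.log r / r ≤ 3 * ((x : ℝ) / r) * Real.log r := by
        rw [div_le_iff₀ hrpos]
        have : 6 * ((x / r : ℕ) : ℝ) * Real.log r ≤ 6 * ((x : ℝ) / r) * Real.log r := by
          gcongr
        refine this.trans ?_
        have h3 : 0 ≤ (x : ℝ) / r * Real.log r := by positivity
        nlinarith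
      have e2 : 3 * ((x / r : ℕ) : ℝ) * Real.log r ≤ 3 * ((x : ℝ) / r) * Real.log r := by
        gcongr
      calc _ ≤ 3 * ((x : ℝ) / r) * Real.log r + 3 * ((x : ℝ) / r) * Real.log r :=
            add_le_add (h1.trans e1) (h2.trans e2)
        _ = 6 * x * Real.log r / r := by ring

/-- The number of primes `p ≤ x` with `p ≡ 1 mod r`, uniformly in the prime `r`. -/
theorem card_ap_le (r : ℕ) (hr : r.Prime) (x : ℕ) (hx : 2 ≤ x) :
    (((Finset.range (x + 1)).filter (fun p => p.Prime ∧ p % r = 1)).card : ℝ) ≤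
      Real.sqrt x / r + 12 * x * Real.log r / (r * Real.log x) := by
  have hr2 : (2 : ℝ) ≤ r := by exact_mod_cast hr.two_le
  have hrpos : (0 : ℝ) < r := by linarith
  have hx2 : (2 : ℝ) ≤ x := by exact_mod_cast hx
  have hlogx : 0 < Real.log x := Real.log_pos (by linarith)
  set S := (Finset.range (x + 1)).filter (fun p => p.Prime ∧ p % r = 1) with hS
  set S₁ := S.filter (fun p => p ≤ Nat.sqrt x) with hS₁
  set S₂ := S.filter (fun p => ¬ p ≤ Nat.sqrt x) with hS₂
  have hcard : S.card = S₁.card + S₂.card :=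
    (Finset.card_filter_add_card_filter_not (s := S) (fun p => p ≤ Nat.sqrt x)).symm
  have h1 : (S₁.card : ℝ) ≤ Real.sqrt x / r := by
    have hmaps : ∀ p ∈ S₁, p / r ∈ Finset.Icc 1 (Nat.sqrt x / r) := by
      intro p hp
      simp only [hS₁, hS, Finset.mem_filter, Finset.mem_range] at hp
      obtain ⟨⟨_, hp2, hp3⟩, hp4⟩ := hp
      refine Finset.mem_Icc.2 ⟨?_, Nat.div_le_div_right hp4⟩
      by_contra h
      have h0 : p / r = 0 := Nat.lt_one_iff.1 (not_le.1 h)
      have := Nat.div_add_mod p r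
      rw [h0, hp3] at this
      have := hp2.one_lt
      omega
    have hinj : Set.InjOn (fun p => p / r) (S₁ : Set ℕ) := by
      intro p hp q hq hpq
      simp only [hS₁, hS, Finset.coe_filter, Finset.mem_filter, Finset.mem_range,
        Set.mem_ofPred_eq] at hp hq
      have e1 := Nat.div_add_mod p r
      have e2 := Nat.div_add_mod q r
      rw [hp.1.2.2] at e1
      rw [hq.1.2.2] at e2
      simp only at hpq
      rw [hpq] at e1
      omega
    have hle := Finset.card_le_card_of_injOn _ hmaps hinj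
    rw [Nat.card_Icc, Nat.add_sub_cancel] at hle
    calc (S₁.card : ℝ) ≤ ((Nat.sqrt x / r : ℕ) : ℝ) := by exact_mod_cast hle
      _ ≤ (Nat.sqrt x : ℝ) / r := Nat.cast_div_le
      _ ≤ Real.sqrt x / r := by
          gcongr
          exact Real.nat_sqrt_le_real_sqrt
  have h2 : (S₂.card : ℝ) ≤ 12 * x * Real.log r / (r * Real.log x) := by
    have hsum : (S₂.card : ℝ) * (Real.log x / 2) ≤ ∑ p ∈ S, Real.log p := by
      calc (S₂.card : ℝ) * (Real.log x / 2) = ∑ _p ∈ S₂, (Real.log x / 2) := by
            rw [Finset.sum_const, nsmul_eq_mul]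
        _ ≤ ∑ p ∈ S₂, Real.log p := by
            refine Finset.sum_le_sum fun p hp => ?_
            simp only [hS₂, hS, Finset.mem_filter, Finset.mem_range, not_le] at hp
            have hlt : x < p * p := Nat.sqrt_lt.1 hp.2
            have hpp : (0 : ℝ) < p := by exact_mod_cast hp.1.2.1.pos
            have h3 : Real.log x ≤ Real.log ((p : ℝ) * p) := by
              apply Real.log_le_log (by linarith)
              exact_mod_cast hlt.le
            rw [Real.log_mul hpp.ne' hpp.ne'] at h3
            linarith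
        _ ≤ ∑ p ∈ S, Real.log p := by
            apply Finset.sum_le_sum_of_subset_of_nonneg (Finset.filter_subset _ _)
            intro p hp _
            simp only [hS, Finset.mem_filter] at hp
            apply Real.log_nonneg
            exact_mod_cast hp.2.1.one_le
    have h4 := theta_ap_le r hr x
    rw [le_div_iff₀ (by positivity)]
    have h5 : (S₂.card : ℝ) * (Real.log x / 2) ≤ 6 * x * Real.log r / r := hsum.trans h4
    rw [le_div_iff₀ hrpos] at h5
    nlinarith
  rw [hcard]
  push_cast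
  exact add_le_add h1 h2

/-- Tail of `∑ log r / r²` over the primes. -/
lemma sum_log_div_sq_le (y : ℕ) (hy : 1 ≤ y) (x : ℕ) (hxy : y ≤ x) :
    (∑ r ∈ (Finset.Ioc y x).filter Nat.Prime, Real.log r / (r : ℝ) ^ 2) ≤
      2 * Real.log 4 / y := by
  have hlog4 : 0 < Real.log 4 := Real.log_pos (by norm_num)
  have hA : ∀ x : ℕ, (∑ r ∈ (Finset.Ioc y x).filter Nat.Prime, Real.log r) ≤
      Real.log 4 * x := by
    intro x
    have h1 := Chebyshev.theta_le_log4_mul_x (x := (x : ℝ)) (Nat.cast_nonneg x)
    refine le_trans ?_ h1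
    rw [Chebyshev.theta, Nat.floor_natCast]
    apply Finset.sum_le_sum_of_subset_of_nonneg
    · intro p hp
      simp only [Finset.mem_filter, Finset.mem_Ioc] at hp ⊢
      exact ⟨⟨by omega, hp.1.2⟩, hp.2⟩
    · intro p hp _
      simp only [Finset.mem_filter, Finset.mem_Ioc] at hp
      apply Real.log_nonneg
      exact_mod_cast hp.1.1
  have key : (∑ r ∈ (Finset.Ioc y x).filter Nat.Prime, Real.log r / (r : ℝ) ^ 2) ≤
      (∑ r ∈ (Finset.Ioc y x).filter Nat.Prime, Real.log r) / (x : ℝ) ^ 2 +
        2 * Real.log 4 * (1 / y - 1 / x) := by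
    induction x, hxy using Nat.le_induction with
    | base => simp
    | succ x hxy ih =>
      have hx0 : (0 : ℝ) < x := by
        have : 0 < x := by omega
        exact_mod_cast this
      have hsplit : (Finset.Ioc y (x + 1)).filter Nat.Prime =
          if (x + 1).Prime then insert (x + 1) ((Finset.Ioc y x).filter Nat.Prime)
          else (Finset.Ioc y x).filter Nat.Prime := by
        have e : Finset.Ioc y (x + 1) = insert (x + 1) (Finset.Ioc y x) := by
          ext k; simp only [Finset.mem_Ioc, Finset.mem_insert]; omega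
        rw [e, Finset.filter_insert]
      have hnot : (x + 1) ∉ (Finset.Ioc y x).filter Nat.Prime := by
        simp only [Finset.mem_filter, Finset.mem_Ioc]; omega
      have hAx := hA x
      set A := ∑ r ∈ (Finset.Ioc y x).filter Nat.Prime, Real.log r with hAdef
      have hstep : A / (x : ℝ) ^ 2 + 2 * Real.log 4 * (1 / y - 1 / x) ≤
          A / ((x : ℝ) + 1) ^ 2 + 2 * Real.log 4 * (1 / y - 1 / (x + 1)) := by
        have h1 : A / (x : ℝ) ^ 2 - A / ((x : ℝ) + 1) ^ 2 ≤
            2 * Real.log 4 * (1 / x - 1 / (x + 1)) := by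
          have e1 : A / (x : ℝ) ^ 2 - A / ((x : ℝ) + 1) ^ 2 =
              A * ((2 * x + 1) / ((x : ℝ) ^ 2 * ((x : ℝ) + 1) ^ 2)) := by
            field_simp
            ring
          have e2 : 2 * Real.log 4 * (1 / (x : ℝ) - 1 / (x + 1)) =
              Real.log 4 * x * ((2 * x + 2) / ((x : ℝ) ^ 2 * ((x : ℝ) + 1) ^ 2)) := by
            field_simp
            ring
          rw [e1, e2]
          have hpos : 0 ≤ ((2 * x + 1) / ((x : ℝ) ^ 2 * ((x : ℝ) + 1) ^ 2)) := by positivity
          calc A * ((2 * x + 1) / ((x : ℝ) ^ 2 * ((x : ℝ) + 1) ^ 2))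
              ≤ Real.log 4 * x * ((2 * x + 1) / ((x : ℝ) ^ 2 * ((x : ℝ) + 1) ^ 2)) := by
                gcongr
            _ ≤ Real.log 4 * x * ((2 * x + 2) / ((x : ℝ) ^ 2 * ((x : ℝ) + 1) ^ 2)) := by
                gcongr
                norm_num
        linarith [h1]
      by_cases hp : (x + 1).Prime
      · rw [hsplit, if_pos hp, Finset.sum_insert hnot, Finset.sum_insert hnot]
        push_cast
        have h3 := ih.trans hstep
        rw [add_div]
        linarith
      · rw [hsplit, if_neg hp]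
        push_cast
        exact ih.trans hstep
  refine key.trans ?_
  have hx0 : (0 : ℝ) < x := by
    have : 0 < x := by omega
    exact_mod_cast this
  have hAx := hA x
  have h5 : (∑ r ∈ (Finset.Ioc y x).filter Nat.Prime, Real.log r) / (x : ℝ) ^ 2 ≤
      Real.log 4 / x := by
    rw [div_le_div_iff₀ (by positivity) hx0]
    nlinarith
  have h6 : 2 * Real.log 4 * (1 / (y : ℝ) - 1 / x) =
      2 * Real.log 4 / y - 2 * (Real.log 4 / x) := by ring
  have h7 : 0 ≤ Real.log 4 / x := by positivity
  rw [h6]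
  linarith

lemma sum_one_div_sq_le (y : ℕ) (hy : 1 ≤ y) (x : ℕ) (hxy : y ≤ x) :
    (∑ r ∈ (Finset.Ioc y x).filter Nat.Prime, 1 / (r : ℝ) ^ 2) ≤ 1 / (y : ℝ) := by
  have key : (∑ r ∈ Finset.Ioc y x, 1 / (r : ℝ) ^ 2) ≤ 1 / (y : ℝ) - 1 / (x : ℝ) := by
    induction x, hxy using Nat.le_induction with
    | base => simp
    | succ x hxy ih =>
      have hx0 : (0 : ℝ) < x := by
        have : 0 < x := by omega
        exact_mod_cast this
      rw [Finset.sum_Ioc_succ_top hxy]
      push_cast
      have : 1 / ((x : ℝ) + 1) ^ 2 ≤ 1 / x - 1 / (x + 1) := by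
        rw [div_sub_div _ _ hx0.ne' (by positivity), div_le_div_iff₀ (by positivity) (by positivity)]
        ring_nf
        nlinarith
      linarith
  have h1 : (∑ r ∈ (Finset.Ioc y x).filter Nat.Prime, 1 / (r : ℝ) ^ 2) ≤
      ∑ r ∈ Finset.Ioc y x, 1 / (r : ℝ) ^ 2 := by
    apply Finset.sum_le_sum_of_subset_of_nonneg (Finset.filter_subset _ _)
    intros; positivity
  have h2 : (0 : ℝ) ≤ 1 / x := by positivity
  linarith

/-- Uniform tail bound (`x ≥ 3`, `y ≥ 1`), before comparing with `π`. -/
theorem tail_bound_log (y : ℕ) (hy : 1 ≤ y) (x : ℕ) (hx : 2 ≤ x) :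
    (∑ p ∈ (Finset.range (x + 1)).filter Nat.Prime,
      ∑ r ∈ (p - 1).primeFactors.filter (y < ·), (1 / (r : ℝ))) ≤
      (1 + 24 * Real.log 4) / y * (x / Real.log x) := by
  have hx2 : (2 : ℝ) ≤ x := by exact_mod_cast hx
  have hlogx : 0 < Real.log x := Real.log_pos (by linarith)
  have hy1 : (1 : ℝ) ≤ y := by exact_mod_cast hy
  have hypos : (0 : ℝ) < y := by linarith
  have hlog4 : 0 < Real.log 4 := Real.log_pos (by norm_num)
  rcases lt_or_ge x y with hxy | hxy
  · -- empty sum
    have h0 : (∑ p ∈ (Finset.range (x + 1)).filter Nat.Prime,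
        ∑ r ∈ (p - 1).primeFactors.filter (y < ·), (1 / (r : ℝ))) = 0 := by
      refine Finset.sum_eq_zero fun p hp => ?_
      simp only [Finset.mem_filter, Finset.mem_range] at hp
      refine Finset.sum_eq_zero fun r hr => ?_
      simp only [Finset.mem_filter, Nat.mem_primeFactors] at hr
      exfalso
      have h1 := Nat.le_of_dvd (Nat.pos_of_ne_zero hr.1.2.2) hr.1.2.1
      omega
    rw [h0]
    positivity
  -- swap the sums
  have hswap : (∑ p ∈ (Finset.range (x + 1)).filter Nat.Prime,
      ∑ r ∈ (p - 1).primeFactors.filter (y < ·), (1 / (r : ℝ))) =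
      ∑ r ∈ (Finset.Ioc y x).filter Nat.Prime,
        (((Finset.range (x + 1)).filter (fun p => p.Prime ∧ p % r = 1)).card : ℝ) *
          (1 / (r : ℝ)) := by
    have h1 : ∀ r : ℕ, (((Finset.range (x + 1)).filter (fun p => p.Prime ∧ p % r = 1)).card : ℝ) *
          (1 / (r : ℝ)) =
        ∑ p ∈ (Finset.range (x + 1)).filter (fun p => p.Prime ∧ p % r = 1), (1 / (r : ℝ)) := by
      intro r
      rw [Finset.sum_const, nsmul_eq_mul]
    simp_rw [h1]
    refine Finset.sum_comm' fun p r => ?_
    simp only [Finset.mem_filter, Finset.mem_range, Finset.mem_Ioc, Nat.mem_primeFactors]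
    constructor
    · rintro ⟨⟨hp1, hp2⟩, ⟨hr1, hr2, hr3⟩, hr4⟩
      have hle := Nat.le_of_dvd (Nat.pos_of_ne_zero hr3) hr2
      refine ⟨⟨hp1, hp2, ?_⟩, ⟨hr4, by omega⟩, hr1⟩
      obtain ⟨k, hk⟩ := hr2
      have hp : p = 1 + r * k := by have := hp2.one_le; omega
      rw [hp, Nat.add_mul_mod_self_left]
      exact Nat.mod_eq_of_lt hr1.one_lt
    · rintro ⟨⟨hp1, hp2, hp3⟩, ⟨hr4, hr5⟩, hr1⟩
      refine ⟨⟨hp1, hp2⟩, ⟨hr1, ?_, ?_⟩, hr4⟩
      · have := Nat.div_add_mod p r
        rw [hp3] at this
        exact ⟨p / r, by omega⟩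
      · have := hp2.two_le
        omega
  rw [hswap]
  have hbound : ∀ r ∈ (Finset.Ioc y x).filter Nat.Prime,
      (((Finset.range (x + 1)).filter (fun p => p.Prime ∧ p % r = 1)).card : ℝ) *
          (1 / (r : ℝ)) ≤
        Real.sqrt x * (1 / (r : ℝ) ^ 2) +
          12 * x / Real.log x * (Real.log r / (r : ℝ) ^ 2) := by
    intro r hr
    simp only [Finset.mem_filter, Finset.mem_Ioc] at hr
    have hrpos : (0 : ℝ) < r := by exact_mod_cast hr.2.pos
    have h1 := card_ap_le r hr.2 x hx
    calc _ ≤ (Real.sqrt x / r + 12 * x * Real.log r / (r * Real.log x)) * (1 / (r : ℝ)) := by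
          gcongr
      _ = _ := by
          field_simp
  refine (Finset.sum_le_sum hbound).trans ?_
  rw [Finset.sum_add_distrib, ← Finset.mul_sum, ← Finset.mul_sum]
  have e1 := sum_one_div_sq_le y hy x hxy
  have e2 := sum_log_div_sq_le y hy x hxy
  have hsq : Real.sqrt x ≤ x / Real.log x := by
    rw [le_div_iff₀ hlogx]
    have h3 : Real.log x ≤ Real.sqrt x := by
      have h4 : Real.log (Real.sqrt x) ≤ Real.sqrt x / 2 := by
        have h5 := Real.log_le_sub_one_of_pos (x := Real.sqrt x / 2)
          (by positivity)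
        rw [Real.log_div (by positivity) (by norm_num)] at h5
        have h6 := Real.log_two_lt_d9
        linarith
      rw [Real.log_sqrt (by positivity)] at h4
      linarith
    calc Real.sqrt x * Real.log x ≤ Real.sqrt x * Real.sqrt x := by gcongr
      _ = x := Real.mul_self_sqrt (by positivity)
  calc Real.sqrt x * ∑ r ∈ (Finset.Ioc y x).filter Nat.Prime, 1 / (r : ℝ) ^ 2 +
        12 * x / Real.log x * ∑ r ∈ (Finset.Ioc y x).filter Nat.Prime,
          Real.log r / (r : ℝ) ^ 2
      ≤ (x / Real.log x) * (1 / (y : ℝ)) + 12 * x / Real.log x * (2 * Real.log 4 / y) := by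
        gcongr
    _ = (1 + 24 * Real.log 4) / y * (x / Real.log x) := by ring

/-- `x / log x ≤ 4 π(x)` for `x ≥ 2` large. -/
lemma eventually_div_log_le_primeCounting :
    ∀ᶠ x : ℕ in Filter.atTop, (x : ℝ) / Real.log x ≤ 4 * Nat.primeCounting x := by
  filter_upwards [Filter.eventually_ge_atTop 16] with x hx
  have hx16 : (16 : ℝ) ≤ x := by exact_mod_cast hx
  have hlogx : 0 < Real.log x := Real.log_pos (by linarith)
  have h1 := Chebyshev.pi_ge x
  have h2 : Real.log ((x : ℝ) + 1) ≤ x / 4 := by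
    have h3 : Real.log (((x : ℝ) + 1) / 16) ≤ ((x : ℝ) + 1) / 16 - 1 :=
      Real.log_le_sub_one_of_pos (by positivity)
    rw [Real.log_div (by positivity) (by norm_num)] at h3
    have h4 : Real.log 16 = 4 * Real.log 2 := by
      rw [show (16 : ℝ) = 2 ^ 4 by norm_num, Real.log_pow]; norm_num
    have h5 := Real.log_two_lt_d9
    rw [h4] at h3
    linarith
  have h6 := Real.log_two_gt_d9
  have h7 : (x : ℝ) / 4 ≤ x * Real.log 2 - Real.log ((x : ℝ) + 1) := by
    nlinarith
  rw [div_le_iff₀ hlogx]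
  rw [div_le_iff₀ hlogx] at h1
  linarith

/-- Tail bound used for the average of `φ(p-1)/(p-1)`. -/
theorem tail_bound : ∃ C : ℝ, ∀ y : ℕ, 1 ≤ y → ∀ᶠ x : ℕ in Filter.atTop,
    (∑ p ∈ (Finset.range (x + 1)).filter Nat.Prime,
      ∑ r ∈ (p - 1).primeFactors.filter (y < ·), (1 / (r : ℝ))) ≤
      C / y * Nat.primeCounting x := by
  refine ⟨4 * (1 + 24 * Real.log 4), fun y hy => ?_⟩
  filter_upwards [eventually_div_log_le_primeCounting, Filter.eventually_ge_atTop 2] with x h1 h2
  have hlog4 : 0 < Real.log 4 := Real.log_pos (by norm_num)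
  have hy1 : (1 : ℝ) ≤ y := by exact_mod_cast hy
  refine (tail_bound_log y hy x h2).trans ?_
  calc (1 + 24 * Real.log 4) / y * (x / Real.log x)
      ≤ (1 + 24 * Real.log 4) / y * (4 * Nat.primeCounting x) := by gcongr
    _ = _ := by ring

end Pool.Agent.Helper7
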