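import Mathlib
import Pool.Agent.Helper6.PNT
import Pool.Agent.Helper7.ArtinTail

set_option autoImplicit false

open Finset Filter Topology

namespace Pool.Agent.Helper7

/-- CRT factorisation of sums over reduced residues. -/
lemma sum_coprime_mul {m n : ℕ} (hm : 0 < m) (hn : 0 < n) (h : m.Coprime n) (F G : ℕ → ℝ)
    (hF : ∀ a, F (a % m) = F a) (hG : ∀ a, G (a % n) = G a) :
    (∑ a ∈ (range (m * n)).filter (Nat.Coprime (m * n)), F a * G a) =
      (∑ a ∈ (range m).filter (Nat.Coprime m), F a) *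
        (∑ a ∈ (range n).filter (Nat.Coprime n), G a) := by
  rw [Finset.sum_mul_sum, ← Finset.sum_product']
  refine Finset.sum_nbij' (fun a => (a % m, a % n))
    (fun ab => (Nat.chineseRemainder h ab.1 ab.2 : ℕ)) ?_ ?_ ?_ ?_ ?_
  · intro a ha
    simp only [mem_filter, mem_range, mem_product] at ha ⊢
    have h1 := Nat.Coprime.coprime_mul_right ha.2
    have h2 := Nat.Coprime.coprime_mul_left ha.2
    refine ⟨⟨Nat.mod_lt _ hm, ?_⟩, ⟨Nat.mod_lt _ hn, ?_⟩⟩
    · rw [Nat.coprime_comm, Nat.coprime_iff_gcd_eq_one, ← Nat.gcd_rec, Nat.gcd_comm] at *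
      rw [Nat.gcd_comm]; exact h1
    · rw [Nat.coprime_comm, Nat.coprime_iff_gcd_eq_one, ← Nat.gcd_rec, Nat.gcd_comm] at *
      rw [Nat.gcd_comm]; exact h2
  · intro ab hab
    simp only [mem_filter, mem_range, mem_product] at hab ⊢
    obtain ⟨⟨h1, h2⟩, ⟨h3, h4⟩⟩ := hab
    refine ⟨Nat.chineseRemainder_lt_mul h _ _ hm.ne' hn.ne', ?_⟩
    have e1 := (Nat.chineseRemainder h ab.1 ab.2).2.1
    have e2 := (Nat.chineseRemainder h ab.1 ab.2).2.2
    refine Nat.Coprime.mul_left ?_ ?_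
    · rw [Nat.coprime_iff_gcd_eq_one, Nat.gcd_comm, e1.gcd_eq, Nat.gcd_comm]; exact h2
    · rw [Nat.coprime_iff_gcd_eq_one, Nat.gcd_comm, e2.gcd_eq, Nat.gcd_comm]; exact h4
  · intro a ha
    simp only [mem_filter, mem_range] at ha
    have e1 := (Nat.chineseRemainder h (a % m) (a % n)).2.1
    have e2 := (Nat.chineseRemainder h (a % m) (a % n)).2.2
    have hlt := Nat.chineseRemainder_lt_mul h (a % m) (a % n) hm.ne' hn.ne'
    have e3 : (Nat.chineseRemainder h (a % m) (a % n) : ℕ) ≡ a [MOD m * n] := by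
      rw [← Nat.modEq_and_modEq_iff_modEq_mul h]
      exact ⟨e1.trans (Nat.mod_modEq _ _), e2.trans (Nat.mod_modEq _ _)⟩
    exact Nat.ModEq.eq_of_lt_of_lt e3 hlt ha.1
  · intro ab hab
    simp only [mem_filter, mem_range, mem_product] at hab
    have e1 := (Nat.chineseRemainder h ab.1 ab.2).2.1
    have e2 := (Nat.chineseRemainder h ab.1 ab.2).2.2
    ext
    · change (Nat.chineseRemainder h ab.1 ab.2 : ℕ) % m = ab.1
      rw [e1, Nat.mod_eq_of_lt hab.1.1]
    · change (Nat.chineseRemainder h ab.1 ab.2 : ℕ) % n = ab.2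
      rw [e2, Nat.mod_eq_of_lt hab.2.1]
  · intro a _
    change F a * G a = F (a % m) * G (a % n)
    rw [hF, hG]

/-- CRT factorisation over a finite set of primes. -/
lemma sum_coprime_prod (s : Finset ℕ) (hs : ∀ q ∈ s, q.Prime) (f : ℕ → ℕ → ℝ)
    (hf : ∀ q ∈ s, ∀ a, f q (a % q) = f q a) :
    (∑ a ∈ (range (∏ q ∈ s, q)).filter (Nat.Coprime (∏ q ∈ s, q)), ∏ q ∈ s, f q a) =
      ∏ q ∈ s, ∑ a ∈ (range q).filter (Nat.Coprime q), f q a := by
  classical
  induction s using Finset.induction_on with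
  | empty =>
    have : (range 1).filter (Nat.Coprime 1) = {0} := by decide
    simp
  | insert q s hq ih =>
    have hs' : ∀ q ∈ s, q.Prime := fun r hr => hs r (mem_insert_of_mem hr)
    have hqp : q.Prime := hs q (mem_insert_self _ _)
    have hcop : Nat.Coprime q (∏ r ∈ s, r) := by
      refine Nat.Coprime.prod_right fun r hr => ?_
      rw [Nat.coprime_primes hqp (hs' r hr)]
      rintro rfl
      exact hq hr
    rw [Finset.prod_insert hq, Finset.prod_insert hq]
    have hpos : 0 < ∏ r ∈ s, r := Finset.prod_pos fun r hr => (hs' r hr).pos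
    rw [← ih hs' (fun r hr => hf r (mem_insert_of_mem hr)),
      ← sum_coprime_mul hqp.pos hpos hcop (f q) (fun a => ∏ r ∈ s, f r a)
        (hf q (mem_insert_self _ _)) ?_]
    · refine Finset.sum_congr rfl fun a _ => ?_
      rw [Finset.prod_insert hq]
    · intro a
      refine Finset.prod_congr rfl fun r hr => ?_
      have hrd : r ∣ ∏ r ∈ s, r := Finset.dvd_prod_of_mem _ hr
      rw [← hf r (mem_insert_of_mem hr) (a % _), Nat.mod_mod_of_dvd _ hrd,
        hf r (mem_insert_of_mem hr)]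

/-- Density of primes in a residue class `a mod N`, coprime or not. -/
lemma prime_mod_density {N : ℕ} (hN : 0 < N) {a : ℕ} (ha : a < N) :
    Tendsto (fun x : ℕ => (((range (x + 1)).filter
      (fun p : ℕ => p.Prime ∧ p % N = a)).card : ℝ) / (Nat.primeCounting x : ℝ)) atTop
      (𝓝 (if Nat.Coprime N a then 1 / (N.totient : ℝ) else 0)) := by
  have : NeZero N := ⟨hN.ne'⟩
  have hiff : ∀ p : ℕ, ((p : ZMod N) = (a : ZMod N)) ↔ p % N = a := by
    intro p
    rw [ZMod.natCast_eq_natCast_iff, Nat.ModEq, Nat.mod_eq_of_lt ha]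
  split_ifs with hc
  · have hu : IsUnit (a : ZMod N) := (ZMod.isUnit_iff_coprime a N).2 hc.symm
    have h := Helper6.prime_ap_density hu
    refine h.congr fun x => ?_
    congr 3
    refine Finset.filter_congr fun p _ => ?_
    rw [hiff]
  · -- finitely many primes
    have hbound : ∀ x : ℕ, (((range (x + 1)).filter
        (fun p : ℕ => p.Prime ∧ p % N = a)).card : ℝ) ≤ N := by
      intro x
      have hsub : (range (x + 1)).filter (fun p : ℕ => p.Prime ∧ p % N = a) ⊆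
          Finset.Ioc 0 N := by
        intro p hp
        simp only [mem_filter, mem_range] at hp
        rw [Finset.mem_Ioc]
        refine ⟨hp.2.1.pos, ?_⟩
        by_contra hlt
        have hcop : Nat.Coprime N p := by
          rw [Nat.coprime_comm, Nat.Prime.coprime_iff_not_dvd hp.2.1]
          intro hd
          exact hlt (Nat.le_of_dvd hN hd)
        apply hc
        have hmod : p ≡ a [MOD N] := by
          rw [Nat.ModEq, hp.2.2, Nat.mod_eq_of_lt ha]
        rw [Nat.coprime_iff_gcd_eq_one, Nat.gcd_comm, ← hmod.gcd_eq, Nat.gcd_comm]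
        exact hcop
      calc _ ≤ ((Finset.Ioc 0 N).card : ℝ) := by exact_mod_cast Finset.card_le_card hsub
        _ = N := by simp
    have hpi : Tendsto (fun x : ℕ => (Nat.primeCounting x : ℝ)) atTop atTop :=
      tendsto_natCast_atTop_atTop.comp Nat.tendsto_primeCounting
    have h0 : Tendsto (fun x : ℕ => (N : ℝ) / (Nat.primeCounting x : ℝ)) atTop (𝓝 0) :=
      hpi.const_div_atTop _
    refine squeeze_zero (fun x => by positivity) (fun x => ?_) h0
    have := hbound x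
    gcongr

/-- Averages over primes of a function with period `N`. -/
theorem avg_periodic {N : ℕ} (hN : 0 < N) (G : ℕ → ℝ) (hG : ∀ a, G (a % N) = G a) :
    Tendsto (fun x : ℕ => (∑ p ∈ (range (x + 1)).filter Nat.Prime, G p) /
      (Nat.primeCounting x : ℝ)) atTop
      (𝓝 ((∑ a ∈ (range N).filter (Nat.Coprime N), G a) / (N.totient : ℝ))) := by
  have hsum : ∀ x : ℕ, (∑ p ∈ (range (x + 1)).filter Nat.Prime, G p) /
      (Nat.primeCounting x : ℝ) = ∑ a ∈ range N, G a * ((((range (x + 1)).filter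
      (fun p : ℕ => p.Prime ∧ p % N = a)).card : ℝ) / (Nat.primeCounting x : ℝ)) := by
    intro x
    have h1 : (∑ p ∈ (range (x + 1)).filter Nat.Prime, G p) =
        ∑ a ∈ range N, ∑ p ∈ ((range (x + 1)).filter Nat.Prime).filter
          (fun p => p % N = a), G p := by
      rw [Finset.sum_fiberwise_of_maps_to]
      intro p _
      exact Finset.mem_range.2 (Nat.mod_lt _ hN)
    rw [h1, Finset.sum_div]
    refine Finset.sum_congr rfl fun a _ => ?_
    rw [Finset.filter_filter]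
    have h2 : (∑ p ∈ (range (x + 1)).filter (fun p : ℕ => p.Prime ∧ p % N = a), G p) =
        ∑ p ∈ (range (x + 1)).filter (fun p : ℕ => p.Prime ∧ p % N = a), G a := by
      refine Finset.sum_congr rfl fun p hp => ?_
      rw [← (Finset.mem_filter.1 hp).2.2, hG]
    rw [h2, Finset.sum_const, nsmul_eq_mul]
    ring
  simp_rw [hsum]
  have hlim : ((∑ a ∈ (range N).filter (Nat.Coprime N), G a) / (N.totient : ℝ)) =
      ∑ a ∈ range N, G a * (if Nat.Coprime N a then 1 / (N.totient : ℝ) else 0) := by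
    rw [Finset.sum_filter, Finset.sum_div]
    refine Finset.sum_congr rfl fun a _ => ?_
    split_ifs <;> ring
  rw [hlim]
  refine tendsto_finsetSum _ fun a ha => ?_
  exact (prime_mod_density hN (Finset.mem_range.1 ha)).const_mul _

/-- Truncated product. -/
lemma totient_div_eq_prod {n : ℕ} (hn : n ≠ 0) :
    (Nat.totient n : ℝ) / (n : ℝ) = ∏ q ∈ n.primeFactors, (1 - 1 / (q : ℝ)) := by
  have h := Nat.totient_eq_mul_prod_factors n
  have h2 : (Nat.totient n : ℝ) = (n : ℝ) * ∏ q ∈ n.primeFactors, (1 - ((q : ℝ))⁻¹) := by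
    have := congrArg (fun z : ℚ => (z : ℝ)) h
    push_cast at this
    exact this
  rw [h2, mul_div_cancel_left₀]
  · simp [one_div]
  · exact_mod_cast hn

lemma one_sub_sum_le_prod (s : Finset ℕ) (hs : ∀ q ∈ s, 1 ≤ q) :
    1 - ∑ q ∈ s, 1 / (q : ℝ) ≤ ∏ q ∈ s, (1 - 1 / (q : ℝ)) := by
  classical
  induction s using Finset.induction_on with
  | empty => simp
  | insert q s hq ih =>
    rw [Finset.sum_insert hq, Finset.prod_insert hq]
    have ih' := ih fun r hr => hs r (mem_insert_of_mem hr)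
    have hq1 : (1 : ℝ) ≤ q := by exact_mod_cast hs q (mem_insert_self _ _)
    have h1 : 0 ≤ 1 - 1 / (q : ℝ) := by
      rw [sub_nonneg, div_le_one (by linarith)]; exact hq1
    have h2 : ∏ r ∈ s, (1 - 1 / (r : ℝ)) ≤ 1 := by
      refine Finset.prod_le_one (fun r hr => ?_) (fun r hr => ?_)
      · have : (1 : ℝ) ≤ r := by exact_mod_cast hs r (mem_insert_of_mem hr)
        rw [sub_nonneg, div_le_one (by linarith)]; exact this
      · have : (0 : ℝ) ≤ 1 / r := by positivity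
        linarith
    have h3 : 0 ≤ 1 / (q : ℝ) := by positivity
    nlinarith

/-- Pointwise approximation of `φ(n)/n` by the product over `q ≤ y`. -/
lemma totient_trunc {n : ℕ} (hn : n ≠ 0) (y : ℕ) :
    |(Nat.totient n : ℝ) / (n : ℝ) -
      ∏ q ∈ Nat.primesLE y, (1 - (if q ∣ n then 1 / (q : ℝ) else 0))| ≤
      ∑ r ∈ n.primeFactors.filter (y < ·), (1 / (r : ℝ)) := by
  have h1 : ∏ q ∈ Nat.primesLE y, (1 - (if q ∣ n then 1 / (q : ℝ) else 0)) =
      ∏ q ∈ n.primeFactors.filter (fun q => ¬ y < q), (1 - 1 / (q : ℝ)) := by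
    have : n.primeFactors.filter (fun q => ¬ y < q) =
        (Nat.primesLE y).filter (fun q => q ∣ n) := by
      ext q
      simp only [mem_filter, Nat.mem_primeFactors, Nat.mem_primesLE]
      constructor
      · rintro ⟨⟨h1, h2, h3⟩, h4⟩
        exact ⟨⟨by omega, h1⟩, h2⟩
      · rintro ⟨⟨h1, h2⟩, h3⟩
        exact ⟨⟨h2, h3, hn⟩, by omega⟩
    rw [this, Finset.prod_filter]
    refine Finset.prod_congr rfl fun q _ => ?_
    split_ifs <;> simp
  rw [totient_div_eq_prod hn, h1,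
    ← Finset.prod_filter_mul_prod_filter_not n.primeFactors (fun q => y < q)]
  set A := ∏ q ∈ n.primeFactors.filter (fun q => y < q), (1 - 1 / (q : ℝ)) with hA
  set B := ∏ q ∈ n.primeFactors.filter (fun q => ¬ y < q), (1 - 1 / (q : ℝ)) with hB
  have hA1 : 1 - ∑ r ∈ n.primeFactors.filter (y < ·), (1 / (r : ℝ)) ≤ A := by
    apply one_sub_sum_le_prod
    intro q hq
    exact (Nat.prime_of_mem_primeFactors (Finset.mem_filter.1 hq).1).one_le
  have hfac : ∀ q ∈ n.primeFactors, 0 ≤ 1 - 1 / (q : ℝ) ∧ 1 - 1 / (q : ℝ) ≤ 1 := by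
    intro q hq
    have : (1 : ℝ) ≤ q := by exact_mod_cast (Nat.prime_of_mem_primeFactors hq).one_le
    refine ⟨?_, ?_⟩
    · rw [sub_nonneg, div_le_one (by linarith)]; exact this
    · have : (0 : ℝ) ≤ 1 / q := by positivity
      linarith
  have hA2 : A ≤ 1 := Finset.prod_le_one
    (fun q hq => (hfac q (Finset.mem_filter.1 hq).1).1)
    (fun q hq => (hfac q (Finset.mem_filter.1 hq).1).2)
  have hB1 : B ≤ 1 := Finset.prod_le_one
    (fun q hq => (hfac q (Finset.mem_filter.1 hq).1).1)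
    (fun q hq => (hfac q (Finset.mem_filter.1 hq).1).2)
  have hB0 : 0 ≤ B := Finset.prod_nonneg
    (fun q hq => (hfac q (Finset.mem_filter.1 hq).1).1)
  rw [show A * B - B = -((1 - A) * B) by ring, abs_neg, abs_of_nonneg (by
    apply mul_nonneg _ hB0; linarith)]
  calc (1 - A) * B ≤ (1 - A) * 1 := by
        apply mul_le_mul_of_nonneg_left hB1; linarith
    _ ≤ _ := by linarith

/-- Local factor at `q` (twisted by the Legendre symbol when `q ∈ s0`). -/
noncomputable def loc (s0 : Finset ℕ) (q a : ℕ) : ℝ :=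
  (if q ∈ s0 then ((jacobiSym (a : ℤ) q : ℤ) : ℝ) else 1) *
    (1 - (if a % q = 1 % q then 1 / (q : ℝ) else 0))

lemma loc_mod (s0 : Finset ℕ) (q a : ℕ) : loc s0 q (a % q) = loc s0 q a := by
  unfold loc
  rw [Nat.mod_mod]
  congr 2
  rw [show ((a % q : ℕ) : ℤ) = (a : ℤ) % (q : ℤ) by push_cast; rfl, ← jacobiSym.mod_left]

lemma sum_jacobi_eq_zero {q : ℕ} (hq : q.Prime) (hq2 : q ≠ 2) :
    (∑ a ∈ range q, ((jacobiSym (a : ℤ) q : ℤ) : ℝ)) = 0 := by
  have : Fact q.Prime := ⟨hq⟩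
  have h1 : ∑ a : ZMod q, quadraticChar (ZMod q) a = 0 :=
    quadraticChar_sum_zero (by rw [ZMod.ringChar_zmod_n]; exact hq2)
  have h2 : (∑ a ∈ range q, (jacobiSym (a : ℤ) q : ℤ)) = 0 := by
    rw [← h1]
    refine Finset.sum_nbij' (fun a => (a : ZMod q)) (fun a => a.val) ?_ ?_ ?_ ?_ ?_
    · intro a _; exact Finset.mem_univ _
    · intro a _; exact Finset.mem_range.2 (ZMod.val_lt a)
    · intro a ha; exact ZMod.val_cast_of_lt (Finset.mem_range.1 ha)
    · intro a _; exact ZMod.natCast_zmod_val a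
    · intro a _
      rw [← jacobiSym.legendreSym.to_jacobiSym, legendreSym]
      norm_num
  exact_mod_cast h2

lemma sum_loc {s0 : Finset ℕ} {q : ℕ} (hq : q.Prime) (hs0 : q ∈ s0 → q ≠ 2) :
    (∑ a ∈ (range q).filter (Nat.Coprime q), loc s0 q a) =
      (if q ∈ s0 then 0 else ((q : ℝ) - 1)) - 1 / (q : ℝ) := by
  have h1 : (1 : ℕ) % q = 1 := Nat.mod_eq_of_lt hq.one_lt
  have hmem1 : (1 : ℕ) ∈ (range q).filter (Nat.Coprime q) := by
    simp [hq.one_lt]
  set c : ℕ → ℝ := fun a => (if q ∈ s0 then ((jacobiSym (a : ℤ) q : ℤ) : ℝ) else 1) with hc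
  have e1 : (∑ a ∈ (range q).filter (Nat.Coprime q), loc s0 q a) =
      (∑ a ∈ (range q).filter (Nat.Coprime q), c a) -
      ∑ a ∈ (range q).filter (Nat.Coprime q), (if a = 1 then 1 / (q : ℝ) else 0) := by
    rw [← Finset.sum_sub_distrib]
    refine Finset.sum_congr rfl fun a ha => ?_
    have ha' : a % q = a := Nat.mod_eq_of_lt (Finset.mem_range.1 (Finset.mem_filter.1 ha).1)
    unfold loc
    rw [ha', h1]
    change c a * _ = _
    by_cases h : a = 1
    · subst h
      simp only [if_true]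
      have : c 1 = 1 := by
        simp [hc]
      rw [this]; ring
    · simp [h]
  rw [e1, Finset.sum_ite_eq' _ _ (fun _ => 1 / (q : ℝ)), if_pos hmem1]
  congr 1
  split_ifs with h
  · have h2 := sum_jacobi_eq_zero hq (hs0 h)
    rw [← h2, Finset.sum_filter]
    refine Finset.sum_congr rfl fun a _ => ?_
    simp only [hc, if_pos h]
    split_ifs with h3
    · rfl
    · symm
      have : NeZero q := ⟨hq.ne_zero⟩
      have : jacobiSym (a : ℤ) q = 0 := by
        rw [jacobiSym.eq_zero_iff_not_coprime]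
        intro h4
        apply h3
        rw [Nat.coprime_comm]
        simpa [Int.gcd_natCast_natCast] using h4
      rw [this]; simp
  · simp only [hc, if_neg h]
    rw [Finset.sum_const, nsmul_eq_mul, mul_one]
    have : ((range q).filter (Nat.Coprime q)).card = q - 1 := by
      rw [← Nat.totient_prime hq]; rfl
    rw [this, Nat.cast_sub hq.one_le]; simp

lemma mean_loc {s0 : Finset ℕ} {y : ℕ} (hs0 : ∀ q ∈ s0, q.Prime ∧ q ≠ 2 ∧ q ≤ y) :
    (∑ a ∈ (range (∏ q ∈ Nat.primesLE y, q)).filter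
      (Nat.Coprime (∏ q ∈ Nat.primesLE y, q)), ∏ q ∈ Nat.primesLE y, loc s0 q a) /
        ((∏ q ∈ Nat.primesLE y, q).totient : ℝ) =
      (∏ q ∈ Nat.primesLE y, (1 - 1 / ((q : ℝ) * ((q : ℝ) - 1)))) *
        ∏ q ∈ s0, (-1 / ((q : ℝ) ^ 2 - (q : ℝ) - 1)) := by
  have hprime : ∀ q ∈ Nat.primesLE y, q.Prime := fun q hq => (Nat.mem_primesLE.1 hq).2
  rw [sum_coprime_prod _ hprime (loc s0) (fun q _ a => loc_mod s0 q a)]
  have htot : ((∏ q ∈ Nat.primesLE y, q).totient : ℝ) = ∏ q ∈ Nat.primesLE y, ((q : ℝ) - 1) := by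
    have h := sum_coprime_prod (Nat.primesLE y) hprime (fun _ _ => (1 : ℝ))
      (fun _ _ _ => rfl)
    simp only [Finset.prod_const_one, Finset.sum_const, nsmul_eq_mul, mul_one] at h
    have e1 : ((range (∏ q ∈ Nat.primesLE y, q)).filter
        (Nat.Coprime (∏ q ∈ Nat.primesLE y, q))).card =
        (∏ q ∈ Nat.primesLE y, q).totient := rfl
    rw [← e1, h]
    refine Finset.prod_congr rfl fun q hq => ?_
    have e2 : ((range q).filter (Nat.Coprime q)).card = q - 1 := by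
      rw [← Nat.totient_prime (hprime q hq)]; rfl
    rw [e2, Nat.cast_sub (hprime q hq).one_le]; simp
  have hsub : s0 ⊆ Nat.primesLE y := fun q hq =>
    Nat.mem_primesLE.2 ⟨(hs0 q hq).2.2, (hs0 q hq).1⟩
  have hs0prod : ∏ q ∈ s0, (-1 / ((q : ℝ) ^ 2 - (q : ℝ) - 1)) =
      ∏ q ∈ Nat.primesLE y, (if q ∈ s0 then (-1 / ((q : ℝ) ^ 2 - (q : ℝ) - 1)) else 1) := by
    rw [Finset.prod_ite_mem, Finset.inter_eq_right.2 hsub]
  rw [htot, ← Finset.prod_div_distrib, hs0prod, ← Finset.prod_mul_distrib]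
  refine Finset.prod_congr rfl fun q hq => ?_
  have hqp := hprime q hq
  rw [sum_loc hqp (fun h => (hs0 q h).2.1)]
  have hq2 : (2 : ℝ) ≤ q := by exact_mod_cast hqp.two_le
  have h1 : (q : ℝ) - 1 ≠ 0 := by linarith
  have h0 : (q : ℝ) ≠ 0 := by linarith
  split_ifs with h
  · have hq3 : (3 : ℝ) ≤ q := by
      have : 3 ≤ q := by
        have := hqp.two_le
        have := (hs0 q h).2.1
        omega
      exact_mod_cast this
    have h2 : (q : ℝ) ^ 2 - q - 1 ≠ 0 := by nlinarith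
    have h3 : (q : ℝ) * ((q : ℝ) - 1) ≠ 0 := mul_ne_zero h0 h1
    have e1 : (1 : ℝ) - 1 / ((q : ℝ) * ((q : ℝ) - 1)) =
        ((q : ℝ) ^ 2 - q - 1) / ((q : ℝ) * ((q : ℝ) - 1)) := by
      rw [eq_div_iff h3, sub_mul, div_mul_cancel₀ _ h3]; ring
    rw [e1, div_mul_div_comm, mul_comm ((q : ℝ) * ((q : ℝ) - 1)) _,
      mul_div_mul_left _ _ h2]
    rw [zero_sub, neg_div, neg_div, div_div]
  · field_simp

lemma summable_artin : Summable (fun p : Nat.Primes => -(1 / (((p : ℕ) : ℝ) * (((p : ℕ) : ℝ) - 1)))) := by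
  have h : Summable (fun n : ℕ => 2 * (1 / (n : ℝ) ^ 2)) :=
    (Real.summable_one_div_nat_pow.2 (by norm_num)).mul_left 2
  have h2 : Summable (fun p : Nat.Primes => 2 * (1 / ((p : ℕ) : ℝ) ^ 2)) :=
    h.comp_injective Nat.Primes.coe_nat_injective
  refine (Summable.of_nonneg_of_le (fun p => ?_) (fun p => ?_) h2).neg
  · have : (2 : ℝ) ≤ ((p : ℕ) : ℝ) := by exact_mod_cast p.2.two_le
    have h3 : 0 < ((p : ℕ) : ℝ) * (((p : ℕ) : ℝ) - 1) := by nlinarith
    positivity
  · have : (2 : ℝ) ≤ ((p : ℕ) : ℝ) := by exact_mod_cast p.2.two_le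
    have h3 : 0 < ((p : ℕ) : ℝ) * (((p : ℕ) : ℝ) - 1) := by nlinarith
    have h4 : (0 : ℝ) < ((p : ℕ) : ℝ) ^ 2 := by positivity
    have h5 : 2 * (1 / ((p : ℕ) : ℝ) ^ 2) = 2 / ((p : ℕ) : ℝ) ^ 2 := by ring
    refine le_trans ?_ h5.ge
    exact (div_le_div_iff₀ h3 h4).2 (by nlinarith)

/-- The truncated Artin products converge to the infinite product. -/
lemma tendsto_artin_prod :
    Tendsto (fun y : ℕ => ∏ q ∈ Nat.primesLE y, (1 - 1 / ((q : ℝ) * ((q : ℝ) - 1)))) atTop
      (𝓝 (∏' p : Nat.Primes, (1 - 1 / (((p : ℕ) : ℝ) * (((p : ℕ) : ℝ) - 1))))) := by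
  have hm : Multipliable (fun p : Nat.Primes =>
      (1 + -(1 / (((p : ℕ) : ℝ) * (((p : ℕ) : ℝ) - 1))))) :=
    Real.multipliable_one_add_of_summable summable_artin
  have hp := hm.hasProd
  have hp2 : Tendsto (fun s : Finset Nat.Primes => ∏ p ∈ s,
      (1 + -(1 / (((p : ℕ) : ℝ) * (((p : ℕ) : ℝ) - 1))))) atTop
      (𝓝 (∏' p : Nat.Primes, (1 + -(1 / (((p : ℕ) : ℝ) * (((p : ℕ) : ℝ) - 1)))))) := by
    simpa [HasProd] using hp
  have hsets : Tendsto (fun y : ℕ => ((Nat.primesLE y).subtype Nat.Prime : Finset Nat.Primes))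
      atTop atTop := by
    refine tendsto_atTop_finset_of_monotone ?_ ?_
    · intro y z hyz p hp
      rw [Finset.mem_subtype] at hp ⊢
      rw [Nat.mem_primesLE] at hp ⊢
      exact ⟨hp.1.trans hyz, hp.2⟩
    · intro p
      refine ⟨(p : ℕ), ?_⟩
      rw [Finset.mem_subtype, Nat.mem_primesLE]
      exact ⟨le_refl _, p.2⟩
  have h := hp2.comp hsets
  have e : ∀ p : Nat.Primes, (1 : ℝ) + -(1 / (((p : ℕ) : ℝ) * (((p : ℕ) : ℝ) - 1))) =
      1 - 1 / (((p : ℕ) : ℝ) * (((p : ℕ) : ℝ) - 1)) := fun p => by ring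
  simp_rw [e] at h
  refine h.congr fun y => ?_
  rw [Function.comp_apply]
  refine Finset.prod_nbij (fun p : Nat.Primes => (p : ℕ)) ?_ ?_ ?_ ?_
  · intro p hp
    exact Finset.mem_subtype.1 hp
  · intro p _ q _ hpq
    exact Nat.Primes.coe_nat_injective hpq
  · intro q hq
    rw [Finset.mem_coe] at hq
    exact ⟨⟨q, (Nat.mem_primesLE.1 hq).2⟩, Finset.mem_coe.2 (Finset.mem_subtype.2 hq), rfl⟩
  · intro p _
    rfl

/-- Averages of `∏_{q ∈ s0} (p/q) · φ(p-1)/(p-1)` over the primes. -/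
theorem avg_totient_char (s0 : Finset ℕ) (hs0 : ∀ q ∈ s0, q.Prime ∧ q ≠ 2) :
    Tendsto (fun x : ℕ => (∑ p ∈ (range (x + 1)).filter Nat.Prime,
      ((Nat.totient (p - 1) : ℝ) / ((p - 1 : ℕ) : ℝ)) *
        ∏ q ∈ s0, ((jacobiSym (p : ℤ) q : ℤ) : ℝ)) / (Nat.primeCounting x : ℝ)) atTop
      (𝓝 ((∏' p : Nat.Primes, (1 - 1 / (((p : ℕ) : ℝ) * (((p : ℕ) : ℝ) - 1)))) *
        ∏ q ∈ s0, (-1 / ((q : ℝ) ^ 2 - (q : ℝ) - 1)))) := by
  obtain ⟨C, hC⟩ := tail_bound
  set A := ∏' p : Nat.Primes, (1 - 1 / (((p : ℕ) : ℝ) * (((p : ℕ) : ℝ) - 1))) with hA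
  set B := ∏ q ∈ s0, (-1 / ((q : ℝ) ^ 2 - (q : ℝ) - 1)) with hB
  have hCpos : 0 ≤ C := by
    obtain ⟨x, hx1, hx2⟩ := ((hC 1 le_rfl).and (eventually_ge_atTop 2)).exists
    have h1 : (0 : ℝ) ≤ ∑ p ∈ (Finset.range (x + 1)).filter Nat.Prime,
      ∑ r ∈ (p - 1).primeFactors.filter (1 < ·), (1 / (r : ℝ)) :=
      Finset.sum_nonneg fun p _ => Finset.sum_nonneg fun r _ => by positivity
    have h2 : (0 : ℝ) < Nat.primeCounting x := by
      have : Nat.primeCounting 2 ≤ Nat.primeCounting x := Nat.monotone_primeCounting hx2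
      have h2 : Nat.primeCounting 2 = 1 := by decide
      exact_mod_cast (by omega : 0 < Nat.primeCounting x)
    have h3 := h1.trans hx1
    simp only [Nat.cast_one, div_one] at h3
    by_contra hneg
    push Not at hneg
    nlinarith
  rw [Metric.tendsto_atTop]
  intro ε hε
  have hlimA : Tendsto (fun y : ℕ => (∏ q ∈ Nat.primesLE y,
      (1 - 1 / ((q : ℝ) * ((q : ℝ) - 1)))) * B) atTop (𝓝 (A * B)) :=
    tendsto_artin_prod.mul_const B
  have hlimC : Tendsto (fun y : ℕ => C / (y : ℝ)) atTop (𝓝 0) :=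
    tendsto_const_div_atTop_nhds_zero_nat C
  obtain ⟨y0, hy0⟩ := s0.exists_nat_subset_range
  have hev1 : ∀ᶠ y : ℕ in atTop, |(∏ q ∈ Nat.primesLE y,
      (1 - 1 / ((q : ℝ) * ((q : ℝ) - 1)))) * B - A * B| < ε / 3 := by
    have := (Metric.tendsto_nhds.1 hlimA) (ε / 3) (by linarith)
    simpa [Real.dist_eq] using this
  have hev2 : ∀ᶠ y : ℕ in atTop, C / (y : ℝ) < ε / 3 := by
    have := (Metric.tendsto_nhds.1 hlimC) (ε / 3) (by linarith)
    filter_upwards [this] with y hy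
    rw [Real.dist_eq, sub_zero] at hy
    exact (abs_lt.1 hy).2
  obtain ⟨y, hy1, hy2, hy3, hy4⟩ :=
    (hev1.and (hev2.and ((eventually_ge_atTop 1).and (eventually_ge_atTop y0)))).exists
  have hs0y : ∀ q ∈ s0, q.Prime ∧ q ≠ 2 ∧ q ≤ y := by
    intro q hq
    refine ⟨(hs0 q hq).1, (hs0 q hq).2, ?_⟩
    have := Finset.mem_range.1 (hy0 hq)
    omega
  set G : ℕ → ℝ := fun a => ∏ q ∈ Nat.primesLE y, loc s0 q a with hG
  set N := ∏ q ∈ Nat.primesLE y, q with hN
  have hNpos : 0 < N := Finset.prod_pos fun q hq => (Nat.mem_primesLE.1 hq).2.pos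
  have hGper : ∀ a, G (a % N) = G a := by
    intro a
    refine Finset.prod_congr rfl fun r hr => ?_
    have hrd : r ∣ N := Finset.dvd_prod_of_mem _ hr
    rw [← loc_mod s0 r (a % _), Nat.mod_mod_of_dvd _ hrd, loc_mod]
  have hlimG := avg_periodic hNpos G hGper
  rw [mean_loc hs0y] at hlimG
  have hev3 := (Metric.tendsto_atTop.1 hlimG) (ε / 3) (by linarith)
  obtain ⟨X1, hX1⟩ := hev3
  obtain ⟨X2, hX2⟩ := eventually_atTop.1 (hC y hy3)
  refine ⟨max (max X1 X2) 2, fun x hx => ?_⟩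
  have hxX1 : X1 ≤ x := le_trans (le_trans (le_max_left _ _) (le_max_left _ _)) hx
  have hxX2 : X2 ≤ x := le_trans (le_trans (le_max_right _ _) (le_max_left _ _)) hx
  have hx2 : 2 ≤ x := le_trans (le_max_right _ _) hx
  have h2 : (0 : ℝ) < Nat.primeCounting x := by
    have : Nat.primeCounting 2 ≤ Nat.primeCounting x := Nat.monotone_primeCounting hx2
    have h2 : Nat.primeCounting 2 = 1 := by decide
    exact_mod_cast (by omega : 0 < Nat.primeCounting x)
  have e1 := hX1 x hxX1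
  have e2 := hX2 x hxX2
  rw [Real.dist_eq] at e1 ⊢
  -- compare the two averages
  have hcmp : |(∑ p ∈ (range (x + 1)).filter Nat.Prime,
      ((Nat.totient (p - 1) : ℝ) / ((p - 1 : ℕ) : ℝ)) *
        ∏ q ∈ s0, ((jacobiSym (p : ℤ) q : ℤ) : ℝ)) / (Nat.primeCounting x : ℝ) -
      (∑ p ∈ (range (x + 1)).filter Nat.Prime, G p) / (Nat.primeCounting x : ℝ)| ≤ C / y := by
    rw [← sub_div, abs_div, abs_of_pos h2, div_le_iff₀ h2, ← Finset.sum_sub_distrib]
    refine le_trans (Finset.abs_sum_le_sum_abs _ _) (le_trans (Finset.sum_le_sum ?_) e2)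
    intro p hp
    have hpp : p.Prime := (Finset.mem_filter.1 hp).2
    have hp1 : p - 1 ≠ 0 := by have := hpp.two_le; omega
    have hGp : G p = (∏ q ∈ Nat.primesLE y, (1 - (if q ∣ p - 1 then 1 / (q : ℝ) else 0))) *
        ∏ q ∈ s0, ((jacobiSym (p : ℤ) q : ℤ) : ℝ) := by
      have hsub : s0 ⊆ Nat.primesLE y := fun q hq =>
        Nat.mem_primesLE.2 ⟨(hs0y q hq).2.2, (hs0y q hq).1⟩
      have hs0prod : ∏ q ∈ s0, ((jacobiSym (p : ℤ) q : ℤ) : ℝ) =
          ∏ q ∈ Nat.primesLE y, (if q ∈ s0 then ((jacobiSym (p : ℤ) q : ℤ) : ℝ) else 1) := by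
        rw [Finset.prod_ite_mem, Finset.inter_eq_right.2 hsub]
      rw [hs0prod, ← Finset.prod_mul_distrib]
      refine Finset.prod_congr rfl fun q hq => ?_
      unfold loc
      rw [mul_comm]
      congr 2
      have hiff : (p % q = 1 % q) ↔ q ∣ p - 1 := by
        rw [← Nat.modEq_iff_dvd' hpp.one_le]
        exact ⟨fun h => h.symm, fun h => h.symm⟩
      simp only [hiff]
    rw [hGp, ← sub_mul, abs_mul]
    have hjac : |∏ q ∈ s0, ((jacobiSym (p : ℤ) q : ℤ) : ℝ)| ≤ 1 := by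
      rw [Finset.abs_prod]
      refine Finset.prod_le_one (fun _ _ => abs_nonneg _) fun q _ => ?_
      rcases jacobiSym.trichotomy (p : ℤ) q with h | h | h <;> rw [h] <;> norm_num
    calc _ ≤ |(Nat.totient (p - 1) : ℝ) / ((p - 1 : ℕ) : ℝ) -
          ∏ q ∈ Nat.primesLE y, (1 - (if q ∣ p - 1 then 1 / (q : ℝ) else 0))| * 1 := by
          gcongr
      _ ≤ _ := by rw [mul_one]; exact totient_trunc hp1 y
  have e3 := abs_lt.1 e1
  have e4 := abs_lt.1 hy1
  have e5 := abs_le.1 hcmp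
  rw [abs_lt]
  constructor <;> linarith [e3.1, e3.2, e4.1, e4.2, e5.1, e5.2]

lemma jacobi_flip {b : ℤ} (hb4 : b % 4 = 1) {p : ℕ} (hp : p.Prime) (hp2 : p ≠ 2) :
    jacobiSym b p = jacobiSym (p : ℤ) b.natAbs := by
  have hodd : Odd p := hp.odd_of_ne_two hp2
  rcases Int.natAbs_eq b with hb | hb
  · have h4 : b.natAbs % 4 = 1 := by omega
    conv_lhs => rw [hb]
    exact jacobiSym.quadratic_reciprocity_one_mod_four h4 hodd
  · have h4 : b.natAbs % 4 = 3 := by omega
    have hoddb : Odd b.natAbs := Nat.odd_iff.2 (by omega)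
    conv_lhs => rw [hb]
    rw [jacobiSym.neg _ hodd]
    rcases Nat.odd_mod_four_iff.1 (Nat.odd_iff.1 hodd) with h | h
    · rw [ZMod.χ₄_nat_one_mod_four h, one_mul]
      exact jacobiSym.quadratic_reciprocity_one_mod_four' hoddb h
    · rw [ZMod.χ₄_nat_three_mod_four h,
        jacobiSym.quadratic_reciprocity_three_mod_four h4 h]
      ring

lemma jacobi_prod_right (a : ℤ) (s : Finset ℕ) (hs : ∀ q ∈ s, q ≠ 0) :
    jacobiSym a (∏ q ∈ s, q) = ∏ q ∈ s, jacobiSym a q := by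
  classical
  induction s using Finset.induction_on with
  | empty => simp
  | insert q s hq ih =>
    rw [Finset.prod_insert hq, Finset.prod_insert hq, jacobiSym.mul_right' _
      (hs q (mem_insert_self _ _))
      (Finset.prod_ne_zero_iff.2 fun r hr => hs r (mem_insert_of_mem hr)),
      ih fun r hr => hs r (mem_insert_of_mem hr)]

lemma jacobi_eq_prod {b : ℤ} (hb : Squarefree b) (hb4 : b % 4 = 1) {p : ℕ} (hp : p.Prime)
    (hp2 : p ≠ 2) :
    jacobiSym b p = ∏ q ∈ b.natAbs.primeFactors, jacobiSym (p : ℤ) q := by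
  have hsq : Squarefree b.natAbs := Int.squarefree_natAbs.2 hb
  rw [jacobi_flip hb4 hp hp2, ← jacobi_prod_right _ _
    (fun q hq => (Nat.prime_of_mem_primeFactors hq).ne_zero),
    Nat.prod_primeFactors_of_squarefree hsq]

lemma moebius_prod {n : ℕ} (hn : Squarefree n) :
    ((ArithmeticFunction.moebius n : ℤ) : ℝ) *
      ∏ q ∈ n.primeFactors, (1 / ((q : ℝ) ^ 2 - (q : ℝ) - 1)) =
      ∏ q ∈ n.primeFactors, (-1 / ((q : ℝ) ^ 2 - (q : ℝ) - 1)) := by
  have h1 : ∏ q ∈ n.primeFactors, (-1 / ((q : ℝ) ^ 2 - (q : ℝ) - 1)) =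
      (-1) ^ n.primeFactors.card * ∏ q ∈ n.primeFactors, (1 / ((q : ℝ) ^ 2 - (q : ℝ) - 1)) := by
    rw [← Finset.prod_const, ← Finset.prod_mul_distrib]
    refine Finset.prod_congr rfl fun q _ => ?_
    ring
  rw [h1, ArithmeticFunction.moebius_apply_of_squarefree hn,
    ← (ArithmeticFunction.cardDistinctFactors_eq_cardFactors_iff_squarefree hn.ne_zero).2 hn,
    ArithmeticFunction.cardDistinctFactors_apply]
  push_cast
  rfl

/-- Main term without character: Artin's constant. -/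
theorem main_term_one :
    Tendsto (fun x : ℕ => (∑ p ∈ (range (x + 1)).filter (fun p => p.Prime ∧ p ≠ 2),
      ((Nat.totient (p - 1) : ℝ) / ((p - 1 : ℕ) : ℝ))) / (Nat.primeCounting x : ℝ)) atTop
      (𝓝 (∏' p : Nat.Primes, (1 - 1 / (((p : ℕ) : ℝ) * (((p : ℕ) : ℝ) - 1))))) := by
  have h := avg_totient_char ∅ (by simp)
  simp only [Finset.prod_empty, mul_one] at h
  have hpi : Tendsto (fun x : ℕ => (Nat.primeCounting x : ℝ)) atTop atTop :=
    tendsto_natCast_atTop_atTop.comp Nat.tendsto_primeCounting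
  have h0 : Tendsto (fun x : ℕ => (1 : ℝ) / (Nat.primeCounting x : ℝ)) atTop (𝓝 0) :=
    hpi.const_div_atTop _
  have h3 := h.sub h0
  rw [sub_zero] at h3
  refine h3.congr' ?_
  filter_upwards [eventually_ge_atTop 2] with x hx
  rw [← sub_div]
  congr 1
  have hsplit : (range (x + 1)).filter Nat.Prime =
      insert 2 ((range (x + 1)).filter (fun p => p.Prime ∧ p ≠ 2)) := by
    ext p
    simp only [mem_filter, mem_range, mem_insert]
    constructor
    · rintro ⟨h1, h2⟩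
      by_cases h : p = 2
      · exact Or.inl h
      · exact Or.inr ⟨h1, h2, h⟩
    · rintro (h | h)
      · subst h; exact ⟨by omega, Nat.prime_two⟩
      · exact ⟨h.1, h.2.1⟩
  rw [hsplit, Finset.sum_insert (by simp)]
  simp

/-- Main term with the quadratic character: Hooley's constant with the correction factor. -/
theorem main_term {b : ℤ} (hb : Squarefree b) (hb4 : b % 4 = 1) :
    Tendsto (fun x : ℕ => (∑ p ∈ (range (x + 1)).filter (fun p => p.Prime ∧ p ≠ 2),
      ((Nat.totient (p - 1) : ℝ) / ((p - 1 : ℕ) : ℝ)) * (1 - (jacobiSym b p : ℝ))) /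
        (Nat.primeCounting x : ℝ)) atTop
      (𝓝 ((1 - ((ArithmeticFunction.moebius b.natAbs : ℤ) : ℝ) *
        ∏ q ∈ b.natAbs.primeFactors, (1 / ((q : ℝ) ^ 2 - (q : ℝ) - 1))) *
        ∏' p : Nat.Primes, (1 - 1 / (((p : ℕ) : ℝ) * (((p : ℕ) : ℝ) - 1))))) := by
  have hsq : Squarefree b.natAbs := Int.squarefree_natAbs.2 hb
  have h1 := main_term_one
  have h2 := avg_totient_char b.natAbs.primeFactors (by
    intro q hq
    refine ⟨Nat.prime_of_mem_primeFactors hq, ?_⟩
    rintro rfl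
    have := Nat.dvd_of_mem_primeFactors hq
    omega)
  rw [← moebius_prod hsq] at h2
  have hpi : Tendsto (fun x : ℕ => (Nat.primeCounting x : ℝ)) atTop atTop :=
    tendsto_natCast_atTop_atTop.comp Nat.tendsto_primeCounting
  have h0 : Tendsto (fun x : ℕ => ((∏ q ∈ b.natAbs.primeFactors,
      ((jacobiSym ((2 : ℕ) : ℤ) q : ℤ) : ℝ)) : ℝ) / (Nat.primeCounting x : ℝ)) atTop (𝓝 0) :=
    hpi.const_div_atTop _
  have h3 := h1.sub (h2.sub h0)
  have e : ∀ (A M : ℝ), A - (A * M - 0) = (1 - M) * A := fun A M => by ring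
  rw [e] at h3
  refine h3.congr' ?_
  filter_upwards [eventually_ge_atTop 2] with x hx
  rw [← sub_div, ← sub_div]
  congr 1
  have hsplit : (range (x + 1)).filter Nat.Prime =
      insert 2 ((range (x + 1)).filter (fun p => p.Prime ∧ p ≠ 2)) := by
    ext p
    simp only [mem_filter, mem_range, mem_insert]
    constructor
    · rintro ⟨h1, h2⟩
      by_cases h : p = 2
      · exact Or.inl h
      · exact Or.inr ⟨h1, h2, h⟩
    · rintro (h | h)
      · subst h; exact ⟨by omega, Nat.prime_two⟩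
      · exact ⟨h.1, h.2.1⟩
  rw [hsplit, Finset.sum_insert (by simp)]
  have e2 : ((Nat.totient (2 - 1) : ℝ) / ((2 - 1 : ℕ) : ℝ)) = 1 := by simp
  rw [e2, one_mul, add_sub_cancel_left, ← Finset.sum_sub_distrib]
  refine Finset.sum_congr rfl fun p hp => ?_
  obtain ⟨_, hp1, hp2⟩ := Finset.mem_filter.1 hp
  rw [jacobi_eq_prod hb hb4 hp1 hp2]
  push_cast
  ring

end Pool.Agent.Helper7
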