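import Mathlib
import Pool.Agent.Helper6.PNT

set_option autoImplicit false

open Finset Filter Topology Nat Chebyshev

namespace Pool.Agent.Helper7.Signed

/-- admissible sign vectors -/
def Adm (δ : ℕ → ℤ) : Prop := ∀ k, δ k = -1 ∨ δ k = 0 ∨ δ k = 1

/-- the signed harmonic sum -/
noncomputable def S (n : ℕ) (δ : ℕ → ℤ) : ℝ := ∑ k ∈ Finset.Icc 1 n, (δ k : ℝ) / (k : ℝ)

/-- the numerator over `lcm(1..n)` -/
def A (n : ℕ) (δ : ℕ → ℤ) : ℤ := ∑ k ∈ Finset.Icc 1 n, δ k * ((lcmUpto n / k : ℕ) : ℤ)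

lemma dvd_lcmUpto {n k : ℕ} (hk : k ∈ Finset.Icc 1 n) : k ∣ lcmUpto n :=
  Finset.dvd_lcm (f := id) hk

lemma A_eq (n : ℕ) (δ : ℕ → ℤ) : (A n δ : ℝ) = (lcmUpto n : ℝ) * S n δ := by
  unfold A S
  rw [Int.cast_sum, Finset.mul_sum]
  refine Finset.sum_congr rfl fun k hk => ?_
  have hk0 : (k : ℝ) ≠ 0 := by
    have := (Finset.mem_Icc.1 hk).1
    exact_mod_cast (by omega : k ≠ 0)
  rw [Int.cast_mul, Int.cast_natCast, Nat.cast_div (dvd_lcmUpto hk) hk0]
  ring

/-- For a prime `p ∈ (n/2, n]`, the numerator is `δ_p · L/p` modulo `p`. -/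
lemma A_modEq {n p : ℕ} (hp : p.Prime) (h1 : n < 2 * p) (h2 : p ≤ n) (δ : ℕ → ℤ) :
    (p : ℤ) ∣ A n δ - δ p * ((lcmUpto n / p : ℕ) : ℤ) := by
  have hmem : p ∈ Finset.Icc 1 n := Finset.mem_Icc.2 ⟨hp.one_le, h2⟩
  unfold A
  rw [← Finset.add_sum_erase _ _ hmem, add_sub_cancel_left]
  refine Finset.dvd_sum fun k hk => ?_
  obtain ⟨hkp, hk⟩ := Finset.mem_erase.1 hk
  have hk' := Finset.mem_Icc.1 hk
  apply Dvd.dvd.mul_left
  rw [Int.natCast_dvd_natCast]
  have hpk : ¬ p ∣ k := by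
    rintro ⟨c, rfl⟩
    have hc : c ≠ 1 := by rintro rfl; simp at hkp
    have hc0 : c ≠ 0 := by rintro rfl; simp at hk'
    have : 2 ≤ c := by omega
    nlinarith
  have hdvd : p ∣ k * (lcmUpto n / k) := by
    rw [Nat.mul_div_cancel' (dvd_lcmUpto hk)]
    exact dvd_lcmUpto hmem
  exact (hp.dvd_mul.1 hdvd).resolve_left hpk

/-- Repulsion, one prime. -/
lemma prime_dvd_form {n p : ℕ} (hp : p.Prime) (h1 : n < 2 * p) (h2 : p ≤ n) {δ δ' : ℕ → ℤ}
    (hδ : Adm δ) (hδ' : Adm δ') :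
    (p : ℤ) ∣ A n δ * A n δ' * (A n δ ^ 2 - A n δ' ^ 2) := by
  have e1 := A_modEq hp h1 h2 δ
  have e2 := A_modEq hp h1 h2 δ'
  set r : ℤ := ((lcmUpto n / p : ℕ) : ℤ) with hr
  rcases hδ p with h | h | h
  all_goals rcases hδ' p with h' | h' | h'
  all_goals rw [h] at e1
  all_goals rw [h'] at e2
  all_goals try simp only [zero_mul, sub_zero] at e1
  all_goals try simp only [zero_mul, sub_zero] at e2
  all_goals first
    | (exact Dvd.dvd.mul_right (Dvd.dvd.mul_right e1 _) _)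
    | (exact Dvd.dvd.mul_right (Dvd.dvd.mul_left e2 _) _)
    | (apply Dvd.dvd.mul_left
       have e3 : A n δ ^ 2 - A n δ' ^ 2 = (A n δ + A n δ') * (A n δ - A n δ') := by ring
       rw [e3]
       first
       | (apply Dvd.dvd.mul_left
          have e4 := dvd_sub e1 e2
          ring_nf at e4 ⊢
          exact e4)
       | (apply Dvd.dvd.mul_right
          have e4 := dvd_add e1 e2
          ring_nf at e4 ⊢
          exact e4))

/-- Repulsion: the product of the primes in `(n/2, n]` divides the form. -/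
lemma prod_dvd_form {n : ℕ} {δ δ' : ℕ → ℤ} (hδ : Adm δ) (hδ' : Adm δ') :
    ((∏ p ∈ (Finset.Ioc (n / 2) n).filter Nat.Prime, p : ℕ) : ℤ) ∣
      A n δ * A n δ' * (A n δ ^ 2 - A n δ' ^ 2) := by
  rw [← Int.dvd_natAbs, Int.natCast_dvd_natCast]
  refine Finset.prod_primes_dvd _ (fun p hp => ?_) (fun p hp => ?_)
  · exact (Finset.mem_filter.1 hp).2.prime
  · obtain ⟨hp1, hp2⟩ := Finset.mem_filter.1 hp
    rw [Finset.mem_Ioc] at hp1
    rw [← Int.natCast_dvd_natCast, Int.dvd_natAbs]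
    exact prime_dvd_form hp2 (by omega) hp1.2 hδ hδ'

/-- Repulsion inequality for two signed sums at the same level. -/
theorem repulsion {n : ℕ} {δ δ' : ℕ → ℤ} (hδ : Adm δ) (hδ' : Adm δ')
    (h0 : 0 < |S n δ|) (hlt : |S n δ| < |S n δ'|) :
    ((∏ p ∈ (Finset.Ioc (n / 2) n).filter Nat.Prime, p : ℕ) : ℝ) ≤
      ((lcmUpto n : ℝ) * |S n δ'|) ^ 4 := by
  set P := ∏ p ∈ (Finset.Ioc (n / 2) n).filter Nat.Prime, p with hP
  have hL : (0 : ℝ) < lcmUpto n := by exact_mod_cast lcmUpto_pos n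
  set F : ℤ := A n δ * A n δ' * (A n δ ^ 2 - A n δ' ^ 2) with hF
  have hdvd : (P : ℤ) ∣ F := prod_dvd_form hδ hδ'
  have hFr : (F : ℝ) = (lcmUpto n : ℝ) ^ 4 * (S n δ * S n δ' * (S n δ ^ 2 - S n δ' ^ 2)) := by
    rw [hF]; push_cast; rw [A_eq, A_eq]; ring
  have h0' : 0 < |S n δ'| := h0.trans hlt
  have hsq : S n δ ^ 2 < S n δ' ^ 2 := by
    rw [← sq_abs (S n δ), ← sq_abs (S n δ')]
    exact pow_lt_pow_left₀ hlt (abs_nonneg _) (by norm_num)
  have hFne : F ≠ 0 := by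
    intro h
    have h1 : (F : ℝ) = 0 := by exact_mod_cast h
    rw [hFr] at h1
    have hS : S n δ ≠ 0 := abs_pos.1 h0
    have hS' : S n δ' ≠ 0 := abs_pos.1 h0'
    have h2 : S n δ ^ 2 - S n δ' ^ 2 ≠ 0 := by linarith [hsq] |> ne_of_lt
    have := mul_ne_zero (pow_ne_zero 4 hL.ne') (mul_ne_zero (mul_ne_zero hS hS') h2)
    exact this h1
  have hle : (P : ℤ) ≤ |F| := by
    apply Int.le_of_dvd (abs_pos.2 hFne)
    rwa [dvd_abs]
  have hle' : (P : ℝ) ≤ |(F : ℝ)| := by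
    exact_mod_cast hle
  refine hle'.trans ?_
  rw [hFr, abs_mul, abs_mul, abs_mul, abs_pow, abs_of_pos hL, mul_pow]
  apply mul_le_mul_of_nonneg_left _ (by positivity)
  have h3 : |S n δ ^ 2 - S n δ' ^ 2| ≤ |S n δ'| ^ 2 := by
    rw [abs_le, sq_abs]
    constructor
    · nlinarith [sq_nonneg (S n δ)]
    · nlinarith [sq_nonneg (S n δ')]
  calc |S n δ| * |S n δ'| * |S n δ ^ 2 - S n δ' ^ 2|
      ≤ |S n δ'| * |S n δ'| * |S n δ'| ^ 2 := by gcongr
    _ = |S n δ'| ^ 4 := by ring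

lemma theta_tendsto : Tendsto (fun x : ℝ => Chebyshev.theta x / x) atTop (𝓝 1) := by
  have h := Helper6.theta_ap (q := 1) (a := 1) isUnit_one
  simp only [Nat.totient_one, Nat.cast_one, div_one] at h
  refine h.congr fun x => ?_
  congr 1
  rw [Chebyshev.theta]
  refine Finset.sum_congr ?_ fun _ _ => rfl
  ext p
  simp only [mem_filter, Finset.mem_Icc, Finset.mem_Ioc]
  constructor
  · rintro ⟨⟨h1, h2⟩, h3, _⟩
    exact ⟨⟨by omega, h2⟩, h3⟩
  · rintro ⟨⟨h1, h2⟩, h3⟩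
    exact ⟨⟨by omega, h2⟩, h3, Subsingleton.elim _ _⟩

lemma psi_tendsto : Tendsto (fun x : ℝ => Chebyshev.psi x / x) atTop (𝓝 1) := by
  have h3 := Chebyshev.isBigO_psi_sub_theta_sqrt
  have h4 : (fun x : ℝ => Real.sqrt x) =o[atTop] (fun x : ℝ => x) := by
    rw [Asymptotics.isLittleO_iff_tendsto' (by
      filter_upwards [eventually_gt_atTop 0] with x hx h; exact absurd h hx.ne')]
    have h5 : Tendsto (fun x : ℝ => (Real.sqrt x)⁻¹) atTop (𝓝 0) :=
      tendsto_inv_atTop_zero.comp Real.tendsto_sqrt_atTop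
    refine h5.congr' ?_
    filter_upwards [eventually_gt_atTop 0] with x hx
    rw [Real.sqrt_div_self']
    simp
  have h6 := (h3.trans_isLittleO h4).tendsto_div_nhds_zero
  have h7 := h6.add theta_tendsto
  rw [zero_add] at h7
  refine h7.congr fun x => ?_
  simp only [Pi.sub_apply]
  ring

/-- `lcm(1..n) ≤ e^{(1+η) n}` eventually. -/
lemma lcm_le (η : ℝ) (hη : 0 < η) : ∀ᶠ n : ℕ in atTop,
    Real.log (lcmUpto n) ≤ (1 + η) * n := by
  have h := psi_tendsto.comp tendsto_natCast_atTop_atTop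
  have h2 := h.eventually (gt_mem_nhds (show (1 : ℝ) < 1 + η by linarith))
  filter_upwards [h2, eventually_gt_atTop 0] with n hn hn0
  have hn0' : (0 : ℝ) < n := by exact_mod_cast hn0
  rw [← Chebyshev.psi_eq_log_lcmUpto]
  simp only [Function.comp_apply] at hn
  rw [div_lt_iff₀ hn0'] at hn
  exact hn.le

/-- The primes in `(n/2, n]` have product at least `e^{(1/2-η) n}` eventually. -/
lemma prod_primes_ge (η : ℝ) (hη : 0 < η) : ∀ᶠ n : ℕ in atTop,
    (1 / 2 - η) * n ≤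
      Real.log ((∏ p ∈ (Finset.Ioc (n / 2) n).filter Nat.Prime, p : ℕ) : ℝ) := by
  have h1 := theta_tendsto.comp tendsto_natCast_atTop_atTop
  have h2 : Tendsto (fun n : ℕ => Chebyshev.theta ((n : ℝ) / 2) / ((n : ℝ) / 2)) atTop (𝓝 1) :=
    theta_tendsto.comp (tendsto_natCast_atTop_atTop.atTop_div_const (by norm_num))
  have h3 := h1.eventually (lt_mem_nhds (show (1 : ℝ) - η / 2 < 1 by linarith))
  have h4 := h2.eventually (gt_mem_nhds (show (1 : ℝ) < 1 + η by linarith))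
  filter_upwards [h3, h4, eventually_gt_atTop 0] with n hn1 hn2 hn0
  have hn0' : (0 : ℝ) < n := by exact_mod_cast hn0
  simp only [Function.comp_apply] at hn1
  rw [lt_div_iff₀ hn0'] at hn1
  rw [div_lt_iff₀ (by positivity)] at hn2
  have hlog : Real.log ((∏ p ∈ (Finset.Ioc (n / 2) n).filter Nat.Prime, p : ℕ) : ℝ) =
      Chebyshev.theta n - Chebyshev.theta ((n : ℝ) / 2) := by
    have hfl : ⌊(n : ℝ) / 2⌋₊ = n / 2 := by
      have := Nat.floor_div_natCast (n : ℝ) 2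
      simpa using this
    rw [Chebyshev.theta, Chebyshev.theta, Nat.floor_natCast, hfl]
    push_cast
    rw [Real.log_prod (fun p hp => by
      have := (Finset.mem_filter.1 hp).2.pos
      positivity)]
    rw [eq_sub_iff_add_eq, ← Finset.sum_union]
    · refine Finset.sum_congr ?_ fun _ _ => rfl
      ext p
      simp only [mem_union, mem_filter, Finset.mem_Ioc]
      constructor
      · rintro (⟨⟨h1, h2⟩, h3⟩ | ⟨⟨h1, h2⟩, h3⟩)
        · exact ⟨⟨by omega, h2⟩, h3⟩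
        · exact ⟨⟨h1, by omega⟩, h3⟩
      · rintro ⟨⟨h1, h2⟩, h3⟩
        by_cases h : n / 2 < p
        · exact Or.inl ⟨⟨h, h2⟩, h3⟩
        · exact Or.inr ⟨⟨h1, by omega⟩, h3⟩
    · rw [Finset.disjoint_left]
      intro p h1 h2
      simp only [mem_filter, Finset.mem_Ioc] at h1 h2
      omega
  rw [hlog]
  nlinarith

/-! ### The minimal nonzero value -/

lemma exists_numerator (n : ℕ) (hn : 1 ≤ n) :
    ∃ a : ℕ, 0 < a ∧ ∃ δ : ℕ → ℤ, Adm δ ∧ (A n δ).natAbs = a := by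
  refine ⟨lcmUpto n, lcmUpto_pos n, fun k => if k = 1 then 1 else 0, ?_, ?_⟩
  · intro k
    by_cases h : k = 1
    · right; right; simp [h]
    · right; left; simp [h]
  · unfold A
    rw [Finset.sum_eq_single 1]
    · simp
    · intro k _ hk
      simp [hk]
    · intro h
      exact absurd (Finset.mem_Icc.2 ⟨le_rfl, hn⟩) h

/-- There is a minimal nonzero value of `|S_n(δ)|`. -/
lemma exists_min (n : ℕ) (hn : 1 ≤ n) :
    ∃ m : ℝ, 0 < m ∧ (∃ δ : ℕ → ℤ, Adm δ ∧ |S n δ| = m) ∧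
      (∀ δ : ℕ → ℤ, Adm δ → S n δ ≠ 0 → m ≤ |S n δ|) ∧ 1 / (lcmUpto n : ℝ) ≤ m := by
  classical
  have hex := exists_numerator n hn
  set a := Nat.find hex with ha
  obtain ⟨ha0, δ, hδ, hδa⟩ := Nat.find_spec hex
  have hL : (0 : ℝ) < lcmUpto n := by exact_mod_cast lcmUpto_pos n
  have habs : ∀ δ : ℕ → ℤ, (((A n δ).natAbs : ℕ) : ℝ) = (lcmUpto n : ℝ) * |S n δ| := by
    intro δ
    rw [Nat.cast_natAbs, Int.cast_abs, A_eq, abs_mul, abs_of_pos hL]
  refine ⟨(a : ℝ) / lcmUpto n, ?_, ⟨δ, hδ, ?_⟩, ?_, ?_⟩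
  · have : (0 : ℝ) < a := by exact_mod_cast ha0
    positivity
  · rw [eq_div_iff hL.ne', mul_comm, ← habs, hδa]
  · intro δ' hδ' hne
    rw [div_le_iff₀ hL, mul_comm, ← habs]
    have hpos : 0 < (A n δ').natAbs := by
      rw [Int.natAbs_pos]
      intro h
      have h1 := A_eq n δ'
      rw [h] at h1
      simp only [Int.cast_zero] at h1
      rcases mul_eq_zero.1 h1.symm with h2 | h2
      · exact hL.ne' h2
      · exact hne h2
    exact_mod_cast Nat.find_min' hex ⟨hpos, δ', hδ', rfl⟩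
  · have : (1 : ℝ) ≤ a := by exact_mod_cast ha0
    gcongr

lemma S_extend (n : ℕ) (δ : ℕ → ℤ) :
    S (n + 1) (fun k => if k ≤ n then δ k else 0) = S n δ := by
  unfold S
  rw [Finset.sum_Icc_succ_top (by omega)]
  have h1 : ¬ (n + 1 ≤ n) := by omega
  simp only [h1, if_false, Int.cast_zero, zero_div, add_zero]
  refine Finset.sum_congr rfl fun k hk => ?_
  rw [if_pos (Finset.mem_Icc.1 hk).2]

lemma adm_extend (n : ℕ) {δ : ℕ → ℤ} (hδ : Adm δ) : Adm (fun k => if k ≤ n then δ k else 0) := by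
  intro k
  by_cases h : k ≤ n
  · simp only [h, if_true]; exact hδ k
  · simp [h]

/-- Lower bound for the minimal nonzero signed sum in every interval `[N, 8N/7]`. -/
theorem main (ε : ℝ) (hε : 0 < ε) :
    ∃ N₀ : ℕ, ∀ N : ℕ, N₀ ≤ N → ∃ n : ℕ, N ≤ n ∧ 7 * n ≤ 8 * N ∧
      ∀ δ : ℕ → ℤ, Adm δ → S n δ ≠ 0 →
        Real.exp (-(7 / 8 + ε) * n) ≤ |S n δ| := by
  set η : ℝ := ε / 4 with hη
  have hηpos : 0 < η := by positivity
  obtain ⟨K1, hK1⟩ := eventually_atTop.1 (lcm_le η hηpos)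
  obtain ⟨K2, hK2⟩ := eventually_atTop.1 (prod_primes_ge η hηpos)
  obtain ⟨K3, hK3⟩ := exists_nat_gt ((2 + 2 * ε) / (ε / 2))
  refine ⟨max (max K1 K2) (max K3 1), fun N hN => ?_⟩
  have hN1 : K1 ≤ N := le_trans (le_trans (le_max_left _ _) (le_max_left _ _)) hN
  have hN2 : K2 ≤ N := le_trans (le_trans (le_max_right _ _) (le_max_left _ _)) hN
  have hN3 : K3 ≤ N := le_trans (le_trans (le_max_left _ _) (le_max_right _ _)) hN
  have hN4 : 1 ≤ N := le_trans (le_trans (le_max_right _ _) (le_max_right _ _)) hN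
  have hbig : ∀ n : ℕ, N ≤ n → 2 + 2 * ε ≤ (ε / 2) * n := by
    intro n hn
    rw [div_lt_iff₀ (by positivity)] at hK3
    have : (K3 : ℝ) ≤ n := by exact_mod_cast hN3.trans hn
    nlinarith
  choose! m hmpos hmat hmle hmL using exists_min
  by_cases hcase : ∃ n, N ≤ n ∧ n < 8 * N / 7 ∧ m (n + 1) < m n
  · obtain ⟨n, hn1, hn2, hn3⟩ := hcase
    have hn0 : 1 ≤ n := hN4.trans hn1
    refine ⟨n, hn1, by omega, fun δ hδ hne => ?_⟩
    refine le_trans ?_ (hmle n hn0 δ hδ hne)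
    obtain ⟨δ0, hδ0, hS0⟩ := hmat (n + 1) (by omega)
    obtain ⟨δ1, hδ1, hS1⟩ := hmat n hn0
    have hrep := repulsion (n := n + 1) hδ0 (adm_extend n hδ1)
      (by rw [hS0]; exact hmpos _ (by omega)) (by rw [hS0, S_extend, hS1]; exact hn3)
    rw [S_extend, hS1] at hrep
    have hP := hK2 (n + 1) (by omega)
    have hL := hK1 (n + 1) (by omega)
    have hPpos : (0 : ℝ) < ((∏ p ∈ (Finset.Ioc ((n + 1) / 2) (n + 1)).filter Nat.Prime, p : ℕ) : ℝ) := by
      have : 0 < ∏ p ∈ (Finset.Ioc ((n + 1) / 2) (n + 1)).filter Nat.Prime, p :=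
        Finset.prod_pos fun p hp => (Finset.mem_filter.1 hp).2.pos
      exact_mod_cast this
    have hLpos : (0 : ℝ) < lcmUpto (n + 1) := by exact_mod_cast lcmUpto_pos _
    have hm0 := hmpos n hn0
    have hlog := Real.log_le_log hPpos hrep
    rw [Real.log_pow, Real.log_mul hLpos.ne' hm0.ne'] at hlog
    push_cast at hlog hP hL
    have hfin : -(7 / 8 + ε) * n ≤ Real.log (m n) := by
      have hb := hbig n hn1
      have hn0' : (0 : ℝ) ≤ n := Nat.cast_nonneg n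
      rw [hη] at hP hL
      nlinarith
    calc Real.exp (-(7 / 8 + ε) * n) ≤ Real.exp (Real.log (m n)) := Real.exp_le_exp.2 hfin
      _ = m n := Real.exp_log hm0
  · push Not at hcase
    set M := 8 * N / 7 with hM
    have hNM : N ≤ M := by omega
    have hconst : ∀ k, N ≤ k → k ≤ M → m N ≤ m k := by
      intro k hk1
      induction k, hk1 using Nat.le_induction with
      | base => intro _; exact le_rfl
      | succ k hk ih =>
        intro hk2
        exact (ih (by omega)).trans (hcase k hk (by omega))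
    refine ⟨M, hNM, by omega, fun δ hδ hne => ?_⟩
    refine le_trans ?_ (hmle M (by omega) δ hδ hne)
    refine le_trans ?_ (hconst M hNM le_rfl)
    refine le_trans ?_ (hmL N hN4)
    have hL := hK1 N hN1
    have hLpos : (0 : ℝ) < lcmUpto N := by exact_mod_cast lcmUpto_pos _
    rw [one_div, ← Real.exp_log hLpos, ← Real.exp_neg]
    apply Real.exp_le_exp.2
    have hMN : (8 * N - 6 : ℝ) ≤ 7 * M := by
      have : 8 * N ≤ 7 * M + 6 := by omega
      have h2 : (8 * N : ℝ) ≤ 7 * M + 6 := by exact_mod_cast this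
      linarith
    have hb := hbig N le_rfl
    rw [hη] at hL
    nlinarith

end Pool.Agent.Helper7.Signed
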