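import Mathlib

set_option autoImplicit false

open Finset

namespace Pool.Agent.Helper7.Dio

/-- Vanishing of one Gram entry forces equality. -/
lemma gram_ne_zero {a b R1 R2 P s1 t1 w1 s2 t2 w2 : ℤ}
    (hR1 : R1 ≠ 0) (hR2 : R2 ≠ 0) (hP : P ≠ 0)
    (hs1 : 0 < s1) (hs2 : 0 < s2)
    (h1 : b * s1 ^ 2 - a * t1 ^ 2 = R1) (h2 : b * s2 ^ 2 - a * t2 ^ 2 = R1)
    (g1 : P * s1 ^ 2 - R2 * t1 ^ 2 + R1 * w1 ^ 2 = 0)
    (g2 : P * s2 ^ 2 - R2 * t2 ^ 2 + R1 * w2 ^ 2 = 0) (hne : s1 ≠ s2) :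
    P * (s1 * s2) - R2 * (t1 * t2) + R1 * (w1 * w2) ≠ 0 := by
  intro h
  have e1 : P * R2 * (s1 * t2 - s2 * t1) ^ 2 = 0 := by
    have : P * R2 * (s1 * t2 - s2 * t1) ^ 2 =
        (P * (s1 * s2) - R2 * (t1 * t2)) ^ 2 -
          (P * s1 ^ 2 - R2 * t1 ^ 2) * (P * s2 ^ 2 - R2 * t2 ^ 2) := by ring
    rw [this]
    have e2 : P * (s1 * s2) - R2 * (t1 * t2) = - (R1 * (w1 * w2)) := by linarith
    have e3 : P * s1 ^ 2 - R2 * t1 ^ 2 = - (R1 * w1 ^ 2) := by linarith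
    have e4 : P * s2 ^ 2 - R2 * t2 ^ 2 = - (R1 * w2 ^ 2) := by linarith
    rw [e2, e3, e4]; ring
  have e5 : s1 * t2 - s2 * t1 = 0 := by
    rcases mul_eq_zero.1 e1 with h5 | h5
    · exact absurd h5 (mul_ne_zero hP hR2)
    · exact pow_eq_zero_iff (by norm_num) |>.1 h5
  have e6 : s1 * t2 = s2 * t1 := by linarith
  have e7 : R1 * (s2 ^ 2 - s1 ^ 2) = 0 := by
    have : R1 * (s2 ^ 2 - s1 ^ 2) = (b * s1 ^ 2 - a * t1 ^ 2) * s2 ^ 2 -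
        (b * s2 ^ 2 - a * t2 ^ 2) * s1 ^ 2 := by rw [h1, h2]; ring
    rw [this]
    have : (b * s1 ^ 2 - a * t1 ^ 2) * s2 ^ 2 - (b * s2 ^ 2 - a * t2 ^ 2) * s1 ^ 2 =
        a * ((s1 * t2) ^ 2 - (s2 * t1) ^ 2) := by ring
    rw [this, e6]; ring
  rcases mul_eq_zero.1 e7 with h8 | h8
  · exact hR1 h8
  · apply hne
    have : s1 ^ 2 = s2 ^ 2 := by linarith
    exact (pow_left_inj₀ hs1.le hs2.le (by norm_num)).1 this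

/-- The determinant of three distinct solutions does not vanish. -/
lemma det_ne_zero {a b c R1 R2 P s1 t1 w1 s2 t2 w2 s3 t3 w3 : ℤ}
    (ha : 0 < a) (hR1 : R1 ≠ 0) (hR2 : R2 ≠ 0) (hP : P ≠ 0)
    (haP : a * P = R2 * b - R1 * c)
    (hs1 : 0 < s1) (hs2 : 0 < s2) (hs3 : 0 < s3)
    (h1 : b * s1 ^ 2 - a * t1 ^ 2 = R1) (h2 : b * s2 ^ 2 - a * t2 ^ 2 = R1)
    (h3 : b * s3 ^ 2 - a * t3 ^ 2 = R1)
    (k1 : c * s1 ^ 2 - a * w1 ^ 2 = R2) (k2 : c * s2 ^ 2 - a * w2 ^ 2 = R2)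
    (k3 : c * s3 ^ 2 - a * w3 ^ 2 = R2)
    (h12 : s1 ≠ s2) (h13 : s1 ≠ s3) (h23 : s2 ≠ s3) :
    s1 * (t2 * w3 - t3 * w2) - t1 * (s2 * w3 - s3 * w2) + w1 * (s2 * t3 - s3 * t2) ≠ 0 := by
  have hg : ∀ s t w : ℤ, b * s ^ 2 - a * t ^ 2 = R1 → c * s ^ 2 - a * w ^ 2 = R2 →
      P * s ^ 2 - R2 * t ^ 2 + R1 * w ^ 2 = 0 := by
    intro s t w e1 e2
    have : a * (P * s ^ 2 - R2 * t ^ 2 + R1 * w ^ 2) = 0 := by
      have e3 : a * (P * s ^ 2 - R2 * t ^ 2 + R1 * w ^ 2) =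
        (a * P) * s ^ 2 - R2 * (a * t ^ 2) + R1 * (a * w ^ 2) := by ring
      rw [e3, haP, show a * t ^ 2 = b * s ^ 2 - R1 by linarith,
        show a * w ^ 2 = c * s ^ 2 - R2 by linarith]
      ring
    rcases mul_eq_zero.1 this with h | h
    · exact absurd h ha.ne'
    · exact h
  have g1 := hg s1 t1 w1 h1 k1
  have g2 := hg s2 t2 w2 h2 k2
  have g3 := hg s3 t3 w3 h3 k3
  have n12 := gram_ne_zero hR1 hR2 hP hs1 hs2 h1 h2 g1 g2 h12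
  have n13 := gram_ne_zero hR1 hR2 hP hs1 hs3 h1 h3 g1 g3 h13
  have n23 := gram_ne_zero hR1 hR2 hP hs2 hs3 h2 h3 g2 g3 h23
  intro hdet
  set G11 := P * s1 ^ 2 - R2 * t1 ^ 2 + R1 * w1 ^ 2 with hG11
  set G22 := P * s2 ^ 2 - R2 * t2 ^ 2 + R1 * w2 ^ 2 with hG22
  set G33 := P * s3 ^ 2 - R2 * t3 ^ 2 + R1 * w3 ^ 2 with hG33
  set G12 := P * (s1 * s2) - R2 * (t1 * t2) + R1 * (w1 * w2) with hG12
  set G13 := P * (s1 * s3) - R2 * (t1 * t3) + R1 * (w1 * w3) with hG13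
  set G23 := P * (s2 * s3) - R2 * (t2 * t3) + R1 * (w2 * w3) with hG23
  have key : (s1 * (t2 * w3 - t3 * w2) - t1 * (s2 * w3 - s3 * w2) +
      w1 * (s2 * t3 - s3 * t2)) ^ 2 * (P * (-R2) * R1) =
      G11 * G22 * G33 + 2 * (G12 * G13 * G23) - G11 * G23 ^ 2 - G22 * G13 ^ 2 - G33 * G12 ^ 2 := by
    rw [hG11, hG22, hG33, hG12, hG13, hG23]; ring
  rw [hdet, g1, g2, g3] at key
  have : G12 * G13 * G23 = 0 := by linarith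
  rcases mul_eq_zero.1 this with h | h
  · rcases mul_eq_zero.1 h with h | h
    · exact n12 h
    · exact n13 h
  · exact n23 h

/-- Cross terms are bounded. -/
lemma cross_bound {a b R s1 t1 s2 t2 ρ : ℤ} (ha : 0 < a) (hb : 0 < b)
    (hs1 : 0 < s1) (hs2 : 0 < s2) (ht1 : 0 ≤ t1) (ht2 : 0 ≤ t2)
    (h1 : b * s1 ^ 2 - a * t1 ^ 2 = R) (h2 : b * s2 ^ 2 - a * t2 ^ 2 = R)
    (hR2 : 2 * |R| ≤ s2 ^ 2)
    (h12 : s1 ≤ ρ * s2) (h21 : s2 ≤ ρ * s1) :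
    |s1 * t2 - s2 * t1| ≤ 2 * |R| * ρ := by
  have e1 : (s1 * t2 - s2 * t1) * (a * (s1 * t2 + s2 * t1)) = R * (s2 ^ 2 - s1 ^ 2) := by
    have : (s1 * t2 - s2 * t1) * (a * (s1 * t2 + s2 * t1)) =
      s1 ^ 2 * (a * t2 ^ 2) - s2 ^ 2 * (a * t1 ^ 2) := by ring
    rw [this, show a * t2 ^ 2 = b * s2 ^ 2 - R by linarith,
      show a * t1 ^ 2 = b * s1 ^ 2 - R by linarith]
    ring
  -- s2 ≤ 2 a t2
  have e2 : s2 ≤ 2 * a * t2 := by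
    have hRle : R ≤ |R| := le_abs_self R
    have h3 : s2 ^ 2 ≤ 2 * (a * t2 ^ 2) := by nlinarith
    have h4 : s2 ^ 2 ≤ (2 * a * t2) ^ 2 := by
      have h5 : 2 * (a * t2 ^ 2) ≤ (2 * a * t2) ^ 2 := by
        have h6 : 0 ≤ t2 ^ 2 := sq_nonneg _
        have h7 : (2 * a * t2) ^ 2 = 4 * a ^ 2 * t2 ^ 2 := by ring
        rw [h7]
        have h8 : 2 * a ≤ 4 * a ^ 2 := by nlinarith
        nlinarith
      exact h3.trans h5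
    exact (pow_le_pow_iff_left₀ hs2.le (by positivity) (by norm_num)).1 h4
  have e3 : s1 * s2 ≤ 2 * (a * (s1 * t2 + s2 * t1)) := by
    have : 0 ≤ a * (s2 * t1) := by positivity
    nlinarith
  have e4 : |s2 ^ 2 - s1 ^ 2| ≤ ρ * (s1 * s2) := by
    rw [abs_le]
    constructor
    · nlinarith
    · nlinarith
  have e5 : |s1 * t2 - s2 * t1| * (a * (s1 * t2 + s2 * t1)) = |R| * |s2 ^ 2 - s1 ^ 2| := by
    rw [← abs_mul, ← e1, abs_mul]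
    congr 1
    rw [abs_of_nonneg]
    positivity
  have hs12 : 0 < s1 * s2 := by positivity
  have e6 : |s1 * t2 - s2 * t1| * (s1 * s2) ≤ (2 * |R| * ρ) * (s1 * s2) := by
    calc |s1 * t2 - s2 * t1| * (s1 * s2)
        ≤ |s1 * t2 - s2 * t1| * (2 * (a * (s1 * t2 + s2 * t1))) := by gcongr
      _ = 2 * (|s1 * t2 - s2 * t1| * (a * (s1 * t2 + s2 * t1))) := by ring
      _ = 2 * (|R| * |s2 ^ 2 - s1 ^ 2|) := by rw [e5]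
      _ ≤ 2 * (|R| * (ρ * (s1 * s2))) := by gcongr
      _ = (2 * |R| * ρ) * (s1 * s2) := by ring
  exact le_of_mul_le_mul_right e6 hs12

/-- No three solutions in a bounded window. -/
lemma no_three {a b c R1 R2 P ρ s1 t1 w1 s2 t2 w2 s3 t3 w3 : ℤ}
    (ha : 0 < a) (hb : 0 < b) (hc : 0 < c) (hR1 : R1 ≠ 0) (hR2 : R2 ≠ 0) (hP : P ≠ 0)
    (haP : a * P = R2 * b - R1 * c)
    (hs1 : 0 < s1) (hs2 : 0 < s2) (hs3 : 0 < s3)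
    (ht1 : 0 ≤ t1) (ht2 : 0 ≤ t2) (ht3 : 0 ≤ t3)
    (hw1 : 0 ≤ w1) (hw2 : 0 ≤ w2) (hw3 : 0 ≤ w3)
    (h1 : b * s1 ^ 2 - a * t1 ^ 2 = R1) (h2 : b * s2 ^ 2 - a * t2 ^ 2 = R1)
    (h3 : b * s3 ^ 2 - a * t3 ^ 2 = R1)
    (k1 : c * s1 ^ 2 - a * w1 ^ 2 = R2) (k2 : c * s2 ^ 2 - a * w2 ^ 2 = R2)
    (k3 : c * s3 ^ 2 - a * w3 ^ 2 = R2)
    (h12 : s1 ≠ s2) (h13 : s1 ≠ s3) (h23 : s2 ≠ s3)
    (r12 : s1 ≤ ρ * s2) (r21 : s2 ≤ ρ * s1) (r13 : s1 ≤ ρ * s3) (r31 : s3 ≤ ρ * s1)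
    (b2 : 2 * |R1| ≤ s2 ^ 2) (b3 : 2 * |R1| ≤ s3 ^ 2)
    (d2 : 2 * |R2| ≤ s2 ^ 2) (d3 : 2 * |R2| ≤ s3 ^ 2)
    (hbig : 8 * |R1| * |R2| * ρ ^ 2 < s1) : False := by
  have hdet := det_ne_zero ha hR1 hR2 hP haP hs1 hs2 hs3 h1 h2 h3 k1 k2 k3 h12 h13 h23
  set D := s1 * (t2 * w3 - t3 * w2) - t1 * (s2 * w3 - s3 * w2) + w1 * (s2 * t3 - s3 * t2) with hD
  have e1 : s1 * D = (s1 * t2 - s2 * t1) * (s1 * w3 - s3 * w1) -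
      (s1 * t3 - s3 * t1) * (s1 * w2 - s2 * w1) := by rw [hD]; ring
  have c1 := cross_bound ha hb hs1 hs2 ht1 ht2 h1 h2 b2 r12 r21
  have c2 := cross_bound ha hb hs1 hs3 ht1 ht3 h1 h3 b3 r13 r31
  have c3 := cross_bound ha hc hs1 hs2 hw1 hw2 k1 k2 d2 r12 r21
  have c4 := cross_bound ha hc hs1 hs3 hw1 hw3 k1 k3 d3 r13 r31
  have hD1 : 1 ≤ |D| := Int.one_le_abs hdet
  have e2 : s1 ≤ |s1 * D| := by
    rw [abs_mul, abs_of_pos hs1]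
    nlinarith
  have hρ : 0 ≤ ρ := by
    by_contra h
    push Not at h
    nlinarith
  have e3 : |s1 * D| ≤ (2 * |R1| * ρ) * (2 * |R2| * ρ) + (2 * |R1| * ρ) * (2 * |R2| * ρ) := by
    rw [e1]
    calc |(s1 * t2 - s2 * t1) * (s1 * w3 - s3 * w1) -
          (s1 * t3 - s3 * t1) * (s1 * w2 - s2 * w1)|
        ≤ |(s1 * t2 - s2 * t1) * (s1 * w3 - s3 * w1)| +
          |(s1 * t3 - s3 * t1) * (s1 * w2 - s2 * w1)| := abs_sub _ _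
      _ = |s1 * t2 - s2 * t1| * |s1 * w3 - s3 * w1| +
          |s1 * t3 - s3 * t1| * |s1 * w2 - s2 * w1| := by rw [abs_mul, abs_mul]
      _ ≤ _ := by gcongr
  have e4 : (2 * |R1| * ρ) * (2 * |R2| * ρ) + (2 * |R1| * ρ) * (2 * |R2| * ρ) =
      8 * |R1| * |R2| * ρ ^ 2 := by ring
  rw [e4] at e3
  linarith

end Pool.Agent.Helper7.Dio
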