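import Mathlib
import Pool.Agent.Helper7.DioGap

set_option autoImplicit false

open Finset

namespace Pool.Agent.Helper7.Dio

/-- A unit `p + q √(ab)` with `p ≡ 1`, `q ≡ 0` modulo `K`. -/
lemma exists_unit {d K : ℤ} (hd : 0 < d) (hsq : ¬ IsSquare d) (hK : 0 < K) :
    ∃ p q : ℤ, 0 < p ∧ 0 < q ∧ p ^ 2 - d * q ^ 2 = 1 ∧ K ∣ p - 1 ∧ K ∣ q := by
  have hd' : 0 < d * K ^ 2 := by positivity
  have hsq' : ¬ IsSquare (d * K ^ 2) := by
    rintro ⟨r, hr⟩
    have h1 : K ^ 2 ∣ r ^ 2 := ⟨d, by rw [sq r, ← hr]; ring⟩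
    have h2 : K ∣ r := (Int.pow_dvd_pow_iff (by norm_num)).1 h1
    obtain ⟨r', rfl⟩ := h2
    apply hsq
    refine ⟨r', ?_⟩
    have hK2 : K ^ 2 ≠ 0 := by positivity
    apply mul_right_cancel₀ hK2
    rw [hr]; ring
  obtain ⟨x, y, hxy, hy⟩ := Pell.exists_of_not_isSquare hd' hsq'
  have hx : x ≠ 0 := by
    rintro rfl
    have : 0 < d * K ^ 2 * y ^ 2 := by positivity
    nlinarith
  refine ⟨x ^ 2 + d * (K * y) ^ 2, 2 * (|x| * (K * |y|)), ?_, ?_, ?_, ?_, ?_⟩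
  · positivity
  · have := abs_pos.2 hx
    have := abs_pos.2 hy
    positivity
  · have hx2 : |x| ^ 2 = x ^ 2 := sq_abs x
    have hy2 : |y| ^ 2 = y ^ 2 := sq_abs y
    have e1 : (2 * (|x| * (K * |y|))) ^ 2 = 4 * (x ^ 2 * (K ^ 2 * y ^ 2)) := by
      rw [← hx2, ← hy2]; ring
    rw [e1]
    have e2 : (x ^ 2 + d * (K * y) ^ 2) ^ 2 - d * (4 * (x ^ 2 * (K ^ 2 * y ^ 2))) =
      (x ^ 2 - d * K ^ 2 * y ^ 2) ^ 2 := by ring
    rw [e2, hxy]; norm_num
  · have e : x ^ 2 + d * (K * y) ^ 2 - 1 = K * (2 * d * K * y ^ 2) := by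
      have : x ^ 2 = 1 + d * K ^ 2 * y ^ 2 := by linarith
      rw [this]; ring
    exact ⟨_, e⟩
  · exact ⟨2 * (|x| * |y|), by ring⟩

/-- The Pell orbit. -/
def orb (a b p q α β : ℤ) : ℕ → ℤ × ℤ
  | 0 => (α, β)
  | k + 1 => (p * (orb a b p q α β k).1 + a * q * (orb a b p q α β k).2,
      b * q * (orb a b p q α β k).1 + p * (orb a b p q α β k).2)

section orbit
variable {a b p q α β K : ℤ}

lemma orb_pos (ha : 0 < a) (hb : 0 < b) (hp : 0 < p) (hq : 0 < q) (hα : 0 < α) (hβ : 0 < β)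
    (k : ℕ) : 0 < (orb a b p q α β k).1 ∧ 0 < (orb a b p q α β k).2 := by
  induction k with
  | zero => exact ⟨hα, hβ⟩
  | succ k ih =>
    obtain ⟨h1, h2⟩ := ih
    constructor
    · simp only [orb]; positivity
    · simp only [orb]; positivity

lemma orb_norm (hpq : p ^ 2 - a * b * q ^ 2 = 1) (k : ℕ) :
    b * (orb a b p q α β k).1 ^ 2 - a * (orb a b p q α β k).2 ^ 2 = b * α ^ 2 - a * β ^ 2 := by
  induction k with
  | zero => rfl
  | succ k ih =>
    simp only [orb]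
    rw [← ih]
    have : b * (p * (orb a b p q α β k).1 + a * q * (orb a b p q α β k).2) ^ 2 -
        a * (b * q * (orb a b p q α β k).1 + p * (orb a b p q α β k).2) ^ 2 =
        (p ^ 2 - a * b * q ^ 2) *
          (b * (orb a b p q α β k).1 ^ 2 - a * (orb a b p q α β k).2 ^ 2) := by ring
    rw [this, hpq, one_mul]

lemma orb_mod (hp : K ∣ p - 1) (hq : K ∣ q) (k : ℕ) :
    K ∣ (orb a b p q α β k).1 - α ∧ K ∣ (orb a b p q α β k).2 - β := by
  induction k with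
  | zero => simp [orb]
  | succ k ih =>
    obtain ⟨h1, h2⟩ := ih
    constructor
    · simp only [orb]
      have : p * (orb a b p q α β k).1 + a * q * (orb a b p q α β k).2 - α =
        (p - 1) * (orb a b p q α β k).1 + q * (a * (orb a b p q α β k).2) +
          ((orb a b p q α β k).1 - α) := by ring
      rw [this]
      exact dvd_add (dvd_add (Dvd.dvd.mul_right hp _) (Dvd.dvd.mul_right hq _)) h1
    · simp only [orb]
      have : b * q * (orb a b p q α β k).1 + p * (orb a b p q α β k).2 - β =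
        (p - 1) * (orb a b p q α β k).2 + q * (b * (orb a b p q α β k).1) +
          ((orb a b p q α β k).2 - β) := by ring
      rw [this]
      exact dvd_add (dvd_add (Dvd.dvd.mul_right hp _) (Dvd.dvd.mul_right hq _)) h2

lemma orb_strict (ha : 0 < a) (hb : 0 < b) (hp : 0 < p) (hq : 0 < q) (hα : 0 < α) (hβ : 0 < β) :
    StrictMono (fun k => (orb a b p q α β k).1) := by
  refine strictMono_nat_of_lt_succ fun k => ?_
  obtain ⟨h1, h2⟩ := orb_pos ha hb hp hq hα hβ k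
  simp only [orb]
  have : 0 < a * q * (orb a b p q α β k).2 := by positivity
  nlinarith

lemma orb_ge (ha : 0 < a) (hb : 0 < b) (hp : 0 < p) (hq : 0 < q) (hα : 0 < α) (hβ : 0 < β)
    (k : ℕ) : (k : ℤ) < (orb a b p q α β k).1 := by
  induction k with
  | zero => simpa [orb] using hα
  | succ k ih =>
    have := orb_strict ha hb hp hq hα hβ (Nat.lt_add_one k)
    simp only at this
    push_cast
    omega

lemma orb_ratio (ha : 0 < a) (hb : 0 < b) (hp : 0 < p) (hq : 0 < q) (hα : 0 < α) (hβ : 0 < β)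
    (hpq : p ^ 2 - a * b * q ^ 2 = 1) (k : ℕ) :
    (orb a b p q α β (k + 1)).1 ≤
      (p + a * q * (b + |b * α ^ 2 - a * β ^ 2|)) * (orb a b p q α β k).1 := by
  obtain ⟨h1, h2⟩ := orb_pos ha hb hp hq hα hβ k
  have hn := orb_norm (α := α) (β := β) hpq k
  set R := b * α ^ 2 - a * β ^ 2 with hR
  set s := (orb a b p q α β k).1 with hs
  set t := (orb a b p q α β k).2 with ht
  have hR' : -|R| ≤ R := neg_abs_le R
  have hR0 : 0 ≤ |R| := abs_nonneg R
  have e1 : t ^ 2 ≤ ((b + |R|) * s) ^ 2 := by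
    have h3 : a * t ^ 2 ≤ (b + |R|) * s ^ 2 := by
      have : 1 ≤ s ^ 2 := by nlinarith
      nlinarith
    have h4 : t ^ 2 ≤ a * t ^ 2 := by nlinarith [sq_nonneg t]
    have h5 : (b + |R|) * s ^ 2 ≤ ((b + |R|) * s) ^ 2 := by
      have : 1 ≤ b + |R| := by omega
      have h6 : 0 ≤ s ^ 2 := sq_nonneg s
      nlinarith
    linarith
  have e2 : t ≤ (b + |R|) * s :=
    (pow_le_pow_iff_left₀ h2.le (by positivity) (by norm_num)).1 e1
  simp only [orb]
  rw [← hs, ← ht]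
  have : 0 < a * q := by positivity
  nlinarith

lemma orb_ratio_pow (ha : 0 < a) (hb : 0 < b) (hp : 0 < p) (hq : 0 < q) (hα : 0 < α) (hβ : 0 < β)
    (hpq : p ^ 2 - a * b * q ^ 2 = 1) (k j : ℕ) :
    (orb a b p q α β (k + j)).1 ≤
      (p + a * q * (b + |b * α ^ 2 - a * β ^ 2|)) ^ j * (orb a b p q α β k).1 := by
  induction j with
  | zero => simp
  | succ j ih =>
    have h1 := orb_ratio ha hb hp hq hα hβ hpq (k + j)
    set ρ := (p + a * q * (b + |b * α ^ 2 - a * β ^ 2|)) with hρ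
    have hρ0 : 0 ≤ ρ := by positivity
    calc (orb a b p q α β (k + (j + 1))).1 ≤ ρ * (orb a b p q α β (k + j)).1 := h1
      _ ≤ ρ * (ρ ^ j * (orb a b p q α β k).1) := by gcongr
      _ = ρ ^ (j + 1) * (orb a b p q α β k).1 := by ring

end orbit

/-- Avoidance theorem: inside a Pell family one can avoid finitely many further squares. -/
theorem avoid {a b α β : ℤ} (ha : 0 < a) (hb : 0 < b) (hα : 0 < α) (hβ : 0 < β)
    (hab : ¬ IsSquare (a * b)) (hne : b * α ^ 2 - a * β ^ 2 ≠ 0)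
    (C : Finset (ℤ × ℤ))
    (hC : ∀ ce ∈ C, 0 < ce.1 ∧ ce.1 * α ^ 2 - ce.2 * a ≠ 0 ∧ ce.1 * β ^ 2 - ce.2 * b ≠ 0)
    {M : ℤ} (hM : 0 < M) (X : ℤ) :
    ∃ x s t : ℤ, X < x ∧ M ∣ x ∧ a * x + α ^ 2 = s ^ 2 ∧ b * x + β ^ 2 = t ^ 2 ∧
      M ∣ s - α ∧ M ∣ t - β ∧ 0 < s ∧ 0 < t ∧
      ∀ ce ∈ C, ¬ IsSquare (ce.1 * x + ce.2) := by
  classical
  obtain ⟨p, q, hp, hq, hpq, hp1, hq1⟩ := exists_unit (d := a * b) (K := a * M)
    (by positivity) hab (by positivity)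
  set o := orb a b p q α β with ho
  have hpos := orb_pos (α := α) (β := β) ha hb hp hq hα hβ
  have hmod := orb_mod (a := a) (b := b) (α := α) (β := β) hp1 hq1
  have hnorm := orb_norm (a := a) (b := b) (α := α) (β := β) hpq
  set R1 := b * α ^ 2 - a * β ^ 2 with hR1
  -- the value x
  have hx : ∀ k, ∃ x : ℤ, a * x = (o k).1 ^ 2 - α ^ 2 ∧ M ∣ x := by
    intro k
    obtain ⟨c, hc⟩ := (hmod k).1
    refine ⟨M * c * ((o k).1 + α), ?_, ?_⟩
    · have : (o k).1 ^ 2 - α ^ 2 = ((o k).1 - α) * ((o k).1 + α) := by ring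
      rw [this, hc]; ring
    · exact Dvd.dvd.mul_right (Dvd.intro _ rfl) _
  choose x hxa hxM using hx
  have hxb : ∀ k, b * x k + β ^ 2 = (o k).2 ^ 2 := by
    intro k
    have h1 := hnorm k
    have h2 : a * (b * x k + β ^ 2) = a * (o k).2 ^ 2 := by
      have : a * (b * x k + β ^ 2) = b * (a * x k) + a * β ^ 2 := by ring
      rw [this, hxa]
      have h3 : a * (o k).2 ^ 2 = b * (o k).1 ^ 2 - R1 := by linarith
      rw [h3, hR1]; ring
    exact mul_left_cancel₀ ha.ne' h2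
  set ρ0 := (p + a * q * (b + |R1|)) with hρ0
  set W := 2 * C.card with hW
  set ρ := ρ0 ^ W with hρ
  have hρ01 : 1 ≤ ρ0 := by
    have : 0 < a * q * (b + |R1|) := by positivity
    omega
  -- a large starting index
  obtain ⟨B, hB⟩ : ∃ B : ℤ, 0 ≤ B ∧ X + α ^ 2 ≤ B ∧ 2 * |R1| ≤ B ∧
      ∀ ce ∈ C, 2 * |ce.1 * α ^ 2 - ce.2 * a| ≤ B ∧
        8 * |R1| * |ce.1 * α ^ 2 - ce.2 * a| * ρ ^ 2 ≤ B := by
    refine ⟨|X| + α ^ 2 + 2 * |R1| + ∑ ce ∈ C, (2 * |ce.1 * α ^ 2 - ce.2 * a| +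
        8 * |R1| * |ce.1 * α ^ 2 - ce.2 * a| * ρ ^ 2), ?_, ?_, ?_, ?_⟩
    · positivity
    · have h1 := le_abs_self X
      have h2 : 0 ≤ ∑ ce ∈ C, (2 * |ce.1 * α ^ 2 - ce.2 * a| +
        8 * |R1| * |ce.1 * α ^ 2 - ce.2 * a| * ρ ^ 2) := by positivity
      have h3 : 0 ≤ |R1| := abs_nonneg _
      linarith
    · have h2 : 0 ≤ ∑ ce ∈ C, (2 * |ce.1 * α ^ 2 - ce.2 * a| +
        8 * |R1| * |ce.1 * α ^ 2 - ce.2 * a| * ρ ^ 2) := by positivity
      have h3 : 0 ≤ |X| := abs_nonneg _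
      have h4 : 0 ≤ α ^ 2 := sq_nonneg _
      linarith
    · intro ce hce
      have h2 : (2 * |ce.1 * α ^ 2 - ce.2 * a| + 8 * |R1| * |ce.1 * α ^ 2 - ce.2 * a| * ρ ^ 2) ≤
          ∑ ce ∈ C, (2 * |ce.1 * α ^ 2 - ce.2 * a| +
            8 * |R1| * |ce.1 * α ^ 2 - ce.2 * a| * ρ ^ 2) :=
        Finset.single_le_sum (f := fun ce : ℤ × ℤ => (2 * |ce.1 * α ^ 2 - ce.2 * a| +
            8 * |R1| * |ce.1 * α ^ 2 - ce.2 * a| * ρ ^ 2)) (fun i _ => by positivity) hce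
      have h3 : 0 ≤ |X| := abs_nonneg _
      have h4 : 0 ≤ α ^ 2 := sq_nonneg _
      have h5 : 0 ≤ |R1| := abs_nonneg _
      have h6 : 0 ≤ 2 * |ce.1 * α ^ 2 - ce.2 * a| := by positivity
      have h7 : 0 ≤ 8 * |R1| * |ce.1 * α ^ 2 - ce.2 * a| * ρ ^ 2 := by positivity
      constructor <;> linarith
  obtain ⟨hB0, hBX, hBR, hBC⟩ := hB
  obtain ⟨N, hN⟩ : ∃ N : ℕ, B + a ≤ N := ⟨(B + a).toNat, Int.self_le_toNat _⟩
  have hlarge : ∀ k, N ≤ k → B + a < (o k).1 := by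
    intro k hk
    have h1 := orb_ge (α := α) (β := β) ha hb hp hq hα hβ k
    have h2 : (N : ℤ) ≤ k := by exact_mod_cast hk
    linarith
  have hlargeB : ∀ k, N ≤ k → B < (o k).1 ^ 2 := by
    intro k hk
    have h1 := hlarge k hk
    nlinarith
  have hwin : ∀ i j, N ≤ i → i ≤ N + W → N ≤ j → j ≤ N + W → (o j).1 ≤ ρ * (o i).1 := by
    intro i j hi1 hi2 hj1 hj2
    have h1 : (o j).1 ≤ (o (N + W)).1 :=
      (orb_strict (α := α) (β := β) ha hb hp hq hα hβ).monotone hj2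
    have h2 : (o N).1 ≤ (o i).1 :=
      (orb_strict (α := α) (β := β) ha hb hp hq hα hβ).monotone hi1
    have h3 := orb_ratio_pow (α := α) (β := β) ha hb hp hq hα hβ hpq N W
    have h4 : 0 ≤ ρ := by positivity
    calc (o j).1 ≤ (o (N + W)).1 := h1
      _ ≤ ρ * (o N).1 := h3
      _ ≤ ρ * (o i).1 := by gcongr
  -- suppose every index of the window is bad
  by_contra hcon
  push Not at hcon
  have hbad : ∀ k ∈ Finset.Icc N (N + W), ∃ ce ∈ C, IsSquare (ce.1 * x k + ce.2) := by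
    intro k hk
    have hk' := Finset.mem_Icc.1 hk
    have hXx : X < x k := by
      have h1 := hlarge k hk'.1
      have h2 : a * X < a * x k := by
        rw [hxa]
        have h3 : (o k).1 * (B + a) < (o k).1 ^ 2 := by
          have := (hpos k).1
          nlinarith
        have h4 : (B + a) * (B + a) ≤ (o k).1 * (B + a) := by
          have : 0 < B + a := by omega
          nlinarith
        nlinarith [sq_nonneg (B + a - a), sq_nonneg α]
      exact lt_of_mul_lt_mul_left h2 ha.le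
    have hMa : M ∣ (o k).1 - α := dvd_trans (Dvd.intro_left _ rfl) (hmod k).1
    have hMb : M ∣ (o k).2 - β := dvd_trans (Dvd.intro_left _ rfl) (hmod k).2
    exact hcon (x k) (o k).1 (o k).2 hXx (hxM k) (by rw [hxa]; ring) (hxb k) hMa hMb
      (hpos k).1 (hpos k).2
  choose! g hgC hgsq using hbad
  have hcard : C.card * 2 < (Finset.Icc N (N + W)).card := by
    rw [Nat.card_Icc]; omega
  obtain ⟨ce, hce, hfib⟩ := Finset.exists_lt_card_fiber_of_mul_lt_card_of_maps_to hgC hcard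
  obtain ⟨i, hi, j, hj, l, hl, hij, hil, hjl⟩ := Finset.two_lt_card.1 hfib
  have hspec : ∀ k ∈ (Finset.Icc N (N + W)).filter (fun k => g k = ce),
      N ≤ k ∧ k ≤ N + W ∧ ∃ w : ℤ, 0 ≤ w ∧
        ce.1 * (o k).1 ^ 2 - a * w ^ 2 = ce.1 * α ^ 2 - ce.2 * a := by
    intro k hk
    obtain ⟨hk1, hk2⟩ := Finset.mem_filter.1 hk
    have hk' := Finset.mem_Icc.1 hk1
    refine ⟨hk'.1, hk'.2, ?_⟩
    obtain ⟨w, hw⟩ := hgsq k hk1
    rw [hk2] at hw
    refine ⟨|w|, abs_nonneg w, ?_⟩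
    rw [sq_abs, sq w, ← hw]
    have : a * (ce.1 * x k + ce.2) = ce.1 * (a * x k) + a * ce.2 := by ring
    rw [this, hxa]; ring
  obtain ⟨i1, i2, wi, hwi0, hwi⟩ := hspec i hi
  obtain ⟨j1, j2, wj, hwj0, hwj⟩ := hspec j hj
  obtain ⟨l1, l2, wl, hwl0, hwl⟩ := hspec l hl
  obtain ⟨hc0, hcR2, hcP⟩ := hC ce hce
  have hinj := (orb_strict (α := α) (β := β) ha hb hp hq hα hβ).injective
  obtain ⟨hB1, hB2⟩ := hBC ce hce
  refine no_three (P := ce.1 * β ^ 2 - ce.2 * b) (ρ := ρ) ha hb hc0 hne hcR2 hcP ?_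
    (hpos i).1 (hpos j).1 (hpos l).1 (hpos i).2.le (hpos j).2.le (hpos l).2.le
    hwi0 hwj0 hwl0 (hnorm i) (hnorm j) (hnorm l) hwi hwj hwl
    (fun h => hij (hinj h)) (fun h => hil (hinj h)) (fun h => hjl (hinj h))
    (hwin j i j1 j2 i1 i2) (hwin i j i1 i2 j1 j2) (hwin l i l1 l2 i1 i2) (hwin i l i1 i2 l1 l2)
    ?_ ?_ ?_ ?_ ?_
  · rw [hR1]; ring
  · have := hlargeB j j1; linarith
  · have := hlargeB l l1; linarith
  · have := hlargeB j j1; linarith
  · have := hlargeB l l1; linarith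
  · have := hlarge i i1; linarith

end Pool.Agent.Helper7.Dio
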