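import Mathlib
import Pool.Agent.Helper7.DioAvoid

set_option autoImplicit false

open Finset

namespace Pool.Agent.Helper7.Dio

/-- Being a nonsquare is a congruence condition. -/
lemma nonsq_mod {N : ℤ} (hN : 0 < N) (hsq : ¬ IsSquare N) :
    ∃ m : ℤ, 0 < m ∧ ∀ N' : ℤ, m ∣ N' - N → ¬ IsSquare N' := by
  obtain ⟨n, rfl⟩ := Int.eq_ofNat_of_zero_le hN.le
  have hn0 : 0 < n := by exact_mod_cast hN
  obtain ⟨a, b, hab, hsf⟩ := Nat.sq_mul_squarefree n
  have hb0 : b ≠ 0 := by
    rintro rfl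
    simp at hab
    omega
  have ha1 : a ≠ 1 := by
    rintro rfl
    apply hsq
    refine ⟨(b : ℤ), ?_⟩
    rw [← hab]; push_cast; ring
  obtain ⟨p, hp, hpa⟩ := Nat.exists_prime_and_dvd ha1
  refine ⟨(p : ℤ) * n, by have := hp.pos; positivity, ?_⟩
  rintro N' ⟨j, hj⟩ ⟨r, hr⟩
  have h1 : N' = (b : ℤ) ^ 2 * (a * (1 + p * j)) := by
    have h2 : N' = (n : ℤ) * (1 + p * j) := by linear_combination hj
    rw [h2, ← hab]; push_cast; ring
  have h3 : (b : ℤ) ^ 2 ∣ r ^ 2 := ⟨_, by rw [sq r, ← hr, h1]⟩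
  have h4 : (b : ℤ) ∣ r := (Int.pow_dvd_pow_iff (by norm_num)).1 h3
  obtain ⟨r', rfl⟩ := h4
  have hb2 : (b : ℤ) ^ 2 ≠ 0 := by positivity
  have h5 : (a : ℤ) * (1 + p * j) = r' ^ 2 := by
    apply mul_left_cancel₀ hb2
    rw [← h1, hr]; ring
  have hpz : Prime (p : ℤ) := Nat.prime_iff_prime_int.1 hp
  have hpaz : (p : ℤ) ∣ a := by exact_mod_cast hpa
  have h6 : (p : ℤ) ∣ r' := by
    apply hpz.dvd_of_dvd_pow (n := 2)
    rw [← h5]
    exact Dvd.dvd.mul_right hpaz _
  obtain ⟨r'', rfl⟩ := h6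
  obtain ⟨a', ha'⟩ := hpaz
  have hp0 : (p : ℤ) ≠ 0 := hpz.ne_zero
  have h7 : a' * (1 + p * j) = p * r'' ^ 2 := by
    apply mul_left_cancel₀ hp0
    have : (p : ℤ) * (a' * (1 + p * j)) = (p * a') * (1 + p * j) := by ring
    rw [this, ← ha', h5]; ring
  have h8 : (p : ℤ) ∣ a' := by
    have h9 : a' = p * (r'' ^ 2 - a' * j) := by linear_combination h7
    exact ⟨_, h9⟩
  have h10 : (p : ℤ) * p ∣ a := by
    rw [ha']; exact mul_dvd_mul_left _ h8
  have h11 : p * p ∣ a := by exact_mod_cast h10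
  have := hsf p h11
  exact hp.one_lt.ne' (Nat.isUnit_iff.1 this)

/-- Simultaneous version for finitely many nonsquares. -/
lemma nonsq_mod_finset {ι : Type*} (s : Finset ι) (N : ι → ℤ) (hN : ∀ i ∈ s, 0 < N i)
    (hsq : ∀ i ∈ s, ¬ IsSquare (N i)) :
    ∃ m : ℤ, 0 < m ∧ ∀ i ∈ s, ∀ N' : ℤ, m ∣ N' - N i → ¬ IsSquare N' := by
  classical
  induction s using Finset.induction_on with
  | empty => exact ⟨1, one_pos, by simp⟩
  | insert i s hi ih =>
    obtain ⟨m1, hm1, h1⟩ := ih (fun j hj => hN j (mem_insert_of_mem hj))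
      (fun j hj => hsq j (mem_insert_of_mem hj))
    obtain ⟨m2, hm2, h2⟩ := nonsq_mod (hN i (mem_insert_self _ _)) (hsq i (mem_insert_self _ _))
    refine ⟨m1 * m2, by positivity, ?_⟩
    intro j hj N' hN'
    rcases Finset.mem_insert.1 hj with rfl | hj
    · exact h2 N' (dvd_trans (Dvd.intro_left _ rfl) hN')
    · exact h1 j hj N' (dvd_trans (Dvd.intro _ rfl) hN')

variable {V : Type*}

/-- Invariants of a partial labelling: `S` labelled vertices, `R ⊆ S` the ones which may still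
get further neighbours. -/
structure State (G : SimpleGraph V) (S R : Finset V) (f : V → ℤ) : Prop where
  hR : R ⊆ S
  big : ∀ u ∈ S, 48 < f u
  ne : ∀ u ∈ S, ∀ v ∈ S, u ≠ v → f u ≠ f v
  adj : ∀ u ∈ S, ∀ v ∈ S, u ≠ v → (G.Adj u v ↔ IsSquare (f u * f v + 1))
  tw : ∀ v ∈ S, ¬ IsSquare (12 * f v + 1)
  m8 : ∀ u ∈ R, 8 ∣ f u
  pr : ∀ u ∈ R, ∀ v ∈ R, u ≠ v → ¬ IsSquare (f u * f v)
  d8 : ∀ u ∈ R, ¬ IsSquare (8 * f u)
  d24 : ∀ u ∈ R, ¬ IsSquare (24 * f u)
  i3 : ∀ u ∈ R, ∀ v ∈ S, u ≠ v → ¬ IsSquare ((f u + 4) * f v + 4) ∧ ¬ IsSquare ((f u - 4) * f v + 4)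
  i4 : ∀ u ∈ R, ∀ v ∈ S, f u ≠ 4 * f v
  i6 : ∀ u ∈ R, ¬ IsSquare (3 * f u + 13) ∧ ¬ IsSquare (3 * f u - 11)

lemma State.forget {G : SimpleGraph V} {S R : Finset V} {f : V → ℤ} (h : State G S R f) :
    State G S ∅ f where
  hR := by simp
  big := h.big
  ne := h.ne
  adj := h.adj
  tw := h.tw
  m8 := by simp
  pr := by simp
  d8 := by simp
  d24 := by simp
  i3 := by simp
  i4 := by simp
  i6 := by simp

section
variable [DecidableEq V]

/-- All conditions to be avoided when a new regular label is chosen. -/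
def conds (S R B : Finset V) (f : V → ℤ) : Finset (ℤ × ℤ) :=
  (S \ B).image (fun u => (f u, 1)) ∪ R.image (fun u => (f u, 0)) ∪ {(8, 0), (24, 0)} ∪
    S.image (fun u => (f u, 4 * f u + 4)) ∪ S.image (fun u => (f u, 4 - 4 * f u)) ∪
    R.image (fun u => (f u + 4, 4)) ∪ R.image (fun u => (f u - 4, 4)) ∪
    {(12, 1), (3, 13), (3, -11)}

/-- Choice of a new regular label adjacent to two given regular (or dummy) labels. -/
lemma pick {G : SimpleGraph V} {S R B : Finset V} {f : V → ℤ} (h : State G S R f)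
    {a b : ℤ} (ha8 : 8 ∣ a) (hb8 : 8 ∣ b) (ha0 : 0 < a) (hb0 : 0 < b) (hab : ¬ IsSquare (a * b))
    (hne : a ≠ b) (haB : ∀ u ∈ S \ B, f u ≠ a) (hbB : ∀ u ∈ S \ B, f u ≠ b) (X : ℤ) :
    ∃ x : ℤ, X < x ∧ 8 ∣ x ∧ IsSquare (a * x + 1) ∧ IsSquare (b * x + 1) ∧
      ∀ ce ∈ conds S R B f, ¬ IsSquare (ce.1 * x + ce.2) := by
  have hbig := h.big
  have key : ∀ z : ℤ, 8 ∣ z → 0 < z → (∀ u ∈ S \ B, f u ≠ z) → ∀ ce ∈ conds S R B f,
      0 < ce.1 ∧ ce.1 * 1 ^ 2 - ce.2 * z ≠ 0 := by
    intro z hz8 hz0 hzB ce hce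
    simp only [conds, mem_union, mem_image, mem_insert, mem_singleton] at hce
    rcases hce with ((((((⟨u, hu, rfl⟩ | ⟨u, hu, rfl⟩) | (rfl | rfl)) | ⟨u, hu, rfl⟩) |
      ⟨u, hu, rfl⟩) | ⟨u, hu, rfl⟩) | ⟨u, hu, rfl⟩) | (rfl | rfl | rfl)
    · have h1 := hbig u (mem_sdiff.1 hu).1
      have h2 := hzB u hu
      refine ⟨by simp only; linarith, ?_⟩
      intro h3
      apply h2
      simp only at h3
      linarith
    · have h1 := hbig u (h.hR hu)
      refine ⟨by simp only; linarith, ?_⟩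
      intro h3
      simp only at h3
      linarith
    · exact ⟨by norm_num, by norm_num⟩
    · exact ⟨by norm_num, by norm_num⟩
    · have h1 := hbig u hu
      refine ⟨by simp only; linarith, ?_⟩
      intro h3
      simp only at h3
      nlinarith
    · have h1 := hbig u hu
      refine ⟨by simp only; linarith, ?_⟩
      intro h3
      simp only at h3
      nlinarith
    · have h1 := hbig u (h.hR hu)
      have h2 := h.m8 u hu
      refine ⟨by simp only; linarith, ?_⟩
      intro h3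
      simp only at h3
      omega
    · have h1 := hbig u (h.hR hu)
      have h2 := h.m8 u hu
      refine ⟨by simp only; linarith, ?_⟩
      intro h3
      simp only at h3
      omega
    · refine ⟨by norm_num, ?_⟩
      intro h3
      simp only at h3
      omega
    · refine ⟨by norm_num, ?_⟩
      intro h3
      simp only at h3
      omega
    · refine ⟨by norm_num, ?_⟩
      intro h3
      simp only at h3
      omega
  obtain ⟨x, s, t, hX, hM, hs, ht, _, _, _, _, hC⟩ := avoid (α := 1) (β := 1) ha0 hb0 one_pos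
    one_pos hab (by intro h1; apply hne; linarith) (conds S R B f)
    (fun ce hce => ⟨(key a ha8 ha0 haB ce hce).1, (key a ha8 ha0 haB ce hce).2,
      (key b hb8 hb0 hbB ce hce).2⟩) (M := 8) (by norm_num) X
  refine ⟨x, hX, hM, ⟨s, ?_⟩, ⟨t, ?_⟩, hC⟩
  · rw [← sq, ← hs]; ring
  · rw [← sq, ← ht]; ring

omit [DecidableEq V] in
lemma exists_bound (S : Finset V) (f : V → ℤ) (hf : ∀ u ∈ S, 0 < f u) :
    ∃ X : ℤ, 48 ≤ X ∧ ∀ u ∈ S, 4 * f u ≤ X := by
  refine ⟨48 + ∑ u ∈ S, 4 * f u, ?_, ?_⟩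
  · have : 0 ≤ ∑ u ∈ S, 4 * f u := Finset.sum_nonneg fun u hu => by have := hf u hu; linarith
    linarith
  · intro u hu
    have : 4 * f u ≤ ∑ u ∈ S, 4 * f u :=
      Finset.single_le_sum (f := fun u => 4 * f u) (fun u hu => by have := hf u hu; linarith) hu
    linarith

lemma not_sq_192 : ¬ IsSquare ((8 : ℤ) * 24) := by
  rintro ⟨r, hr⟩
  have h1 : r ≤ 13 := by nlinarith
  have h2 : -13 ≤ r := by nlinarith
  interval_cases r <;> omega

/-- Add one vertex with at most two (regular) earlier neighbours. -/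
theorem step1 {G : SimpleGraph V} [DecidableRel G.Adj] {S R : Finset V} {f : V → ℤ}
    (h : State G S R f) {v : V} (hv : v ∉ S) (hB : S.filter (G.Adj v) ⊆ R)
    (hcard : (S.filter (G.Adj v)).card ≤ 2) :
    ∃ f' : V → ℤ, State G (insert v S) (insert v R) f' := by
  set B := S.filter (G.Adj v) with hBdef
  have hBS : B ⊆ S := Finset.filter_subset _ _
  have hbig := h.big
  have hvR : v ∉ R := fun hvR => hv (h.hR hvR)
  -- the two back neighbours
  obtain ⟨a, b, ha8, hb8, ha0, hb0, hab, hne, haB, hbB, hcov⟩ : ∃ a b : ℤ, 8 ∣ a ∧ 8 ∣ b ∧ 0 < a ∧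
      0 < b ∧ ¬ IsSquare (a * b) ∧ a ≠ b ∧ (∀ u ∈ S \ B, f u ≠ a) ∧ (∀ u ∈ S \ B, f u ≠ b) ∧
      (∀ u ∈ B, f u = a ∨ f u = b) := by
    have h0 : B.card = 0 ∨ B.card = 1 ∨ B.card = 2 := by omega
    rcases h0 with h0 | h0 | h0
    · refine ⟨8, 24, dvd_refl _, ⟨3, by norm_num⟩, by norm_num, by norm_num, not_sq_192,
        by norm_num, ?_, ?_, ?_⟩
      · intro u hu; have := hbig u (mem_sdiff.1 hu).1; omega
      · intro u hu; have := hbig u (mem_sdiff.1 hu).1; omega
      · rw [Finset.card_eq_zero.1 h0]; simp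
    · obtain ⟨w, hw⟩ := Finset.card_eq_one.1 h0
      have hwB : w ∈ B := by rw [hw]; exact mem_singleton_self _
      have hwR := hB hwB
      have hwbig := hbig w (hBS hwB)
      refine ⟨8, f w, dvd_refl _, h.m8 w hwR, by norm_num, by linarith, h.d8 w hwR,
        by omega, ?_, ?_, ?_⟩
      · intro u hu; have := hbig u (mem_sdiff.1 hu).1; omega
      · intro u hu
        refine h.ne u (mem_sdiff.1 hu).1 w (hBS hwB) ?_
        rintro rfl
        exact (mem_sdiff.1 hu).2 hwB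
      · intro u hu
        rw [hw, mem_singleton] at hu
        right; rw [hu]
    · obtain ⟨w1, w2, hw12, hw⟩ := Finset.card_eq_two.1 h0
      have hw1B : w1 ∈ B := by rw [hw]; simp
      have hw2B : w2 ∈ B := by rw [hw]; simp
      have hw1R := hB hw1B
      have hw2R := hB hw2B
      have hw1big := hbig w1 (hBS hw1B)
      have hw2big := hbig w2 (hBS hw2B)
      refine ⟨f w1, f w2, h.m8 w1 hw1R, h.m8 w2 hw2R, by linarith, by linarith,
        h.pr w1 hw1R w2 hw2R hw12, h.ne w1 (hBS hw1B) w2 (hBS hw2B) hw12, ?_, ?_, ?_⟩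
      · intro u hu
        refine h.ne u (mem_sdiff.1 hu).1 w1 (hBS hw1B) ?_
        rintro rfl
        exact (mem_sdiff.1 hu).2 hw1B
      · intro u hu
        refine h.ne u (mem_sdiff.1 hu).1 w2 (hBS hw2B) ?_
        rintro rfl
        exact (mem_sdiff.1 hu).2 hw2B
      · intro u hu
        rw [hw, mem_insert, mem_singleton] at hu
        rcases hu with rfl | rfl
        · left; rfl
        · right; rfl
  obtain ⟨X, hX48, hX⟩ := exists_bound S f (fun u hu => by have := hbig u hu; linarith)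
  obtain ⟨x, hxX, hx8, hsa, hsb, hC⟩ := pick h ha8 hb8 ha0 hb0 hab hne haB hbB X
  have hxbig : ∀ u ∈ S, 4 * f u < x := fun u hu => lt_of_le_of_lt (hX u hu) hxX
  -- unpack the avoided conditions
  have c1 : ∀ u ∈ S, u ∉ B → ¬ IsSquare (f u * x + 1) := by
    intro u hu huB
    refine hC (f u, 1) ?_
    simp only [conds, mem_union, mem_image, mem_sdiff]
    exact Or.inl (Or.inl (Or.inl (Or.inl (Or.inl (Or.inl (Or.inl ⟨u, ⟨hu, huB⟩, rfl⟩))))))
  have c2 : ∀ u ∈ R, ¬ IsSquare (f u * x) := by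
    intro u hu
    have := hC (f u, 0) (by
      simp only [conds, mem_union, mem_image]
      exact Or.inl (Or.inl (Or.inl (Or.inl (Or.inl (Or.inl (Or.inr ⟨u, hu, rfl⟩)))))))
    simpa using this
  have c8 : ¬ IsSquare (8 * x) := by
    have := hC (8, 0) (by simp [conds])
    simpa using this
  have c24 : ¬ IsSquare (24 * x) := by
    have := hC (24, 0) (by simp [conds])
    simpa using this
  have c3 : ∀ u ∈ S, ¬ IsSquare ((x + 4) * f u + 4) := by
    intro u hu
    have := hC (f u, 4 * f u + 4) (by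
      simp only [conds, mem_union, mem_image]
      exact Or.inl (Or.inl (Or.inl (Or.inl (Or.inr ⟨u, hu, rfl⟩)))))
    have e : (x + 4) * f u + 4 = f u * x + (4 * f u + 4) := by ring
    rw [e]; exact this
  have c4 : ∀ u ∈ S, ¬ IsSquare ((x - 4) * f u + 4) := by
    intro u hu
    have := hC (f u, 4 - 4 * f u) (by
      simp only [conds, mem_union, mem_image]
      exact Or.inl (Or.inl (Or.inl (Or.inr ⟨u, hu, rfl⟩))))
    have e : (x - 4) * f u + 4 = f u * x + (4 - 4 * f u) := by ring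
    rw [e]; exact this
  have c5 : ∀ u ∈ R, ¬ IsSquare ((f u + 4) * x + 4) := by
    intro u hu
    exact hC (f u + 4, 4) (by
      simp only [conds, mem_union, mem_image]
      exact Or.inl (Or.inl (Or.inr ⟨u, hu, rfl⟩)))
  have c6 : ∀ u ∈ R, ¬ IsSquare ((f u - 4) * x + 4) := by
    intro u hu
    exact hC (f u - 4, 4) (by
      simp only [conds, mem_union, mem_image]
      exact Or.inl (Or.inr ⟨u, hu, rfl⟩))
  have c7 : ¬ IsSquare (12 * x + 1) := hC (12, 1) (by simp [conds])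
  have c9 : ¬ IsSquare (3 * x + 13) := hC (3, 13) (by simp [conds])
  have c10 : ¬ IsSquare (3 * x - 11) := by
    have := hC (3, -11) (by simp [conds])
    rwa [← sub_eq_add_neg] at this
  -- the new labelling
  have hadj : ∀ u ∈ S, (G.Adj v u ↔ IsSquare (f u * x + 1)) := by
    intro u hu
    by_cases huB : u ∈ B
    · have h1 : G.Adj v u := (Finset.mem_filter.1 huB).2
      refine ⟨fun _ => ?_, fun _ => h1⟩
      rcases hcov u huB with h2 | h2
      · rw [h2]; exact hsa
      · rw [h2]; exact hsb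
    · have h1 : ¬ G.Adj v u := fun h2 => huB (Finset.mem_filter.2 ⟨hu, h2⟩)
      exact ⟨fun h2 => absurd h2 h1, fun h2 => absurd h2 (c1 u hu huB)⟩
  set f' := Function.update f v x with hf'
  have hfv : f' v = x := Function.update_self v x f
  have hfu : ∀ u ∈ S, f' u = f u := by
    intro u hu
    apply Function.update_of_ne
    rintro rfl
    exact hv hu
  have hfR : ∀ u ∈ R, f' u = f u := fun u hu => hfu u (h.hR hu)
  refine ⟨f', ?_, ?_, ?_, ?_, ?_, ?_, ?_, ?_, ?_, ?_, ?_, ?_⟩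
  · exact Finset.insert_subset_insert _ h.hR
  · intro u hu0
    rcases Finset.mem_insert.1 hu0 with rfl | hu
    · rw [hfv]; linarith
    · rw [hfu u hu]; exact hbig u hu
  · intro u hu0 w hw0 huw
    rcases Finset.mem_insert.1 hu0 with rfl | hu
    · rcases Finset.mem_insert.1 hw0 with rfl | hw
      · exact absurd rfl huw
      · rw [hfv, hfu w hw]
        have := hxbig w hw; have := hbig w hw; omega
    · rcases Finset.mem_insert.1 hw0 with rfl | hw
      · rw [hfv, hfu u hu]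
        have := hxbig u hu; have := hbig u hu; omega
      · rw [hfu u hu, hfu w hw]; exact h.ne u hu w hw huw
  · intro u hu0 w hw0 huw
    rcases Finset.mem_insert.1 hu0 with rfl | hu
    · rcases Finset.mem_insert.1 hw0 with rfl | hw
      · exact absurd rfl huw
      · rw [hfv, hfu w hw, mul_comm]; exact hadj w hw
    · rcases Finset.mem_insert.1 hw0 with rfl | hw
      · rw [hfv, hfu u hu, G.adj_comm]; exact hadj u hu
      · rw [hfu u hu, hfu w hw]; exact h.adj u hu w hw huw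
  · intro u hu0
    rcases Finset.mem_insert.1 hu0 with rfl | hu
    · rw [hfv]; exact c7
    · rw [hfu u hu]; exact h.tw u hu
  · intro u hu0
    rcases Finset.mem_insert.1 hu0 with rfl | hu
    · rw [hfv]; exact hx8
    · rw [hfR u hu]; exact h.m8 u hu
  · intro u hu0 w hw0 huw
    rcases Finset.mem_insert.1 hu0 with rfl | hu
    · rcases Finset.mem_insert.1 hw0 with rfl | hw
      · exact absurd rfl huw
      · rw [hfv, hfR w hw, mul_comm]; exact c2 w hw
    · rcases Finset.mem_insert.1 hw0 with rfl | hw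
      · rw [hfv, hfR u hu]; exact c2 u hu
      · rw [hfR u hu, hfR w hw]; exact h.pr u hu w hw huw
  · intro u hu0
    rcases Finset.mem_insert.1 hu0 with rfl | hu
    · rw [hfv]; exact c8
    · rw [hfR u hu]; exact h.d8 u hu
  · intro u hu0
    rcases Finset.mem_insert.1 hu0 with rfl | hu
    · rw [hfv]; exact c24
    · rw [hfR u hu]; exact h.d24 u hu
  · intro u hu0 w hw0 huw
    rcases Finset.mem_insert.1 hu0 with rfl | hu
    · rcases Finset.mem_insert.1 hw0 with rfl | hw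
      · exact absurd rfl huw
      · rw [hfv, hfu w hw]; exact ⟨c3 w hw, c4 w hw⟩
    · rcases Finset.mem_insert.1 hw0 with rfl | hw
      · rw [hfv, hfR u hu]; exact ⟨c5 u hu, c6 u hu⟩
      · rw [hfR u hu, hfu w hw]; exact h.i3 u hu w hw huw
  · intro u hu0 w hw0
    rcases Finset.mem_insert.1 hu0 with rfl | hu
    · rcases Finset.mem_insert.1 hw0 with rfl | hw
      · rw [hfv]; omega
      · rw [hfv, hfu w hw]; have := hxbig w hw; omega
    · rcases Finset.mem_insert.1 hw0 with rfl | hw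
      · rw [hfv, hfR u hu]; have := hxbig u (h.hR hu); have := hbig u (h.hR hu); omega
      · rw [hfR u hu, hfu w hw]; exact h.i4 u hu w hw
  · intro u hu0
    rcases Finset.mem_insert.1 hu0 with rfl | hu
    · rw [hfv]; exact ⟨c9, c10⟩
    · rw [hfR u hu]; exact h.i6 u hu

end

end Pool.Agent.Helper7.Dio
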