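import Mathlib
import Pool.Agent.Helper7.DioSteps

set_option autoImplicit false

open Finset

namespace Pool.Agent.Helper7.Dio

variable {V : Type*} [DecidableEq V]

/-- Closing a component: extend a state by a finite set of vertices which get no further
neighbours. -/
lemma State.extend {G : SimpleGraph V} {S R T : Finset V} {f f' : V → ℤ} (h : State G S R f)
    (hff : ∀ u ∈ S, f' u = f u)
    (hbig : ∀ u ∈ T, 48 < f' u)
    (hTS : ∀ u ∈ T, ∀ w ∈ S, f' u ≠ f w ∧ (G.Adj u w ↔ IsSquare (f' u * f w + 1)))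
    (hTT : ∀ u ∈ T, ∀ w ∈ T, u ≠ w → f' u ≠ f' w ∧ (G.Adj u w ↔ IsSquare (f' u * f' w + 1)))
    (htw : ∀ u ∈ T, ¬ IsSquare (12 * f' u + 1)) :
    State G (T ∪ S) ∅ f' where
  hR := by simp
  big := by
    intro u hu0
    rcases Finset.mem_union.1 hu0 with hu | hu
    · exact hbig u hu
    · rw [hff u hu]; exact h.big u hu
  ne := by
    intro u hu0 w hw0 huw
    rcases Finset.mem_union.1 hu0 with hu | hu
    · rcases Finset.mem_union.1 hw0 with hw | hw
      · exact (hTT u hu w hw huw).1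
      · rw [hff w hw]; exact (hTS u hu w hw).1
    · rcases Finset.mem_union.1 hw0 with hw | hw
      · rw [hff u hu]; exact ((hTS w hw u hu).1).symm
      · rw [hff u hu, hff w hw]; exact h.ne u hu w hw huw
  adj := by
    intro u hu0 w hw0 huw
    rcases Finset.mem_union.1 hu0 with hu | hu
    · rcases Finset.mem_union.1 hw0 with hw | hw
      · exact (hTT u hu w hw huw).2
      · rw [hff w hw]; exact (hTS u hu w hw).2
    · rcases Finset.mem_union.1 hw0 with hw | hw
      · rw [hff u hu, G.adj_comm, mul_comm]; exact (hTS w hw u hu).2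
      · rw [hff u hu, hff w hw]; exact h.adj u hu w hw huw
  tw := by
    intro u hu0
    rcases Finset.mem_union.1 hu0 with hu | hu
    · exact htw u hu
    · rw [hff u hu]; exact h.tw u hu
  m8 := by simp
  pr := by simp
  d8 := by simp
  d24 := by simp
  i3 := by simp
  i4 := by simp
  i6 := by simp

/-- Close a component with a diamond. -/
theorem step2 {G : SimpleGraph V} [DecidableRel G.Adj] {S R : Finset V} {f : V → ℤ}
    (h : State G S R f) {a b c d : V} (ha : a ∉ S) (hb : b ∉ S) (hc : c ∉ S)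
    (hab : G.Adj a b) (hac : G.Adj a c) (hbc : G.Adj b c) (hd : d ∈ R)
    (hNb : ∀ y ∈ S, G.Adj b y ↔ y = d) (hNc : ∀ y ∈ S, G.Adj c y ↔ y = d)
    (hNa : S.filter (G.Adj a) ⊆ R) (hcard : (S.filter (G.Adj a)).card ≤ 1)
    (had : ¬ G.Adj a d) :
    ∃ f' : V → ℤ, State G ({a, b, c} ∪ S) ∅ f' := by
  classical
  set B := S.filter (G.Adj a) with hBdef
  have hBS : B ⊆ S := Finset.filter_subset _ _
  have hbig := h.big
  have hdS : d ∈ S := h.hR hd
  have hdB : d ∉ B := fun hdB => had (Finset.mem_filter.1 hdB).2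
  have hDbig := hbig d hdS
  -- the back neighbour of `a`
  obtain ⟨a1, ha8, ha0, haD, haB, hcov⟩ : ∃ a1 : ℤ, 8 ∣ a1 ∧ 0 < a1 ∧ ¬ IsSquare (a1 * f d) ∧
      (∀ u ∈ S \ B, f u ≠ a1) ∧ (∀ u ∈ B, f u = a1) := by
    have h0 : B.card = 0 ∨ B.card = 1 := by omega
    rcases h0 with h0 | h0
    · refine ⟨8, dvd_refl _, by norm_num, h.d8 d hd, ?_, ?_⟩
      · intro u hu; have := hbig u (mem_sdiff.1 hu).1; omega
      · rw [Finset.card_eq_zero.1 h0]; simp
    · obtain ⟨w, hw⟩ := Finset.card_eq_one.1 h0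
      have hwB : w ∈ B := by rw [hw]; exact mem_singleton_self _
      have hwR := hNa hwB
      have hwbig := hbig w (hBS hwB)
      have hwd : w ≠ d := by rintro rfl; exact hdB hwB
      refine ⟨f w, h.m8 w hwR, by linarith, h.pr w hwR d hd hwd, ?_, ?_⟩
      · intro u hu
        refine h.ne u (mem_sdiff.1 hu).1 w (hBS hwB) ?_
        rintro rfl
        exact (mem_sdiff.1 hu).2 hwB
      · intro u hu
        rw [hw, mem_singleton] at hu
        rw [hu]
  obtain ⟨D', hD'⟩ := h.m8 d hd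
  have hD'pos : 0 < D' := by omega
  -- moduli
  obtain ⟨m1, hm1, hM1⟩ := nonsq_mod_finset (S.erase d) (fun u => (2 * D' + 1) * f u + 1)
    (fun u hu => by
      have := hbig u (Finset.mem_of_mem_erase hu)
      have : 0 < (2 * D' + 1) * f u := by positivity
      linarith)
    (fun u hu => by
      rintro ⟨r, hr⟩
      apply (h.i3 d hd u (Finset.mem_of_mem_erase hu) (Finset.ne_of_mem_erase hu).symm).1
      refine ⟨2 * r, ?_⟩
      rw [hD']
      linear_combination 4 * hr)
  obtain ⟨m2, hm2, hM2⟩ := nonsq_mod_finset (S.erase d) (fun u => (2 * D' - 1) * f u + 1)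
    (fun u hu => by
      have := hbig u (Finset.mem_of_mem_erase hu)
      have h1 : 0 < 2 * D' - 1 := by omega
      have : 0 < (2 * D' - 1) * f u := by positivity
      linarith)
    (fun u hu => by
      rintro ⟨r, hr⟩
      apply (h.i3 d hd u (Finset.mem_of_mem_erase hu) (Finset.ne_of_mem_erase hu).symm).2
      refine ⟨2 * r, ?_⟩
      rw [hD']
      linear_combination 4 * hr)
  obtain ⟨m3, hm3, hM3⟩ := nonsq_mod (N := 3 * f d + 13) (by linarith) (h.i6 d hd).1
  obtain ⟨m4, hm4, hM4⟩ := nonsq_mod (N := 3 * f d - 11) (by linarith) (h.i6 d hd).2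
  set m := m1 * m2 * m3 * m4 with hm
  have hmpos : 0 < m := by positivity
  have hm1d : m1 ∣ m := ⟨m2 * m3 * m4, by rw [hm]; ring⟩
  have hm2d : m2 ∣ m := ⟨m1 * m3 * m4, by rw [hm]; ring⟩
  have hm3d : m3 ∣ m := ⟨m1 * m2 * m4, by rw [hm]; ring⟩
  have hm4d : m4 ∣ m := ⟨m1 * m2 * m3, by rw [hm]; ring⟩
  obtain ⟨X, hX48, hX⟩ := exists_bound S f (fun u hu => by have := hbig u hu; linarith)
  set C : Finset (ℤ × ℤ) := (S \ B).image (fun u => (f u, 1)) ∪ {(12, 1)} with hCdef
  have hCnd : ∀ ce ∈ C, 0 < ce.1 ∧ ce.1 * 1 ^ 2 - ce.2 * a1 ≠ 0 ∧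
      ce.1 * 2 ^ 2 - ce.2 * f d ≠ 0 := by
    intro ce hce
    simp only [hCdef, mem_union, mem_image, mem_singleton] at hce
    rcases hce with ⟨u, hu, rfl⟩ | rfl
    · have h1 := hbig u (mem_sdiff.1 hu).1
      have h2 := haB u hu
      have h3 := h.i4 d hd u (mem_sdiff.1 hu).1
      refine ⟨by simp only; linarith, ?_, ?_⟩
      · intro h4; apply h2; simp only at h4; linarith
      · intro h4; apply h3; simp only at h4; linarith
    · refine ⟨by norm_num, ?_, ?_⟩
      · intro h4; simp only at h4; omega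
      · intro h4; simp only at h4; omega
  obtain ⟨x, s, t, hxX, hMx, hs, ht, _, hMt, _, ht0, hC⟩ := avoid (a := a1) (b := f d) (α := 1)
    (β := 2) ha0 (by linarith) one_pos two_pos haD (by
      intro h1
      apply haD
      refine ⟨2 * a1, ?_⟩
      have : f d = 4 * a1 := by linarith
      rw [this]; ring) C hCnd (M := 16 * m) (by positivity) (8 * (X + 16 * f d + 1))
  -- write everything in terms of x', t'
  obtain ⟨x2, hx2⟩ := hMx
  obtain ⟨j, hj⟩ := hMt
  set x' := 2 * m * x2 with hx'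
  set t' := 1 + 8 * m * j with ht'
  have hxx' : x = 8 * x' := by rw [hx2, hx']; ring
  have htt' : t = 2 * t' := by rw [ht']; linarith
  have hx'big : X + 16 * f d + 1 < x' := by omega
  have htsq : t' ^ 2 = 16 * D' * x' + 1 := by
    have h1 : 4 * t' ^ 2 = 4 * (16 * D' * x' + 1) := by
      have h2 : t ^ 2 = 4 * t' ^ 2 := by rw [htt']; ring
      rw [← h2, ← ht, hD', hxx']; ring
    linarith
  have ht'pos : 0 < t' := by omega
  have hx'pos : 0 < x' := by omega
  have ht'le : t' ≤ x' := by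
    have h1 : t' ^ 2 ≤ x' ^ 2 := by
      rw [htsq]
      have h2 : 16 * D' + 1 ≤ x' := by omega
      nlinarith
    exact (pow_le_pow_iff_left₀ ht'pos.le hx'pos.le (by norm_num)).1 h1
  set bl := 2 * x' + 2 * D' + t' with hbl
  set cl := 2 * x' + 2 * D' - t' with hcl
  have hbm : ∀ m' : ℤ, m' ∣ m → m' ∣ bl - (2 * D' + 1) := by
    intro m' hm'
    have : bl - (2 * D' + 1) = m * (4 * x2 + 8 * j) := by
      rw [hbl, ht', hx']; ring
    rw [this]; exact Dvd.dvd.mul_right hm' _
  have hcm : ∀ m' : ℤ, m' ∣ m → m' ∣ cl - (2 * D' - 1) := by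
    intro m' hm'
    have : cl - (2 * D' - 1) = m * (4 * x2 - 8 * j) := by
      rw [hcl, ht', hx']; ring
    rw [this]; exact Dvd.dvd.mul_right hm' _
  have hxc : x' ≤ cl := by omega
  have hcb : cl < bl := by omega
  have hbx : bl < x := by omega
  have hsmall : ∀ u ∈ S, f u < x' := by
    intro u hu
    have := hX u hu; have := hbig u hu; omega
  -- the new labelling
  have hab' : a ≠ b := hab.ne
  have hac' : a ≠ c := hac.ne
  have hbc' : b ≠ c := hbc.ne
  set f' : V → ℤ := fun u => if u = a then x else if u = b then bl else if u = c then cl else f u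
    with hf'
  have fa : f' a = x := by simp [hf']
  have fb : f' b = bl := by simp [hf', hab'.symm]
  have fc : f' c = cl := by simp [hf', hac'.symm, hbc'.symm]
  have hff : ∀ u ∈ S, f' u = f u := by
    intro u hu
    have h1 : u ≠ a := by rintro rfl; exact ha hu
    have h2 : u ≠ b := by rintro rfl; exact hb hu
    have h3 : u ≠ c := by rintro rfl; exact hc hu
    simp [hf', h1, h2, h3]
  have sqab : IsSquare (x * bl + 1) := ⟨4 * x' + t', by
    rw [hxx', hbl]; linear_combination (-1 : ℤ) * htsq⟩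
  have sqac : IsSquare (x * cl + 1) := ⟨4 * x' - t', by
    rw [hxx', hcl]; linear_combination (-1 : ℤ) * htsq⟩
  have sqbc : IsSquare (bl * cl + 1) := ⟨2 * (x' - D'), by
    rw [hbl, hcl]; linear_combination (-1 : ℤ) * htsq⟩
  have sqbd : IsSquare (bl * f d + 1) := ⟨4 * D' + t', by
    rw [hD', hbl]; linear_combination (-1 : ℤ) * htsq⟩
  have sqcd : IsSquare (cl * f d + 1) := ⟨4 * D' - t', by
    rw [hD', hcl]; linear_combination (-1 : ℤ) * htsq⟩
  have nsa : ∀ u ∈ S, u ∉ B → ¬ IsSquare (x * f u + 1) := by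
    intro u hu huB
    have := hC (f u, 1) (by
      simp only [hCdef, mem_union, mem_image, mem_sdiff]
      exact Or.inl ⟨u, ⟨hu, huB⟩, rfl⟩)
    rw [mul_comm]; exact this
  have nsb : ∀ u ∈ S, u ≠ d → ¬ IsSquare (bl * f u + 1) := by
    intro u hu hud
    refine hM1 u (Finset.mem_erase.2 ⟨hud, hu⟩) _ ?_
    have : bl * f u + 1 - ((2 * D' + 1) * f u + 1) = (bl - (2 * D' + 1)) * f u := by ring
    rw [this]
    exact Dvd.dvd.mul_right (hbm m1 hm1d) _
  have nsc : ∀ u ∈ S, u ≠ d → ¬ IsSquare (cl * f u + 1) := by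
    intro u hu hud
    refine hM2 u (Finset.mem_erase.2 ⟨hud, hu⟩) _ ?_
    have : cl * f u + 1 - ((2 * D' - 1) * f u + 1) = (cl - (2 * D' - 1)) * f u := by ring
    rw [this]
    exact Dvd.dvd.mul_right (hcm m2 hm2d) _
  refine ⟨f', h.extend hff ?_ ?_ ?_ ?_⟩
  · intro u hu
    simp only [mem_insert, mem_singleton] at hu
    rcases hu with rfl | rfl | rfl
    · rw [fa]; omega
    · rw [fb]; omega
    · rw [fc]; omega
  · intro u hu w hw
    have hwx := hsmall w hw
    simp only [mem_insert, mem_singleton] at hu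
    rcases hu with rfl | rfl | rfl
    · rw [fa]
      refine ⟨by omega, ?_⟩
      by_cases hwB : w ∈ B
      · refine ⟨fun _ => ?_, fun _ => (Finset.mem_filter.1 hwB).2⟩
        rw [hcov w hwB]
        exact ⟨s, by rw [← sq, ← hs]; ring⟩
      · exact ⟨fun h1 => absurd (Finset.mem_filter.2 ⟨hw, h1⟩) hwB,
          fun h1 => absurd h1 (nsa w hw hwB)⟩
    · rw [fb]
      refine ⟨by omega, ?_⟩
      rw [hNb w hw]
      by_cases hwd : w = d
      · rw [hwd]; exact ⟨fun _ => sqbd, fun _ => rfl⟩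
      · exact ⟨fun h1 => absurd h1 hwd, fun h1 => absurd h1 (nsb w hw hwd)⟩
    · rw [fc]
      refine ⟨by omega, ?_⟩
      rw [hNc w hw]
      by_cases hwd : w = d
      · rw [hwd]; exact ⟨fun _ => sqcd, fun _ => rfl⟩
      · exact ⟨fun h1 => absurd h1 hwd, fun h1 => absurd h1 (nsc w hw hwd)⟩
  · intro u hu w hw huw
    simp only [mem_insert, mem_singleton] at hu hw
    rcases hu with rfl | rfl | rfl
    · rcases hw with rfl | rfl | rfl
      · exact absurd rfl huw
      · rw [fa, fb]; exact ⟨by omega, fun _ => sqab, fun _ => hab⟩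
      · rw [fa, fc]; exact ⟨by omega, fun _ => sqac, fun _ => hac⟩
    · rcases hw with rfl | rfl | rfl
      · rw [fa, fb, mul_comm]; exact ⟨by omega, fun _ => sqab, fun _ => hab.symm⟩
      · exact absurd rfl huw
      · rw [fb, fc]; exact ⟨by omega, fun _ => sqbc, fun _ => hbc⟩
    · rcases hw with rfl | rfl | rfl
      · rw [fa, fc, mul_comm]; exact ⟨by omega, fun _ => sqac, fun _ => hac.symm⟩
      · rw [fb, fc, mul_comm]; exact ⟨by omega, fun _ => sqbc, fun _ => hbc.symm⟩
      · exact absurd rfl huw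
  · intro u hu
    simp only [mem_insert, mem_singleton] at hu
    rcases hu with rfl | rfl | rfl
    · rw [fa]; exact hC (12, 1) (by simp [hCdef])
    · rw [fb]
      refine hM3 _ ?_
      have : 12 * bl + 1 - (3 * f d + 13) = (bl - (2 * D' + 1)) * 12 := by rw [hD']; ring
      rw [this]; exact Dvd.dvd.mul_right (hbm m3 hm3d) _
    · rw [fc]
      refine hM4 _ ?_
      have : 12 * cl + 1 - (3 * f d - 11) = (cl - (2 * D' - 1)) * 12 := by rw [hD']; ring
      rw [this]; exact Dvd.dvd.mul_right (hcm m4 hm4d) _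

end Pool.Agent.Helper7.Dio
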