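import Mathlib
import Pool.Agent.Helper7.DioDiamond

set_option autoImplicit false

open Finset

namespace Pool.Agent.Helper7.Dio

variable {V : Type*} [DecidableEq V]

lemma not_sq_145 : ¬ IsSquare (145 : ℤ) := by
  rintro ⟨r, hr⟩
  have h1 : r ≤ 12 := by nlinarith
  have h2 : -12 ≤ r := by nlinarith
  interval_cases r <;> omega

/-- Add a `K_4` component. -/
theorem step3 {G : SimpleGraph V} {S R : Finset V} {f : V → ℤ}
    (h : State G S R f) {a b c d : V} (ha : a ∉ S) (hb : b ∉ S) (hc : c ∉ S) (hd : d ∉ S)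
    (hab : G.Adj a b) (hac : G.Adj a c) (had : G.Adj a d) (hbc : G.Adj b c) (hbd : G.Adj b d)
    (hcd : G.Adj c d)
    (hNa : ∀ y ∈ S, ¬ G.Adj a y) (hNb : ∀ y ∈ S, ¬ G.Adj b y) (hNc : ∀ y ∈ S, ¬ G.Adj c y)
    (hNd : ∀ y ∈ S, ¬ G.Adj d y) :
    ∃ f' : V → ℤ, State G ({a, b, c, d} ∪ S) ∅ f' := by
  classical
  have hbig := h.big
  obtain ⟨m1, hm1, hM1⟩ := nonsq_mod_finset S (fun u => 12 * f u + 1)
    (fun u hu => by have := hbig u hu; linarith) (fun u hu => h.tw u hu)
  obtain ⟨m2, hm2, hM2⟩ := nonsq_mod (N := 145) (by norm_num) not_sq_145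
  obtain ⟨X, hX48, hX⟩ := exists_bound S f (fun u hu => by have := hbig u hu; linarith)
  set C : Finset (ℤ × ℤ) := S.image (fun u => (f u, 1)) ∪ S.image (fun u => (f u, 2 * f u + 1)) ∪
    S.image (fun u => (4 * f u, 4 * f u + 1)) ∪ {(12, 1), (12, 25), (48, 49)} with hCdef
  have hCnd : ∀ ce ∈ C, 0 < ce.1 ∧ ce.1 * 1 ^ 2 - ce.2 * 8 ≠ 0 ∧
      ce.1 * 1 ^ 2 - ce.2 * 24 ≠ 0 := by
    intro ce hce
    simp only [hCdef, mem_union, mem_image, mem_singleton, mem_insert] at hce
    rcases hce with ((⟨u, hu, rfl⟩ | ⟨u, hu, rfl⟩) | ⟨u, hu, rfl⟩) | (rfl | rfl | rfl)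
    · have h1 := hbig u hu
      simp only
      refine ⟨by omega, by omega, by omega⟩
    · have h1 := hbig u hu
      simp only
      refine ⟨by omega, by omega, by omega⟩
    · have h1 := hbig u hu
      simp only
      refine ⟨by omega, by omega, by omega⟩
    · norm_num
    · norm_num
    · norm_num
  obtain ⟨x, s, t, hxX, hMx, _, _, _, _, _, _, hC⟩ := avoid (a := 8) (b := 24) (α := 1)
    (β := 1) (by norm_num) (by norm_num) one_pos one_pos not_sq_192 (by norm_num) C hCnd
    (M := m1 * m2) (by positivity) X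
  have hm1x : m1 ∣ x := dvd_trans (Dvd.intro _ rfl) hMx
  have hm2x : m2 ∣ x := dvd_trans (Dvd.intro_left _ rfl) hMx
  have hsmall : ∀ u ∈ S, f u < x := by
    intro u hu
    have := hX u hu; have := hbig u hu; omega
  set y2 := x + 2 with hy2
  set y3 := 4 * (x + 1) with hy3
  set y4 := 4 * ((x + 1) * ((2 * x + 1) * (2 * x + 3))) with hy4
  have hx48 : 48 < x := by omega
  have hy34 : y3 < y4 := by
    rw [hy3, hy4]
    have : 1 < (2 * x + 1) * (2 * x + 3) := by nlinarith
    nlinarith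
  have hy4x : x ∣ y4 - 12 := ⟨4 * (4 * x ^ 2 + 12 * x + 11), by rw [hy4]; ring⟩
  have hab' : a ≠ b := hab.ne
  have hac' : a ≠ c := hac.ne
  have had' : a ≠ d := had.ne
  have hbc' : b ≠ c := hbc.ne
  have hbd' : b ≠ d := hbd.ne
  have hcd' : c ≠ d := hcd.ne
  set f' : V → ℤ := fun u => if u = a then x else if u = b then y2 else if u = c then y3
    else if u = d then y4 else f u with hf'
  have fa : f' a = x := by simp [hf']
  have fb : f' b = y2 := by simp [hf', hab'.symm]
  have fc : f' c = y3 := by simp [hf', hac'.symm, hbc'.symm]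
  have fd : f' d = y4 := by simp [hf', had'.symm, hbd'.symm, hcd'.symm]
  have hff : ∀ u ∈ S, f' u = f u := by
    intro u hu
    have h1 : u ≠ a := by rintro rfl; exact ha hu
    have h2 : u ≠ b := by rintro rfl; exact hb hu
    have h3 : u ≠ c := by rintro rfl; exact hc hu
    have h4 : u ≠ d := by rintro rfl; exact hd hu
    simp [hf', h1, h2, h3, h4]
  have s12 : IsSquare (x * y2 + 1) := ⟨x + 1, by rw [hy2]; ring⟩
  have s13 : IsSquare (x * y3 + 1) := ⟨2 * x + 1, by rw [hy3]; ring⟩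
  have s23 : IsSquare (y2 * y3 + 1) := ⟨2 * x + 3, by rw [hy2, hy3]; ring⟩
  have s14 : IsSquare (x * y4 + 1) :=
    ⟨4 * (x + 1) ^ 2 - 2 * (x + 1) - 1, by rw [hy4]; ring⟩
  have s24 : IsSquare (y2 * y4 + 1) :=
    ⟨4 * (x + 1) ^ 2 + 2 * (x + 1) - 1, by rw [hy2, hy4]; ring⟩
  have s34 : IsSquare (y3 * y4 + 1) := ⟨8 * (x + 1) ^ 2 - 1, by rw [hy3, hy4]; ring⟩
  have n1 : ∀ u ∈ S, ¬ IsSquare (x * f u + 1) := by
    intro u hu
    have := hC (f u, 1) (by
      simp only [hCdef, mem_union, mem_image]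
      exact Or.inl (Or.inl (Or.inl ⟨u, hu, rfl⟩)))
    rw [mul_comm]; exact this
  have n2 : ∀ u ∈ S, ¬ IsSquare (y2 * f u + 1) := by
    intro u hu
    have := hC (f u, 2 * f u + 1) (by
      simp only [hCdef, mem_union, mem_image]
      exact Or.inl (Or.inl (Or.inr ⟨u, hu, rfl⟩)))
    have e : y2 * f u + 1 = f u * x + (2 * f u + 1) := by rw [hy2]; ring
    rw [e]; exact this
  have n3 : ∀ u ∈ S, ¬ IsSquare (y3 * f u + 1) := by
    intro u hu
    have := hC (4 * f u, 4 * f u + 1) (by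
      simp only [hCdef, mem_union, mem_image]
      exact Or.inl (Or.inr ⟨u, hu, rfl⟩))
    have e : y3 * f u + 1 = 4 * f u * x + (4 * f u + 1) := by rw [hy3]; ring
    rw [e]; exact this
  have n4 : ∀ u ∈ S, ¬ IsSquare (y4 * f u + 1) := by
    intro u hu
    refine hM1 u hu _ ?_
    have : y4 * f u + 1 - (12 * f u + 1) = (y4 - 12) * f u := by ring
    rw [this]
    exact Dvd.dvd.mul_right (hm1x.trans hy4x) _
  refine ⟨f', h.extend hff ?_ ?_ ?_ ?_⟩
  · intro u hu
    simp only [mem_insert, mem_singleton] at hu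
    rcases hu with rfl | rfl | rfl | rfl
    · rw [fa]; omega
    · rw [fb]; omega
    · rw [fc]; omega
    · rw [fd]; omega
  · intro u hu w hw
    have hwx := hsmall w hw
    simp only [mem_insert, mem_singleton] at hu
    rcases hu with rfl | rfl | rfl | rfl
    · rw [fa]
      exact ⟨by omega, fun h1 => absurd h1 (hNa w hw), fun h1 => absurd h1 (n1 w hw)⟩
    · rw [fb]
      exact ⟨by omega, fun h1 => absurd h1 (hNb w hw), fun h1 => absurd h1 (n2 w hw)⟩
    · rw [fc]
      exact ⟨by omega, fun h1 => absurd h1 (hNc w hw), fun h1 => absurd h1 (n3 w hw)⟩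
    · rw [fd]
      exact ⟨by omega, fun h1 => absurd h1 (hNd w hw), fun h1 => absurd h1 (n4 w hw)⟩
  · intro u hu w hw huw
    simp only [mem_insert, mem_singleton] at hu hw
    rcases hu with rfl | rfl | rfl | rfl
    · rcases hw with rfl | rfl | rfl | rfl
      · exact absurd rfl huw
      · rw [fa, fb]; exact ⟨by omega, fun _ => s12, fun _ => hab⟩
      · rw [fa, fc]; exact ⟨by omega, fun _ => s13, fun _ => hac⟩
      · rw [fa, fd]; exact ⟨by omega, fun _ => s14, fun _ => had⟩
    · rcases hw with rfl | rfl | rfl | rfl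
      · rw [fa, fb, mul_comm]; exact ⟨by omega, fun _ => s12, fun _ => hab.symm⟩
      · exact absurd rfl huw
      · rw [fb, fc]; exact ⟨by omega, fun _ => s23, fun _ => hbc⟩
      · rw [fb, fd]; exact ⟨by omega, fun _ => s24, fun _ => hbd⟩
    · rcases hw with rfl | rfl | rfl | rfl
      · rw [fa, fc, mul_comm]; exact ⟨by omega, fun _ => s13, fun _ => hac.symm⟩
      · rw [fb, fc, mul_comm]; exact ⟨by omega, fun _ => s23, fun _ => hbc.symm⟩
      · exact absurd rfl huw
      · rw [fc, fd]; exact ⟨by omega, fun _ => s34, fun _ => hcd⟩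
    · rcases hw with rfl | rfl | rfl | rfl
      · rw [fa, fd, mul_comm]; exact ⟨by omega, fun _ => s14, fun _ => had.symm⟩
      · rw [fb, fd, mul_comm]; exact ⟨by omega, fun _ => s24, fun _ => hbd.symm⟩
      · rw [fc, fd, mul_comm]; exact ⟨by omega, fun _ => s34, fun _ => hcd.symm⟩
      · exact absurd rfl huw
  · intro u hu
    simp only [mem_insert, mem_singleton] at hu
    rcases hu with rfl | rfl | rfl | rfl
    · rw [fa]; exact hC (12, 1) (by simp [hCdef])
    · rw [fb]
      have := hC (12, 25) (by simp [hCdef])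
      have e : 12 * y2 + 1 = 12 * x + 25 := by rw [hy2]; ring
      rw [e]; exact this
    · rw [fc]
      have := hC (48, 49) (by simp [hCdef])
      have e : 12 * y3 + 1 = 48 * x + 49 := by rw [hy3]; ring
      rw [e]; exact this
    · rw [fd]
      refine hM2 _ ?_
      have : 12 * y4 + 1 - 145 = (y4 - 12) * 12 := by ring
      rw [this]
      exact Dvd.dvd.mul_right (hm2x.trans hy4x) _

end Pool.Agent.Helper7.Dio
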