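import Mathlib
import Pool.Agent.Helper7.DioK4

set_option autoImplicit false

open Finset

namespace Pool.Agent.Helper7.Dio

variable {V : Type*} [DecidableEq V]

/-- The empty state. -/
lemma State.empty (G : SimpleGraph V) : State G ∅ ∅ (fun _ => 0) where
  hR := by simp
  big := by simp
  ne := by simp
  adj := by simp
  tw := by simp
  m8 := by simp
  pr := by simp
  d8 := by simp
  d24 := by simp
  i3 := by simp
  i4 := by simp
  i6 := by simp

/-- Building a 2-degenerate set of vertices on top of a closed set. -/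
theorem build {G : SimpleGraph V} [DecidableRel G.Adj] {S : Finset V} {f : V → ℤ}
    (h : State G S ∅ f) (n : ℕ) : ∀ K : Finset V, K.card = n → Disjoint K S →
    (∀ x ∈ K, ∀ y ∈ S, ¬ G.Adj x y) →
    (∀ T : Finset V, T ⊆ K → T.Nonempty → ∃ v ∈ T, (T.filter (G.Adj v)).card ≤ 2) →
    ∃ f' : V → ℤ, State G (K ∪ S) K f' := by
  induction n with
  | zero =>
    intro K hK _ _ _
    rw [Finset.card_eq_zero] at hK
    subst hK
    exact ⟨f, by simpa using h⟩
  | succ n ih =>
    intro K hK hdis hno hdeg
    have hKne : K.Nonempty := by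
      rw [← Finset.card_pos]; omega
    obtain ⟨v, hvK, hv2⟩ := hdeg K (Finset.Subset.refl _) hKne
    have hsub : K.erase v ⊆ K := Finset.erase_subset _ _
    obtain ⟨f1, h1⟩ := ih (K.erase v) (by rw [Finset.card_erase_of_mem hvK]; omega)
      (Finset.disjoint_of_subset_left hsub hdis) (fun x hx y hy => hno x (hsub hx) y hy)
      (fun T hT hne => hdeg T (hT.trans hsub) hne)
    have hvS : v ∉ S := Finset.disjoint_left.1 hdis hvK
    have hvn : v ∉ K.erase v ∪ S := by simp [hvS]
    have hB : (K.erase v ∪ S).filter (G.Adj v) ⊆ K.erase v := by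
      intro y hy
      rw [Finset.mem_filter, Finset.mem_union] at hy
      rcases hy with ⟨hy | hy, hadj⟩
      · exact hy
      · exact absurd hadj (hno v hvK y hy)
    have hcard : ((K.erase v ∪ S).filter (G.Adj v)).card ≤ 2 := by
      refine le_trans (Finset.card_le_card ?_) hv2
      intro y hy
      rw [Finset.mem_filter]
      exact ⟨hsub (hB hy), (Finset.mem_filter.1 hy).2⟩
    obtain ⟨f2, h2⟩ := step1 h1 hvn hB hcard
    refine ⟨f2, ?_⟩
    rwa [← Finset.insert_union, Finset.insert_erase hvK] at h2

/-- `S` is a union of connected components. -/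
def Closed (G : SimpleGraph V) (S : Finset V) : Prop := ∀ x ∈ S, ∀ y, G.Adj x y → y ∈ S

omit [DecidableEq V] in
lemma Closed.reach {G : SimpleGraph V} {S : Finset V} (h : Closed G S) {x y : V} (hx : x ∈ S)
    (hxy : G.Reachable x y) : y ∈ S := by
  obtain ⟨p⟩ := hxy
  induction p with
  | nil => exact hx
  | cons hadj _ ih => exact ih (h _ hx _ hadj)

lemma Closed.union {G : SimpleGraph V} {S T : Finset V} (hS : Closed G S) (hT : Closed G T) :
    Closed G (S ∪ T) := by
  intro x hx y hxy
  rw [Finset.mem_union] at hx ⊢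
  rcases hx with hx | hx
  · exact Or.inl (hS x hx y hxy)
  · exact Or.inr (hT x hx y hxy)

/-- From a proper subset of a connected set there is an edge leaving it. -/
lemma exists_exit {G : SimpleGraph V} {T : Finset V} {x y : V} (hx : x ∈ T) (hy : y ∉ T)
    (hxy : G.Reachable x y) : ∃ u ∈ T, ∃ w, w ∉ T ∧ G.Adj u w := by
  by_contra hcon
  push Not at hcon
  have hc : Closed G T := by
    intro u hu w huw
    by_contra hw
    exact hcon u hu w hw huw
  exact hy (hc.reach hx hxy)

section
variable [Fintype V] {G : SimpleGraph V} [DecidableRel G.Adj]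

/-- In a graph of maximum degree at most three, a nonempty proper subset `T` of a component
has a vertex with at most two neighbours in `T`. -/
lemma exists_low (hdeg : ∀ v, (univ.filter (G.Adj v)).card ≤ 3) {T : Finset V} {x y : V}
    (hx : x ∈ T) (hy : y ∉ T) (hxy : G.Reachable x y) :
    ∃ v ∈ T, (T.filter (G.Adj v)).card ≤ 2 := by
  obtain ⟨u, hu, w, hw, huw⟩ := exists_exit hx hy hxy
  refine ⟨u, hu, ?_⟩
  have h1 : insert w (T.filter (G.Adj u)) ⊆ univ.filter (G.Adj u) := by
    intro z hz
    rw [Finset.mem_insert] at hz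
    rcases hz with rfl | hz
    · simp [huw]
    · simp [(Finset.mem_filter.1 hz).2]
  have h2 : w ∉ T.filter (G.Adj u) := fun h => hw (Finset.mem_filter.1 h).1
  have h3 := Finset.card_le_card h1
  rw [Finset.card_insert_of_notMem h2] at h3
  have := hdeg u
  omega

/-- Three known neighbours of a vertex of degree at most three are all its neighbours. -/
lemma nbr_cases (hdeg : ∀ v, (univ.filter (G.Adj v)).card ≤ 3) {v p q r : V}
    (hp : G.Adj v p) (hq : G.Adj v q) (hr : G.Adj v r) (hpq : p ≠ q) (hpr : p ≠ r) (hqr : q ≠ r)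
    {y : V} (hy : G.Adj v y) : y = p ∨ y = q ∨ y = r := by
  have h1 : ({p, q, r} : Finset V) ⊆ univ.filter (G.Adj v) := by
    intro z hz
    simp only [Finset.mem_insert, Finset.mem_singleton] at hz
    rcases hz with rfl | rfl | rfl <;> simp [*]
  have h2 : ({p, q, r} : Finset V).card = 3 := by
    rw [Finset.card_eq_three]
    exact ⟨p, q, r, hpq, hpr, hqr, rfl⟩
  have h3 : ({p, q, r} : Finset V) = univ.filter (G.Adj v) :=
    Finset.eq_of_subset_of_card_le h1 (by rw [h2]; exact hdeg v)
  have h4 : y ∈ ({p, q, r} : Finset V) := by rw [h3]; simp [hy]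
  simpa using h4

/-- The component of a vertex, as a finset. -/
noncomputable def comp (G : SimpleGraph V) (v : V) : Finset V := by
  classical exact univ.filter (fun w => G.Reachable v w)

lemma mem_comp {v w : V} : w ∈ comp G v ↔ G.Reachable v w := by
  classical
  simp [comp]

lemma closed_comp (v : V) : Closed G (comp G v) := by
  intro x hx y hxy
  rw [mem_comp] at hx ⊢
  exact hx.trans hxy.reachable

lemma comp_disjoint {S : Finset V} (hS : Closed G S) {v : V} (hv : v ∉ S) {x : V}
    (hx : x ∈ comp G v) : x ∉ S := by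
  intro hxS
  rw [mem_comp] at hx
  exact hv (hS.reach hxS hx.symm)

/-- One component at a time: the component has a vertex of degree at most two. -/
lemma extend_low (hdeg : ∀ v, (univ.filter (G.Adj v)).card ≤ 3) {S : Finset V} {f : V → ℤ}
    (hS : Closed G S) (h : State G S ∅ f) {v : V} (hv : v ∉ S) {w : V} (hw : G.Reachable v w)
    (hw2 : (univ.filter (G.Adj w)).card ≤ 2) :
    ∃ f' : V → ℤ, State G (comp G v ∪ S) ∅ f' := by
  obtain ⟨f', h'⟩ := build h _ (comp G v) rfl
    (Finset.disjoint_left.2 fun x hx => comp_disjoint hS hv hx)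
    (fun x hx y hy hxy => comp_disjoint hS hv hx (hS y hy x hxy.symm)) (by
      intro T hT hne
      obtain ⟨x, hx⟩ := hne
      by_cases hwT : w ∈ T
      · refine ⟨w, hwT, le_trans (Finset.card_le_card ?_) hw2⟩
        intro z hz
        simp [(Finset.mem_filter.1 hz).2]
      · exact exists_low hdeg hx hwT ((mem_comp.1 (hT hx)).symm.trans hw))
  exact ⟨f', h'.forget⟩

/-- One component at a time: the component contains a diamond which is not a `K_4`. -/
lemma extend_diamond (hdeg : ∀ v, (univ.filter (G.Adj v)).card ≤ 3) {S : Finset V} {f : V → ℤ}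
    (hS : Closed G S) (h : State G S ∅ f) {v : V} (hv : v ∉ S) {a b c d : V}
    (hva : G.Reachable v a) (hab : G.Adj a b) (hac : G.Adj a c) (hbc : G.Adj b c)
    (hdb : G.Adj d b) (hdc : G.Adj d c) (had : a ≠ d) (hnad : ¬ G.Adj a d) :
    ∃ f' : V → ℤ, State G (comp G v ∪ S) ∅ f' := by
  have hab' := hab.ne
  have hac' := hac.ne
  have hbc' := hbc.ne
  have hdb' := hdb.ne
  have hdc' := hdc.ne
  have haK : a ∈ comp G v := mem_comp.2 hva
  have hbK : b ∈ comp G v := closed_comp v a haK b hab
  have hcK : c ∈ comp G v := closed_comp v a haK c hac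
  have hdK : d ∈ comp G v := closed_comp v b hbK d hdb.symm
  set K : Finset V := comp G v \ {a, b, c} with hK
  have hKsub : K ⊆ comp G v := Finset.sdiff_subset
  have hno : ∀ x ∈ comp G v, ∀ y ∈ S, ¬ G.Adj x y :=
    fun x hx y hy hxy => comp_disjoint hS hv hx (hS y hy x hxy.symm)
  obtain ⟨f1, h1⟩ := build h _ K rfl
    (Finset.disjoint_left.2 fun x hx => comp_disjoint hS hv (hKsub hx))
    (fun x hx => hno x (hKsub hx)) (by
      intro T hT hne
      obtain ⟨x, hx⟩ := hne
      have haT : a ∉ T := by
        intro haT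
        have := hT haT
        simp [hK] at this
      exact exists_low hdeg hx haT ((mem_comp.1 (hKsub (hT hx))).symm.trans hva))
  have hdK1 : d ∈ K := by
    rw [hK, Finset.mem_sdiff]
    refine ⟨hdK, ?_⟩
    simp only [Finset.mem_insert, Finset.mem_singleton, not_or]
    exact ⟨had.symm, hdb', hdc'⟩
  have hnot : ∀ x, x = a ∨ x = b ∨ x = c → x ∉ K ∪ S := by
    intro x hx hx2
    rw [Finset.mem_union] at hx2
    rcases hx2 with hx2 | hx2
    · rw [hK, Finset.mem_sdiff] at hx2
      apply hx2.2
      simpa using hx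
    · rcases hx with rfl | rfl | rfl
      · exact comp_disjoint hS hv haK hx2
      · exact comp_disjoint hS hv hbK hx2
      · exact comp_disjoint hS hv hcK hx2
  have haN := hnot a (Or.inl rfl)
  have hbN := hnot b (Or.inr (Or.inl rfl))
  have hcN := hnot c (Or.inr (Or.inr rfl))
  have hsubR : (K ∪ S).filter (G.Adj a) ⊆ K := by
    intro y hy
    rw [Finset.mem_filter, Finset.mem_union] at hy
    rcases hy with ⟨hy | hy, hadj⟩
    · exact hy
    · exact absurd hadj (hno a haK y hy)
  obtain ⟨f2, h2⟩ := step2 (a := a) (b := b) (c := c) (d := d) h1 haN hbN hcN hab hac hbc hdK1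
    (by
      intro y hy
      constructor
      · intro hby
        rcases nbr_cases hdeg hab.symm hbc hdb.symm hac' had hdc'.symm hby with rfl | rfl | rfl
        · exact absurd hy haN
        · exact absurd hy hcN
        · rfl
      · rintro rfl; exact hdb.symm)
    (by
      intro y hy
      constructor
      · intro hcy
        rcases nbr_cases hdeg hac.symm hbc.symm hdc.symm hab' had hdb'.symm hcy with
          rfl | rfl | rfl
        · exact absurd hy haN
        · exact absurd hy hbN
        · rfl
      · rintro rfl; exact hdc.symm)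
    hsubR
    (by
      have h3 : insert b (insert c ((K ∪ S).filter (G.Adj a))) ⊆ univ.filter (G.Adj a) := by
        intro z hz
        simp only [Finset.mem_insert, Finset.mem_filter] at hz
        rcases hz with rfl | rfl | hz
        · simp [hab]
        · simp [hac]
        · simp [hz.2]
      have h4 : c ∉ (K ∪ S).filter (G.Adj a) := fun h => hcN (Finset.mem_filter.1 h).1
      have h5 : b ∉ insert c ((K ∪ S).filter (G.Adj a)) := by
        rw [Finset.mem_insert, not_or]
        exact ⟨hbc', fun h => hbN (Finset.mem_filter.1 h).1⟩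
      have h6 := Finset.card_le_card h3
      rw [Finset.card_insert_of_notMem h5, Finset.card_insert_of_notMem h4] at h6
      have := hdeg a
      omega)
    hnad
  refine ⟨f2, ?_⟩
  have e : ({a, b, c} : Finset V) ∪ (K ∪ S) = comp G v ∪ S := by
    rw [← Finset.union_assoc, hK, Finset.union_sdiff_of_subset]
    intro z hz
    simp only [Finset.mem_insert, Finset.mem_singleton] at hz
    rcases hz with rfl | rfl | rfl <;> assumption
  rwa [e] at h2

/-- One component at a time: a `K_4` component. -/
lemma extend_K4 (hdeg : ∀ v, (univ.filter (G.Adj v)).card ≤ 3) {S : Finset V} {f : V → ℤ}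
    (hS : Closed G S) (h : State G S ∅ f) {v : V} (hv : v ∉ S) {a b c d : V}
    (hva : G.Reachable v a) (hab : G.Adj a b) (hac : G.Adj a c) (hbc : G.Adj b c)
    (hdb : G.Adj d b) (hdc : G.Adj d c) (had : a ≠ d) (hnad : G.Adj a d) :
    ∃ f' : V → ℤ, State G ({a, b, c, d} ∪ S) ∅ f' ∧ Closed G ({a, b, c, d} ∪ S) := by
  have hab' := hab.ne
  have hac' := hac.ne
  have hbc' := hbc.ne
  have hdb' := hdb.ne
  have hdc' := hdc.ne
  have haK : a ∈ comp G v := mem_comp.2 hva
  have hbK : b ∈ comp G v := closed_comp v a haK b hab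
  have hcK : c ∈ comp G v := closed_comp v a haK c hac
  have hdK : d ∈ comp G v := closed_comp v b hbK d hdb.symm
  have hno : ∀ x ∈ comp G v, ∀ y ∈ S, ¬ G.Adj x y :=
    fun x hx y hy hxy => comp_disjoint hS hv hx (hS y hy x hxy.symm)
  obtain ⟨f', h'⟩ := step3 (a := a) (b := b) (c := c) (d := d) h (comp_disjoint hS hv haK)
    (comp_disjoint hS hv hbK) (comp_disjoint hS hv hcK) (comp_disjoint hS hv hdK) hab hac hnad hbc
    hdb.symm hdc.symm (hno a haK) (hno b hbK) (hno c hcK) (hno d hdK)
  refine ⟨f', h', Closed.union ?_ hS⟩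
  intro x hx y hxy
  simp only [Finset.mem_insert, Finset.mem_singleton] at hx ⊢
  rcases hx with rfl | rfl | rfl | rfl
  · rcases nbr_cases hdeg hab hac hnad hbc' hdb'.symm hdc'.symm hxy with rfl | rfl | rfl <;> simp
  · rcases nbr_cases hdeg hab.symm hbc hdb.symm hac' had hdc'.symm hxy with
      rfl | rfl | rfl <;> simp
  · rcases nbr_cases hdeg hac.symm hbc.symm hdc.symm hab' had hdb'.symm hxy with
      rfl | rfl | rfl <;> simp
  · rcases nbr_cases hdeg hnad.symm hdb hdc hab' hac' hbc' hxy with rfl | rfl | rfl <;> simp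

/-- Conversion of a complete state into a labelling by positive integers. -/
lemma State.toNat {f : V → ℤ} (h : State G univ ∅ f) :
    ∃ g : V → ℕ, Function.Injective g ∧ (∀ v, 0 < g v) ∧
      ∀ u v : V, u ≠ v → (G.Adj u v ↔ IsSquare (g u * g v + 1)) := by
  have hpos : ∀ v, 48 < f v := fun v => h.big v (Finset.mem_univ v)
  have hcast : ∀ v, (((f v).toNat : ℕ) : ℤ) = f v := fun v =>
    Int.toNat_of_nonneg (by have := hpos v; omega)
  refine ⟨fun v => (f v).toNat, ?_, ?_, ?_⟩
  · intro u v huv
    by_contra hne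
    apply h.ne u (Finset.mem_univ u) v (Finset.mem_univ v) hne
    rw [← hcast u, ← hcast v]
    exact congrArg _ huv
  · intro v
    have := hpos v
    have := hcast v
    simp only
    omega
  · intro u v huv
    rw [h.adj u (Finset.mem_univ u) v (Finset.mem_univ v) huv]
    simp only
    rw [← hcast u, ← hcast v]
    constructor
    · rintro ⟨r, hr⟩
      refine ⟨r.natAbs, ?_⟩
      have h1 : (((f u).toNat * (f v).toNat + 1 : ℕ) : ℤ) = r * r := by
        push_cast; rw [← hr]
      have h2 : ((r.natAbs * r.natAbs : ℕ) : ℤ) = r * r := by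
        rw [Int.natAbs_mul_self]
      rw [← h2] at h1
      exact_mod_cast h1
    · rintro ⟨r, hr⟩
      refine ⟨(r : ℤ), ?_⟩
      exact_mod_cast hr

/-- The induction over components. -/
theorem main_aux (hdeg : ∀ v, (univ.filter (G.Adj v)).card ≤ 3)
    (hcomp : ∀ v : V, (∃ w, G.Reachable v w ∧ (univ.filter (G.Adj w)).card ≤ 2) ∨
      ∃ a b c d : V, G.Reachable v a ∧ a ≠ d ∧ G.Adj a b ∧ G.Adj a c ∧ G.Adj b c ∧
        G.Adj d b ∧ G.Adj d c) (n : ℕ) :
    ∀ S : Finset V, (univ \ S).card = n → Closed G S → (∃ f, State G S ∅ f) →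
      ∃ f, State G univ ∅ f := by
  induction n using Nat.strong_induction_on with
  | _ n ih =>
    intro S hn hS hf
    by_cases hSu : S = univ
    · subst hSu; exact hf
    · obtain ⟨v, hv⟩ : ∃ v, v ∉ S := by
        by_contra hcon
        push Not at hcon
        exact hSu (Finset.eq_univ_of_forall hcon)
      obtain ⟨f, hf⟩ := hf
      have hlt : ∀ T : Finset V, (∃ x ∈ T, x ∉ S) → (univ \ (T ∪ S)).card < n := by
        rintro T ⟨x, hxT, hxS⟩
        rw [← hn]
        apply Finset.card_lt_card
        rw [Finset.ssubset_iff_of_subset (Finset.sdiff_subset_sdiff (Finset.Subset.refl _)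
          Finset.subset_union_right)]
        exact ⟨x, by simp [hxS], by simp [hxT]⟩
      have hvK : v ∈ comp G v := mem_comp.2 (SimpleGraph.Reachable.refl v)
      rcases hcomp v with ⟨w, hvw, hw2⟩ | ⟨a, b, c, d, hva, had, hab, hac, hbc, hdb, hdc⟩
      · obtain ⟨f', h'⟩ := extend_low hdeg hS hf hv hvw hw2
        exact ih _ (hlt (comp G v) ⟨v, hvK, hv⟩) _ rfl ((closed_comp v).union hS) ⟨f', h'⟩
      · by_cases hnad : G.Adj a d
        · obtain ⟨f', h', hcl⟩ := extend_K4 hdeg hS hf hv hva hab hac hbc hdb hdc had hnad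
          exact ih _ (hlt {a, b, c, d} ⟨a, by simp, comp_disjoint hS hv (mem_comp.2 hva)⟩) _ rfl
            hcl ⟨f', h'⟩
        · obtain ⟨f', h'⟩ := extend_diamond hdeg hS hf hv hva hab hac hbc hdb hdc had hnad
          exact ih _ (hlt (comp G v) ⟨v, hvK, hv⟩) _ rfl ((closed_comp v).union hS) ⟨f', h'⟩

end

end Pool.Agent.Helper7.Dio
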