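import Mathlib

/-!
# Slack spaces of point configurations

Helper file for the non-rational 6-polytope with 11 vertices.
-/

set_option autoImplicit false

namespace Pool.Agent.Helper7.NRP

open Finset

/-- The slack space of a point configuration: all vectors of values `c - a • x_i` of an affine
function at the points. -/
def slack {n e : ℕ} (x : Fin n → Fin e → ℝ) : Submodule ℝ (Fin n → ℝ) where
  carrier := {w | ∃ a : Fin e → ℝ, ∃ c : ℝ, ∀ i, w i = c - ∑ k, a k * x i k}
  zero_mem' := ⟨0, 0, by simp⟩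
  add_mem' := by
    rintro v w ⟨a, c, h⟩ ⟨a', c', h'⟩
    refine ⟨a + a', c + c', fun i => ?_⟩
    simp only [Pi.add_apply, h i, h' i, add_mul, Finset.sum_add_distrib]
    ring
  smul_mem' := by
    rintro t w ⟨a, c, h⟩
    refine ⟨t • a, t * c, fun i => ?_⟩
    simp only [Pi.smul_apply, smul_eq_mul, h i, mul_assoc, ← Finset.mul_sum]
    ring

/-- `S` is the zero set of a nonnegative element of `W`. -/
def IsFace {n : ℕ} (W : Submodule ℝ (Fin n → ℝ)) (S : Set (Fin n)) : Prop :=
  ∃ w ∈ W, ∀ i, 0 ≤ w i ∧ (i ∈ S ↔ w i = 0)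

theorem isFace_slack_iff {n e : ℕ} (x : Fin n → Fin e → ℝ) (S : Set (Fin n)) :
    IsFace (slack x) S ↔ ∃ a : Fin e → ℝ, ∃ c : ℝ, ∀ i : Fin n,
      (∑ k, a k * x i k) ≤ c ∧ (i ∈ S ↔ (∑ k, a k * x i k) = c) := by
  constructor
  · rintro ⟨w, ⟨a, c, h⟩, hw⟩
    refine ⟨a, c, fun i => ⟨?_, ?_⟩⟩
    · have := (hw i).1
      rw [h i] at this
      linarith
    · rw [(hw i).2, h i, sub_eq_zero]
      exact eq_comm
  · rintro ⟨a, c, h⟩
    refine ⟨fun i => c - ∑ k, a k * x i k, ⟨a, c, fun i => rfl⟩, fun i => ⟨?_, ?_⟩⟩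
    · have := (h i).1
      simp only
      linarith
    · rw [(h i).2, sub_eq_zero]
      exact eq_comm

/-- `C` is a positive circuit of `W`: some nonnegative element of `W` has support `C`, and every
element of `W` supported in `C` is a multiple of it. -/
def PosCirc {n : ℕ} (W : Submodule ℝ (Fin n → ℝ)) (C : Set (Fin n)) : Prop :=
  ∃ s ∈ W, (∀ i ∈ C, 0 < s i) ∧ (∀ i ∉ C, s i = 0) ∧
    ∀ w ∈ W, (∀ i ∉ C, w i = 0) → ∃ t : ℝ, w = t • s

/-- The property of being a positive circuit can be read off from the faces. -/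
theorem PosCirc.transfer {n : ℕ} {W W' : Submodule ℝ (Fin n → ℝ)} {C : Set (Fin n)}
    (h : PosCirc W C) (hC : C.Nonempty) (hF : ∀ S, IsFace W S ↔ IsFace W' S) : PosCirc W' C := by
  obtain ⟨s, hsW, hpos, hzero, huniq⟩ := h
  have hface : IsFace W Cᶜ := by
    refine ⟨s, hsW, fun i => ⟨?_, ?_⟩⟩
    · by_cases hi : i ∈ C
      · exact (hpos i hi).le
      · exact (hzero i hi).ge
    · constructor
      · intro hi
        exact hzero i hi
      · intro h0 hi
        exact (hpos i hi).ne' h0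
  obtain ⟨s', hs'W, hs'⟩ := (hF _).1 hface
  have hpos' : ∀ i ∈ C, 0 < s' i := by
    intro i hi
    refine lt_of_le_of_ne (hs' i).1 (fun h0 => ?_)
    exact ((hs' i).2.2 h0.symm) hi
  have hzero' : ∀ i ∉ C, s' i = 0 := fun i hi => (hs' i).2.1 hi
  refine ⟨s', hs'W, hpos', hzero', ?_⟩
  intro w hw hw0
  classical
  -- minimise `w i / s' i` over `C`
  have hne : (Finset.univ.filter (fun i => i ∈ C)).Nonempty := by
    obtain ⟨i, hi⟩ := hC
    exact ⟨i, by simp [hi]⟩
  obtain ⟨i₀, hi₀, hmin⟩ := Finset.exists_min_image _ (fun i => w i / s' i) hne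
  have hi₀C : i₀ ∈ C := by simpa using hi₀
  set r := w i₀ / s' i₀ with hr
  refine ⟨r, ?_⟩
  -- the nonnegative vector `w - r s'`
  have hmem : w - r • s' ∈ W' := W'.sub_mem hw (W'.smul_mem r hs'W)
  have hnn : ∀ i, 0 ≤ (w - r • s') i := by
    intro i
    simp only [Pi.sub_apply, Pi.smul_apply, smul_eq_mul]
    by_cases hi : i ∈ C
    · have h1 : r ≤ w i / s' i := hmin i (by simp [hi])
      rw [le_div_iff₀ (hpos' i hi)] at h1
      linarith
    · rw [hzero' i hi, hw0 i hi]
      simp
  have hfaceZ : IsFace W' {i | (w - r • s') i = 0} := ⟨_, hmem, fun i => ⟨hnn i, Iff.rfl⟩⟩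
  obtain ⟨u, huW, hu⟩ := (hF _).2 hfaceZ
  obtain ⟨t, ht⟩ := huniq u huW (by
    intro i hi
    refine (hu i).2.1 ?_
    show (w - r • s') i = 0
    simp [hzero' i hi, hw0 i hi])
  have hi₀z : u i₀ = 0 := by
    refine (hu i₀).2.1 ?_
    show (w - r • s') i₀ = 0
    have := (hpos' i₀ hi₀C).ne'
    simp only [Pi.sub_apply, Pi.smul_apply, smul_eq_mul, hr]
    field_simp
    simp
  have ht0 : t = 0 := by
    rw [ht] at hi₀z
    simp only [Pi.smul_apply, smul_eq_mul] at hi₀z
    rcases mul_eq_zero.1 hi₀z with h | h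
    · exact h
    · exact absurd h (hpos i₀ hi₀C).ne'
  have hu0 : ∀ i, u i = 0 := by
    intro i
    rw [ht, ht0]
    simp
  funext i
  have h1 : (w - r • s') i = 0 := (hu i).2.2 (hu0 i)
  simp only [Pi.sub_apply] at h1
  linarith

/-- A `ℚ`-linear retraction of `ℝ` onto `ℚ`. -/
theorem exists_retraction : ∃ π : ℝ →ₗ[ℚ] ℚ, ∀ r : ℚ, π (r : ℝ) = r := by
  have hinj : LinearMap.ker (Algebra.linearMap ℚ ℝ) = ⊥ := by
    rw [LinearMap.ker_eq_bot]
    intro a b h
    simpa using h
  obtain ⟨π, hπ⟩ := LinearMap.exists_leftInverse_of_injective (Algebra.linearMap ℚ ℝ) hinj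
  refine ⟨π, fun r => ?_⟩
  have := LinearMap.congr_fun hπ r
  simpa using this

/-- If an element of the slack space of a rational configuration is determined by its values on
a set `K`, where these values are rational, then it is rational. -/
theorem rational_of_unique {n e : ℕ} (q : Fin n → Fin e → ℚ) (K : Set (Fin n))
    (huniq : ∀ w ∈ slack (fun i k => ((q i k : ℚ) : ℝ)), (∀ i ∈ K, w i = 0) → w = 0)
    (w : Fin n → ℝ) (hw : w ∈ slack (fun i k => ((q i k : ℚ) : ℝ)))
    (hK : ∀ i ∈ K, ∃ r : ℚ, w i = r) : ∀ i, ∃ r : ℚ, w i = r := by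
  obtain ⟨π, hπ⟩ := exists_retraction
  obtain ⟨a, c, h⟩ := hw
  have hmem : (fun i => ((π (w i) : ℚ) : ℝ)) ∈ slack (fun i k => ((q i k : ℚ) : ℝ)) := by
    refine ⟨fun k => ((π (a k) : ℚ) : ℝ), ((π c : ℚ) : ℝ), fun i => ?_⟩
    have h1 : π (w i) = π c - ∑ k, π (a k) * q i k := by
      rw [h i, map_sub, map_sum]
      congr 1
      refine Finset.sum_congr rfl (fun k _ => ?_)
      have h2 : a k * ((q i k : ℚ) : ℝ) = (q i k) • a k := by
        rw [Rat.smul_def, mul_comm]
      rw [h2, map_smul, smul_eq_mul, mul_comm]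
    simp only [h1]
    push_cast
    rfl
  have hdiff := huniq ((fun i => ((π (w i) : ℚ) : ℝ)) - w)
    (Submodule.sub_mem _ hmem ⟨a, c, h⟩) (by
      intro i hi
      obtain ⟨r, hr⟩ := hK i hi
      simp only [Pi.sub_apply]
      rw [hr, hπ, sub_self])
  intro i
  refine ⟨π (w i), ?_⟩
  have := congrFun hdiff i
  simp only [Pi.sub_apply, Pi.zero_apply] at this
  linarith

/-- If a configuration has an affine function vanishing at `x i` and positive at all the other
points, for every `i`, then it is injective and in convex position. -/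
theorem convex_position {n e : ℕ} (x : Fin n → Fin e → ℝ)
    (h : ∀ i, ∃ w ∈ slack x, w i = 0 ∧ ∀ j, j ≠ i → 0 < w j) :
    Function.Injective x ∧ ∀ i, x i ∉ convexHull ℝ (x '' {j | j ≠ i}) := by
  constructor
  · intro i j hij
    by_contra hne
    obtain ⟨w, ⟨a, c, hw⟩, h0, hpos⟩ := h i
    have h1 := hpos j (fun h => hne h.symm)
    rw [hw j, ← hij, ← hw i, h0] at h1
    exact lt_irrefl _ h1
  · intro i hi
    obtain ⟨w, ⟨a, c, hw⟩, h0, hpos⟩ := h i
    have hconv : Convex ℝ {y : Fin e → ℝ | 0 < c - ∑ k, a k * y k} := by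
      intro y hy z hz s t hs ht hst
      simp only [Set.mem_ofPred_eq] at hy hz ⊢
      have e1 : c - ∑ k, a k * (s • y + t • z) k
          = s * (c - ∑ k, a k * y k) + t * (c - ∑ k, a k * z k) := by
        simp only [Pi.add_apply, Pi.smul_apply, smul_eq_mul, mul_add, Finset.sum_add_distrib]
        have e2 : ∑ k, a k * (s * y k) = s * ∑ k, a k * y k := by
          rw [Finset.mul_sum]; exact Finset.sum_congr rfl (fun k _ => by ring)
        have e3 : ∑ k, a k * (t * z k) = t * ∑ k, a k * z k := by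
          rw [Finset.mul_sum]; exact Finset.sum_congr rfl (fun k _ => by ring)
        rw [e2, e3]
        have : c = s * c + t * c := by rw [← add_mul, hst, one_mul]
        linarith
      rw [e1]
      rcases hs.eq_or_lt with hs0 | hs0
      · have : t = 1 := by linarith
        rw [← hs0, this]
        linarith
      · have h1 := mul_pos hs0 hy
        have h2 := mul_nonneg ht hz.le
        linarith
    have hsub : x '' {j | j ≠ i} ⊆ {y : Fin e → ℝ | 0 < c - ∑ k, a k * y k} := by
      rintro _ ⟨j, hj, rfl⟩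
      have := hpos j hj
      rw [hw j] at this
      exact this
    have := convexHull_min hsub hconv hi
    simp only [Set.mem_ofPred_eq] at this
    rw [← hw i, h0] at this
    exact lt_irrefl _ this

end Pool.Agent.Helper7.NRP
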