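import Pool.Agent.Helper7.NonRatPoly

/-!
# The 6-polytope with 11 vertices
-/

set_option autoImplicit false

namespace Pool.Agent.Helper7.NRP

open Finset

/-- The 11 points in `ℝ⁶` (to be used with the golden ratio `f`). -/
noncomputable def pts (f : ℝ) : Fin 11 → Fin 6 → ℝ :=
  ![![1, 1, -1, -1, 2, -1],
    ![-1, 0, 1, f, -(1 + f), 2],
    ![-1, -1, f, f, -2 * f, 1],
    ![(3 - f) / 5, (2 * f - 1) / 5, -((2 * f - 1) / 5), -((3 - f) / 5), (2 + f) / 5, -((3 - f) / 5)],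
    ![1, 0, 0, 0, 0, 0],
    ![0, 1, 0, 0, 0, 0],
    ![0, 0, 1, 0, 0, 0],
    ![0, 0, 0, 1, 0, 0],
    ![0, 0, 0, 0, 1, 0],
    ![0, 0, 0, 0, 0, 1],
    ![0, 0, 0, 0, 0, 0]]

/-- The slack space of the configuration is cut out by four linear equations. -/
theorem mem_slack_pts {f : ℝ} (hf : f ^ 2 = f + 1) (w : Fin 11 → ℝ) : w ∈ slack (pts f) ↔
    (w 0 - w 4 - w 5 + w 6 + w 7 - 2 * w 8 + w 9 = 0 ∧
     -w 1 - w 4 + w 6 + f * w 7 - (1 + f) * w 8 + 2 * w 9 = 0 ∧
     -w 2 - w 4 - w 5 + f * w 6 + f * w 7 - 2 * f * w 8 + w 9 + 2 * w 10 = 0 ∧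
     (2 + f) * w 3 - w 4 - f * w 5 + f * w 6 + w 7 - (1 + f) * w 8 + w 9 - 2 * w 10 = 0) := by
  constructor
  · rintro ⟨a, c, h⟩
    have h0 := h 0
    have h1 := h 1
    have h2 := h 2
    have h3 := h 3
    have h4 := h 4
    have h5 := h 5
    have h6 := h 6
    have h7 := h 7
    have h8 := h 8
    have h9 := h 9
    have h10 := h 10
    simp [pts, Fin.sum_univ_succ] at h0 h1 h2 h3 h4 h5 h6 h7 h8 h9 h10
    refine ⟨?_, ?_, ?_, ?_⟩
    · rw [h0, h4, h5, h6, h7, h8, h9]; ring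
    · rw [h1, h4, h6, h7, h8, h9]; ring
    · rw [h2, h4, h5, h6, h7, h8, h9, h10]; ring
    · rw [h3, h4, h5, h6, h7, h8, h9, h10]
      linear_combination ((a 0 - 2 * a 1 + 2 * a 2 - a 3 - a 4 - a 5) / 5) * hf
  · rintro ⟨g0, g1, g2, g3⟩
    refine ⟨![w 10 - w 4, w 10 - w 5, w 10 - w 6, w 10 - w 7, w 10 - w 8, w 10 - w 9], w 10, ?_⟩
    have e3 : w 3 = (3 - f) / 5 * (w 4 + f * w 5 - f * w 6 - w 7 + (1 + f) * w 8 - w 9
        + 2 * w 10) := by
      linear_combination (3 - f) / 5 * g3 + (w 3 / 5) * hf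
    intro i
    fin_cases i
    · simp [pts, Fin.sum_univ_succ]
      linear_combination g0
    · simp [pts, Fin.sum_univ_succ]
      linear_combination -g1
    · simp [pts, Fin.sum_univ_succ]
      linear_combination -g2
    · simp [pts, Fin.sum_univ_succ]
      rw [e3]
      linear_combination (-(w 5 - w 6 + w 8) / 5) * hf
    all_goals simp [pts, Fin.sum_univ_succ]


set_option linter.unusedSectionVars false
set_option linter.unusedTactic false
set_option linter.unreachableTactic false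
set_option linter.unnecessarySeqFocus false

section circuits

variable {f : ℝ} (hf : f ^ 2 = f + 1) (hf1 : 1 < f) (hf2 : f < 2)

include hf hf1 hf2

theorem circ1 : PosCirc (slack (pts f)) {1, 4, 9} := by
  refine ⟨![0, 1, 0, 0, 1, 0, 0, 0, 0, 1, 0], ?_, ?_, ?_, ?_⟩
  · rw [mem_slack_pts hf]
    refine ⟨?_, ?_, ?_, ?_⟩
    · show (0 : ℝ) - (1) - (0) + (0) + (0) - 2 * (0) + (1) = 0
      ring
    · show -(1 : ℝ) - (1) + (0) + f * (0) - (1 + f) * (0) + 2 * (1) = 0
      ring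
    · show -(0 : ℝ) - (1) - (0) + f * (0) + f * (0) - 2 * f * (0) + (1) + 2 * (0) = 0
      ring
    · show (2 + f) * (0 : ℝ) - (1) - f * (0) + f * (0) + (0) - (1 + f) * (0) + (1) - 2 * (0) = 0
      ring
  · intro i hi
    fin_cases i <;> simp at hi ⊢
  · intro i hi
    fin_cases i <;> simp at hi ⊢
  · intro w hw hz
    rw [mem_slack_pts hf] at hw
    obtain ⟨g0, g1, g2, g3⟩ := hw
    have z0 := hz 0 (by simp)
    have z2 := hz 2 (by simp)
    have z3 := hz 3 (by simp)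
    have z5 := hz 5 (by simp)
    have z6 := hz 6 (by simp)
    have z7 := hz 7 (by simp)
    have z8 := hz 8 (by simp)
    have z10 := hz 10 (by simp)
    rw [z0, z5, z6, z7, z8] at g0
    rw [z6, z7, z8] at g1
    rw [z2, z5, z6, z7, z8, z10] at g2
    rw [z3, z5, z6, z7, z8, z10] at g3
    refine ⟨w 4, ?_⟩
    funext i
    fin_cases i
    · show w 0 = w 4 * 0
      rw [z0, mul_zero]
    · show w 1 = w 4 * (1)
      linear_combination 2 * g0 - g1
    · show w 2 = w 4 * 0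
      rw [z2, mul_zero]
    · show w 3 = w 4 * 0
      rw [z3, mul_zero]
    · show w 4 = w 4 * (1)
      ring
    · show w 5 = w 4 * 0
      rw [z5, mul_zero]
    · show w 6 = w 4 * 0
      rw [z6, mul_zero]
    · show w 7 = w 4 * 0
      rw [z7, mul_zero]
    · show w 8 = w 4 * 0
      rw [z8, mul_zero]
    · show w 9 = w 4 * (1)
      linear_combination g0
    · show w 10 = w 4 * 0
      rw [z10, mul_zero]

theorem circ2 : PosCirc (slack (pts f)) {2, 3, 10} := by
  refine ⟨![0, 0, 2 * (2 + f), 2, 0, 0, 0, 0, 0, 0, 2 + f], ?_, ?_, ?_, ?_⟩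
  · rw [mem_slack_pts hf]
    refine ⟨?_, ?_, ?_, ?_⟩
    · show (0 : ℝ) - (0) - (0) + (0) + (0) - 2 * (0) + (0) = 0
      ring
    · show -(0 : ℝ) - (0) + (0) + f * (0) - (1 + f) * (0) + 2 * (0) = 0
      ring
    · show -(2 * (2 + f) : ℝ) - (0) - (0) + f * (0) + f * (0) - 2 * f * (0) + (0) + 2 * (2 + f) = 0
      ring
    · show (2 + f) * (2 : ℝ) - (0) - f * (0) + f * (0) + (0) - (1 + f) * (0) + (0) - 2 * (2 + f) = 0
      ring
  · intro i hi
    fin_cases i <;> simp at hi ⊢ <;> linarith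
  · intro i hi
    fin_cases i <;> simp at hi ⊢
  · intro w hw hz
    rw [mem_slack_pts hf] at hw
    obtain ⟨g0, g1, g2, g3⟩ := hw
    have z0 := hz 0 (by simp)
    have z1 := hz 1 (by simp)
    have z4 := hz 4 (by simp)
    have z5 := hz 5 (by simp)
    have z6 := hz 6 (by simp)
    have z7 := hz 7 (by simp)
    have z8 := hz 8 (by simp)
    have z9 := hz 9 (by simp)
    rw [z0, z4, z5, z6, z7, z8, z9] at g0
    rw [z1, z4, z6, z7, z8, z9] at g1
    rw [z4, z5, z6, z7, z8, z9] at g2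
    rw [z4, z5, z6, z7, z8, z9] at g3
    refine ⟨w 3 / 2, ?_⟩
    funext i
    fin_cases i
    · show w 0 = w 3 / 2 * 0
      rw [z0, mul_zero]
    · show w 1 = w 3 / 2 * 0
      rw [z1, mul_zero]
    · show w 2 = w 3 / 2 * (2 * (2 + f))
      linear_combination -g2 - g3
    · show w 3 = w 3 / 2 * (2)
      ring
    · show w 4 = w 3 / 2 * 0
      rw [z4, mul_zero]
    · show w 5 = w 3 / 2 * 0
      rw [z5, mul_zero]
    · show w 6 = w 3 / 2 * 0
      rw [z6, mul_zero]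
    · show w 7 = w 3 / 2 * 0
      rw [z7, mul_zero]
    · show w 8 = w 3 / 2 * 0
      rw [z8, mul_zero]
    · show w 9 = w 3 / 2 * 0
      rw [z9, mul_zero]
    · show w 10 = w 3 / 2 * (2 + f)
      linear_combination -(1/2) * g3

theorem circ3 : PosCirc (slack (pts f)) {6, 7, 8} := by
  refine ⟨![0, 0, 0, 0, 0, 0, 1, 1, 1, 0, 0], ?_, ?_, ?_, ?_⟩
  · rw [mem_slack_pts hf]
    refine ⟨?_, ?_, ?_, ?_⟩
    · show (0 : ℝ) - (0) - (0) + (1) + (1) - 2 * (1) + (0) = 0
      ring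
    · show -(0 : ℝ) - (0) + (1) + f * (1) - (1 + f) * (1) + 2 * (0) = 0
      ring
    · show -(0 : ℝ) - (0) - (0) + f * (1) + f * (1) - 2 * f * (1) + (0) + 2 * (0) = 0
      ring
    · show (2 + f) * (0 : ℝ) - (0) - f * (0) + f * (1) + (1) - (1 + f) * (1) + (0) - 2 * (0) = 0
      ring
  · intro i hi
    fin_cases i <;> simp at hi ⊢
  · intro i hi
    fin_cases i <;> simp at hi ⊢
  · intro w hw hz
    rw [mem_slack_pts hf] at hw
    obtain ⟨g0, g1, g2, g3⟩ := hw
    have z0 := hz 0 (by simp)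
    have z1 := hz 1 (by simp)
    have z2 := hz 2 (by simp)
    have z3 := hz 3 (by simp)
    have z4 := hz 4 (by simp)
    have z5 := hz 5 (by simp)
    have z9 := hz 9 (by simp)
    have z10 := hz 10 (by simp)
    rw [z0, z4, z5, z9] at g0
    rw [z1, z4, z9] at g1
    rw [z2, z4, z5, z9, z10] at g2
    rw [z3, z4, z5, z9, z10] at g3
    have e7 : w 7 = w 8 := by
      have h1 : (f - 1) * w 7 = (f - 1) * w 8 := by linear_combination g1 - g0
      exact mul_left_cancel₀ (by linarith) h1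
    refine ⟨w 8, ?_⟩
    funext i
    fin_cases i
    · show w 0 = w 8 * 0
      rw [z0, mul_zero]
    · show w 1 = w 8 * 0
      rw [z1, mul_zero]
    · show w 2 = w 8 * 0
      rw [z2, mul_zero]
    · show w 3 = w 8 * 0
      rw [z3, mul_zero]
    · show w 4 = w 8 * 0
      rw [z4, mul_zero]
    · show w 5 = w 8 * 0
      rw [z5, mul_zero]
    · show w 6 = w 8 * (1)
      linear_combination g0 - e7
    · show w 7 = w 8 * (1)
      linear_combination e7
    · show w 8 = w 8 * (1)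
      ring
    · show w 9 = w 8 * 0
      rw [z9, mul_zero]
    · show w 10 = w 8 * 0
      rw [z10, mul_zero]

theorem circ4 : PosCirc (slack (pts f)) {0, 3, 4, 7} := by
  refine ⟨![2 * f - 1, 0, 0, f - 1, 3 * f + 1, 0, 0, 2 + f, 0, 0, 0], ?_, ?_, ?_, ?_⟩
  · rw [mem_slack_pts hf]
    refine ⟨?_, ?_, ?_, ?_⟩
    · show (2 * f - 1 : ℝ) - (3 * f + 1) - (0) + (0) + (2 + f) - 2 * (0) + (0) = 0
      ring
    · show -(0 : ℝ) - (3 * f + 1) + (0) + f * (2 + f) - (1 + f) * (0) + 2 * (0) = 0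
      linear_combination hf
    · show -(0 : ℝ) - (3 * f + 1) - (0) + f * (0) + f * (2 + f) - 2 * f * (0) + (0) + 2 * (0) = 0
      linear_combination hf
    · show (2 + f) * (f - 1 : ℝ) - (3 * f + 1) - f * (0) + f * (0) + (2 + f) - (1 + f) * (0) + (0) - 2 * (0) = 0
      linear_combination hf
  · intro i hi
    fin_cases i <;> simp at hi ⊢ <;> linarith
  · intro i hi
    fin_cases i <;> simp at hi ⊢
  · intro w hw hz
    rw [mem_slack_pts hf] at hw
    obtain ⟨g0, g1, g2, g3⟩ := hw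
    have z1 := hz 1 (by simp)
    have z2 := hz 2 (by simp)
    have z5 := hz 5 (by simp)
    have z6 := hz 6 (by simp)
    have z8 := hz 8 (by simp)
    have z9 := hz 9 (by simp)
    have z10 := hz 10 (by simp)
    rw [z5, z6, z8, z9] at g0
    rw [z1, z6, z8, z9] at g1
    rw [z2, z5, z6, z8, z9, z10] at g2
    rw [z5, z6, z8, z9, z10] at g3
    refine ⟨w 7 * (3 - f) / 5, ?_⟩
    funext i
    fin_cases i
    · show w 0 = w 7 * (3 - f) / 5 * (2 * f - 1)
      linear_combination g0 - g1 + (2 * w 7 / 5) * hf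
    · show w 1 = w 7 * (3 - f) / 5 * 0
      rw [z1, mul_zero]
    · show w 2 = w 7 * (3 - f) / 5 * 0
      rw [z2, mul_zero]
    · show w 3 = w 7 * (3 - f) / 5 * (f - 1)
      linear_combination (3 - f) / 5 * (g3 - g1) + (w 3 / 5) * hf
    · show w 4 = w 7 * (3 - f) / 5 * (3 * f + 1)
      linear_combination -g1 + (3 * w 7 / 5) * hf
    · show w 5 = w 7 * (3 - f) / 5 * 0
      rw [z5, mul_zero]
    · show w 6 = w 7 * (3 - f) / 5 * 0
      rw [z6, mul_zero]
    · show w 7 = w 7 * (3 - f) / 5 * (2 + f)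
      linear_combination (w 7 / 5) * hf
    · show w 8 = w 7 * (3 - f) / 5 * 0
      rw [z8, mul_zero]
    · show w 9 = w 7 * (3 - f) / 5 * 0
      rw [z9, mul_zero]
    · show w 10 = w 7 * (3 - f) / 5 * 0
      rw [z10, mul_zero]

theorem circ5 : PosCirc (slack (pts f)) {0, 3, 5, 10} := by
  refine ⟨![4 + 2 * f, 0, 0, 2 * f + 2, 0, 4 + 2 * f, 0, 0, 0, 0, 2 + f], ?_, ?_, ?_, ?_⟩
  · rw [mem_slack_pts hf]
    refine ⟨?_, ?_, ?_, ?_⟩
    · show (4 + 2 * f : ℝ) - (0) - (4 + 2 * f) + (0) + (0) - 2 * (0) + (0) = 0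
      ring
    · show -(0 : ℝ) - (0) + (0) + f * (0) - (1 + f) * (0) + 2 * (0) = 0
      ring
    · show -(0 : ℝ) - (0) - (4 + 2 * f) + f * (0) + f * (0) - 2 * f * (0) + (0) + 2 * (2 + f) = 0
      ring
    · show (2 + f) * (2 * f + 2 : ℝ) - (0) - f * (4 + 2 * f) + f * (0) + (0) - (1 + f) * (0) + (0) - 2 * (2 + f) = 0
      ring
  · intro i hi
    fin_cases i <;> simp at hi ⊢ <;> linarith
  · intro i hi
    fin_cases i <;> simp at hi ⊢
  · intro w hw hz
    rw [mem_slack_pts hf] at hw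
    obtain ⟨g0, g1, g2, g3⟩ := hw
    have z1 := hz 1 (by simp)
    have z2 := hz 2 (by simp)
    have z4 := hz 4 (by simp)
    have z6 := hz 6 (by simp)
    have z7 := hz 7 (by simp)
    have z8 := hz 8 (by simp)
    have z9 := hz 9 (by simp)
    rw [z4, z6, z7, z8, z9] at g0
    rw [z1, z4, z6, z7, z8, z9] at g1
    rw [z2, z4, z6, z7, z8, z9] at g2
    rw [z4, z6, z7, z8, z9] at g3
    refine ⟨w 10 * (3 - f) / 5, ?_⟩
    funext i
    fin_cases i
    · show w 0 = w 10 * (3 - f) / 5 * (4 + 2 * f)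
      linear_combination g0 - g2 + (2 * w 10 / 5) * hf
    · show w 1 = w 10 * (3 - f) / 5 * 0
      rw [z1, mul_zero]
    · show w 2 = w 10 * (3 - f) / 5 * 0
      rw [z2, mul_zero]
    · show w 3 = w 10 * (3 - f) / 5 * (2 * f + 2)
      linear_combination (3 - f) / 5 * (g3 - f * g2) + (w 3 / 5) * hf
    · show w 4 = w 10 * (3 - f) / 5 * 0
      rw [z4, mul_zero]
    · show w 5 = w 10 * (3 - f) / 5 * (4 + 2 * f)
      linear_combination -g2 + (2 * w 10 / 5) * hf
    · show w 6 = w 10 * (3 - f) / 5 * 0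
      rw [z6, mul_zero]
    · show w 7 = w 10 * (3 - f) / 5 * 0
      rw [z7, mul_zero]
    · show w 8 = w 10 * (3 - f) / 5 * 0
      rw [z8, mul_zero]
    · show w 9 = w 10 * (3 - f) / 5 * 0
      rw [z9, mul_zero]
    · show w 10 = w 10 * (3 - f) / 5 * (2 + f)
      linear_combination (w 10 / 5) * hf

theorem circ6 : PosCirc (slack (pts f)) {0, 4, 6, 9} := by
  refine ⟨![f - 1, 0, 0, 0, 2 * f - 1, 0, 1, 0, 0, f - 1, 0], ?_, ?_, ?_, ?_⟩
  · rw [mem_slack_pts hf]
    refine ⟨?_, ?_, ?_, ?_⟩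
    · show (f - 1 : ℝ) - (2 * f - 1) - (0) + (1) + (0) - 2 * (0) + (f - 1) = 0
      ring
    · show -(0 : ℝ) - (2 * f - 1) + (1) + f * (0) - (1 + f) * (0) + 2 * (f - 1) = 0
      ring
    · show -(0 : ℝ) - (2 * f - 1) - (0) + f * (1) + f * (0) - 2 * f * (0) + (f - 1) + 2 * (0) = 0
      ring
    · show (2 + f) * (0 : ℝ) - (2 * f - 1) - f * (0) + f * (1) + (0) - (1 + f) * (0) + (f - 1) - 2 * (0) = 0
      ring
  · intro i hi
    fin_cases i <;> simp at hi ⊢ <;> linarith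
  · intro i hi
    fin_cases i <;> simp at hi ⊢
  · intro w hw hz
    rw [mem_slack_pts hf] at hw
    obtain ⟨g0, g1, g2, g3⟩ := hw
    have z1 := hz 1 (by simp)
    have z2 := hz 2 (by simp)
    have z3 := hz 3 (by simp)
    have z5 := hz 5 (by simp)
    have z7 := hz 7 (by simp)
    have z8 := hz 8 (by simp)
    have z10 := hz 10 (by simp)
    rw [z5, z7, z8] at g0
    rw [z1, z7, z8] at g1
    rw [z2, z5, z7, z8, z10] at g2
    rw [z3, z5, z7, z8, z10] at g3
    refine ⟨w 6, ?_⟩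
    funext i
    fin_cases i
    · show w 0 = w 6 * (f - 1)
      linear_combination g0 - g2
    · show w 1 = w 6 * 0
      rw [z1, mul_zero]
    · show w 2 = w 6 * 0
      rw [z2, mul_zero]
    · show w 3 = w 6 * 0
      rw [z3, mul_zero]
    · show w 4 = w 6 * (2 * f - 1)
      linear_combination g1 - 2 * g2
    · show w 5 = w 6 * 0
      rw [z5, mul_zero]
    · show w 6 = w 6 * (1)
      ring
    · show w 7 = w 6 * 0
      rw [z7, mul_zero]
    · show w 8 = w 6 * 0
      rw [z8, mul_zero]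
    · show w 9 = w 6 * (f - 1)
      linear_combination g1 - g2
    · show w 10 = w 6 * 0
      rw [z10, mul_zero]

theorem circ7 : PosCirc (slack (pts f)) {0, 5, 6, 8} := by
  refine ⟨![2 - f, 0, 0, 0, 0, 1, 1 + f, 0, 1, 0, 0], ?_, ?_, ?_, ?_⟩
  · rw [mem_slack_pts hf]
    refine ⟨?_, ?_, ?_, ?_⟩
    · show (2 - f : ℝ) - (0) - (1) + (1 + f) + (0) - 2 * (1) + (0) = 0
      ring
    · show -(0 : ℝ) - (0) + (1 + f) + f * (0) - (1 + f) * (1) + 2 * (0) = 0
      ring
    · show -(0 : ℝ) - (0) - (1) + f * (1 + f) + f * (0) - 2 * f * (1) + (0) + 2 * (0) = 0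
      linear_combination hf
    · show (2 + f) * (0 : ℝ) - (0) - f * (1) + f * (1 + f) + (0) - (1 + f) * (1) + (0) - 2 * (0) = 0
      linear_combination hf
  · intro i hi
    fin_cases i <;> simp at hi ⊢ <;> linarith
  · intro i hi
    fin_cases i <;> simp at hi ⊢
  · intro w hw hz
    rw [mem_slack_pts hf] at hw
    obtain ⟨g0, g1, g2, g3⟩ := hw
    have z1 := hz 1 (by simp)
    have z2 := hz 2 (by simp)
    have z3 := hz 3 (by simp)
    have z4 := hz 4 (by simp)
    have z7 := hz 7 (by simp)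
    have z9 := hz 9 (by simp)
    have z10 := hz 10 (by simp)
    rw [z4, z7, z9] at g0
    rw [z1, z4, z7, z9] at g1
    rw [z2, z4, z7, z9, z10] at g2
    rw [z3, z4, z7, z9, z10] at g3
    refine ⟨w 8, ?_⟩
    funext i
    fin_cases i
    · show w 0 = w 8 * (2 - f)
      linear_combination g0 - g2 + (f - 1) * g1 + w 8 * hf
    · show w 1 = w 8 * 0
      rw [z1, mul_zero]
    · show w 2 = w 8 * 0
      rw [z2, mul_zero]
    · show w 3 = w 8 * 0
      rw [z3, mul_zero]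
    · show w 4 = w 8 * 0
      rw [z4, mul_zero]
    · show w 5 = w 8 * (1)
      linear_combination -g2 + f * g1 + w 8 * hf
    · show w 6 = w 8 * (1 + f)
      linear_combination g1
    · show w 7 = w 8 * 0
      rw [z7, mul_zero]
    · show w 8 = w 8 * (1)
      ring
    · show w 9 = w 8 * 0
      rw [z9, mul_zero]
    · show w 10 = w 8 * 0
      rw [z10, mul_zero]

theorem circ8 : PosCirc (slack (pts f)) {1, 2, 4, 7} := by
  refine ⟨![0, f - 1, f - 1, 0, 1, 0, 0, 1, 0, 0, 0], ?_, ?_, ?_, ?_⟩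
  · rw [mem_slack_pts hf]
    refine ⟨?_, ?_, ?_, ?_⟩
    · show (0 : ℝ) - (1) - (0) + (0) + (1) - 2 * (0) + (0) = 0
      ring
    · show -(f - 1 : ℝ) - (1) + (0) + f * (1) - (1 + f) * (0) + 2 * (0) = 0
      ring
    · show -(f - 1 : ℝ) - (1) - (0) + f * (0) + f * (1) - 2 * f * (0) + (0) + 2 * (0) = 0
      ring
    · show (2 + f) * (0 : ℝ) - (1) - f * (0) + f * (0) + (1) - (1 + f) * (0) + (0) - 2 * (0) = 0
      ring
  · intro i hi
    fin_cases i <;> simp at hi ⊢ <;> linarith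
  · intro i hi
    fin_cases i <;> simp at hi ⊢
  · intro w hw hz
    rw [mem_slack_pts hf] at hw
    obtain ⟨g0, g1, g2, g3⟩ := hw
    have z0 := hz 0 (by simp)
    have z3 := hz 3 (by simp)
    have z5 := hz 5 (by simp)
    have z6 := hz 6 (by simp)
    have z8 := hz 8 (by simp)
    have z9 := hz 9 (by simp)
    have z10 := hz 10 (by simp)
    rw [z0, z5, z6, z8, z9] at g0
    rw [z6, z8, z9] at g1
    rw [z5, z6, z8, z9, z10] at g2
    rw [z3, z5, z6, z8, z9, z10] at g3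
    refine ⟨w 7, ?_⟩
    funext i
    fin_cases i
    · show w 0 = w 7 * 0
      rw [z0, mul_zero]
    · show w 1 = w 7 * (f - 1)
      linear_combination g0 - g1
    · show w 2 = w 7 * (f - 1)
      linear_combination g0 - g2
    · show w 3 = w 7 * 0
      rw [z3, mul_zero]
    · show w 4 = w 7 * (1)
      linear_combination -g0
    · show w 5 = w 7 * 0
      rw [z5, mul_zero]
    · show w 6 = w 7 * 0
      rw [z6, mul_zero]
    · show w 7 = w 7 * (1)
      ring
    · show w 8 = w 7 * 0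
      rw [z8, mul_zero]
    · show w 9 = w 7 * 0
      rw [z9, mul_zero]
    · show w 10 = w 7 * 0
      rw [z10, mul_zero]

theorem circ9 : PosCirc (slack (pts f)) {1, 2, 5, 6} := by
  refine ⟨![0, 1, f - 1, 0, 0, 1, 1, 0, 0, 0, 0], ?_, ?_, ?_, ?_⟩
  · rw [mem_slack_pts hf]
    refine ⟨?_, ?_, ?_, ?_⟩
    · show (0 : ℝ) - (0) - (1) + (1) + (0) - 2 * (0) + (0) = 0
      ring
    · show -(1 : ℝ) - (0) + (1) + f * (0) - (1 + f) * (0) + 2 * (0) = 0
      ring
    · show -(f - 1 : ℝ) - (0) - (1) + f * (1) + f * (0) - 2 * f * (0) + (0) + 2 * (0) = 0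
      ring
    · show (2 + f) * (0 : ℝ) - (0) - f * (1) + f * (1) + (0) - (1 + f) * (0) + (0) - 2 * (0) = 0
      ring
  · intro i hi
    fin_cases i <;> simp at hi ⊢ <;> linarith
  · intro i hi
    fin_cases i <;> simp at hi ⊢
  · intro w hw hz
    rw [mem_slack_pts hf] at hw
    obtain ⟨g0, g1, g2, g3⟩ := hw
    have z0 := hz 0 (by simp)
    have z3 := hz 3 (by simp)
    have z4 := hz 4 (by simp)
    have z7 := hz 7 (by simp)
    have z8 := hz 8 (by simp)
    have z9 := hz 9 (by simp)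
    have z10 := hz 10 (by simp)
    rw [z0, z4, z7, z8, z9] at g0
    rw [z4, z7, z8, z9] at g1
    rw [z4, z7, z8, z9, z10] at g2
    rw [z3, z4, z7, z8, z9, z10] at g3
    refine ⟨w 6, ?_⟩
    funext i
    fin_cases i
    · show w 0 = w 6 * 0
      rw [z0, mul_zero]
    · show w 1 = w 6 * (1)
      linear_combination -g1
    · show w 2 = w 6 * (f - 1)
      linear_combination g0 - g2
    · show w 3 = w 6 * 0
      rw [z3, mul_zero]
    · show w 4 = w 6 * 0
      rw [z4, mul_zero]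
    · show w 5 = w 6 * (1)
      linear_combination -g0
    · show w 6 = w 6 * (1)
      ring
    · show w 7 = w 6 * 0
      rw [z7, mul_zero]
    · show w 8 = w 6 * 0
      rw [z8, mul_zero]
    · show w 9 = w 6 * 0
      rw [z9, mul_zero]
    · show w 10 = w 6 * 0
      rw [z10, mul_zero]

theorem circ10 : PosCirc (slack (pts f)) {1, 3, 5, 9} := by
  refine ⟨![0, 4 + 2 * f, 0, f - 1, 0, 2 + f, 0, 0, 0, 2 + f, 0], ?_, ?_, ?_, ?_⟩
  · rw [mem_slack_pts hf]
    refine ⟨?_, ?_, ?_, ?_⟩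
    · show (0 : ℝ) - (0) - (2 + f) + (0) + (0) - 2 * (0) + (2 + f) = 0
      ring
    · show -(4 + 2 * f : ℝ) - (0) + (0) + f * (0) - (1 + f) * (0) + 2 * (2 + f) = 0
      ring
    · show -(0 : ℝ) - (0) - (2 + f) + f * (0) + f * (0) - 2 * f * (0) + (2 + f) + 2 * (0) = 0
      ring
    · show (2 + f) * (f - 1 : ℝ) - (0) - f * (2 + f) + f * (0) + (0) - (1 + f) * (0) + (2 + f) - 2 * (0) = 0
      ring
  · intro i hi
    fin_cases i <;> simp at hi ⊢ <;> linarith
  · intro i hi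
    fin_cases i <;> simp at hi ⊢
  · intro w hw hz
    rw [mem_slack_pts hf] at hw
    obtain ⟨g0, g1, g2, g3⟩ := hw
    have z0 := hz 0 (by simp)
    have z2 := hz 2 (by simp)
    have z4 := hz 4 (by simp)
    have z6 := hz 6 (by simp)
    have z7 := hz 7 (by simp)
    have z8 := hz 8 (by simp)
    have z10 := hz 10 (by simp)
    rw [z0, z4, z6, z7, z8] at g0
    rw [z4, z6, z7, z8] at g1
    rw [z2, z4, z6, z7, z8, z10] at g2
    rw [z4, z6, z7, z8, z10] at g3
    refine ⟨w 9 * (3 - f) / 5, ?_⟩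
    funext i
    fin_cases i
    · show w 0 = w 9 * (3 - f) / 5 * 0
      rw [z0, mul_zero]
    · show w 1 = w 9 * (3 - f) / 5 * (4 + 2 * f)
      linear_combination -g1 + (2 * w 9 / 5) * hf
    · show w 2 = w 9 * (3 - f) / 5 * 0
      rw [z2, mul_zero]
    · show w 3 = w 9 * (3 - f) / 5 * (f - 1)
      linear_combination (3 - f) / 5 * (g3 - f * g0) + (w 3 / 5) * hf
    · show w 4 = w 9 * (3 - f) / 5 * 0
      rw [z4, mul_zero]
    · show w 5 = w 9 * (3 - f) / 5 * (2 + f)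
      linear_combination -g0 + (w 9 / 5) * hf
    · show w 6 = w 9 * (3 - f) / 5 * 0
      rw [z6, mul_zero]
    · show w 7 = w 9 * (3 - f) / 5 * 0
      rw [z7, mul_zero]
    · show w 8 = w 9 * (3 - f) / 5 * 0
      rw [z8, mul_zero]
    · show w 9 = w 9 * (3 - f) / 5 * (2 + f)
      linear_combination (w 9 / 5) * hf
    · show w 10 = w 9 * (3 - f) / 5 * 0
      rw [z10, mul_zero]

theorem circ11 : PosCirc (slack (pts f)) {1, 3, 7, 8} := by
  refine ⟨![0, 2 * f - 1, 0, f - 1, 0, 0, 0, 4 + 2 * f, 2 + f, 0, 0], ?_, ?_, ?_, ?_⟩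
  · rw [mem_slack_pts hf]
    refine ⟨?_, ?_, ?_, ?_⟩
    · show (0 : ℝ) - (0) - (0) + (0) + (4 + 2 * f) - 2 * (2 + f) + (0) = 0
      ring
    · show -(2 * f - 1 : ℝ) - (0) + (0) + f * (4 + 2 * f) - (1 + f) * (2 + f) + 2 * (0) = 0
      linear_combination hf
    · show -(0 : ℝ) - (0) - (0) + f * (0) + f * (4 + 2 * f) - 2 * f * (2 + f) + (0) + 2 * (0) = 0
      ring
    · show (2 + f) * (f - 1 : ℝ) - (0) - f * (0) + f * (0) + (4 + 2 * f) - (1 + f) * (2 + f) + (0) - 2 * (0) = 0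
      ring
  · intro i hi
    fin_cases i <;> simp at hi ⊢ <;> linarith
  · intro i hi
    fin_cases i <;> simp at hi ⊢
  · intro w hw hz
    rw [mem_slack_pts hf] at hw
    obtain ⟨g0, g1, g2, g3⟩ := hw
    have z0 := hz 0 (by simp)
    have z2 := hz 2 (by simp)
    have z4 := hz 4 (by simp)
    have z5 := hz 5 (by simp)
    have z6 := hz 6 (by simp)
    have z9 := hz 9 (by simp)
    have z10 := hz 10 (by simp)
    rw [z0, z4, z5, z6, z9] at g0
    rw [z4, z6, z9] at g1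
    rw [z2, z4, z5, z6, z9, z10] at g2
    rw [z4, z5, z6, z9, z10] at g3
    refine ⟨w 8 * (3 - f) / 5, ?_⟩
    funext i
    fin_cases i
    · show w 0 = w 8 * (3 - f) / 5 * 0
      rw [z0, mul_zero]
    · show w 1 = w 8 * (3 - f) / 5 * (2 * f - 1)
      linear_combination -g1 + f * g0 + (2 * w 8 / 5) * hf
    · show w 2 = w 8 * (3 - f) / 5 * 0
      rw [z2, mul_zero]
    · show w 3 = w 8 * (3 - f) / 5 * (f - 1)
      linear_combination (3 - f) / 5 * (g3 - g0) + (w 3 / 5) * hf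
    · show w 4 = w 8 * (3 - f) / 5 * 0
      rw [z4, mul_zero]
    · show w 5 = w 8 * (3 - f) / 5 * 0
      rw [z5, mul_zero]
    · show w 6 = w 8 * (3 - f) / 5 * 0
      rw [z6, mul_zero]
    · show w 7 = w 8 * (3 - f) / 5 * (4 + 2 * f)
      linear_combination g0 + (2 * w 8 / 5) * hf
    · show w 8 = w 8 * (3 - f) / 5 * (2 + f)
      linear_combination (w 8 / 5) * hf
    · show w 9 = w 8 * (3 - f) / 5 * 0
      rw [z9, mul_zero]
    · show w 10 = w 8 * (3 - f) / 5 * 0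
      rw [z10, mul_zero]

theorem circ12 : PosCirc (slack (pts f)) {2, 4, 6, 10} := by
  refine ⟨![0, 0, 4 * (f - 1), 0, 2, 0, 2, 0, 0, 0, f - 1], ?_, ?_, ?_, ?_⟩
  · rw [mem_slack_pts hf]
    refine ⟨?_, ?_, ?_, ?_⟩
    · show (0 : ℝ) - (2) - (0) + (2) + (0) - 2 * (0) + (0) = 0
      ring
    · show -(0 : ℝ) - (2) + (2) + f * (0) - (1 + f) * (0) + 2 * (0) = 0
      ring
    · show -(4 * (f - 1) : ℝ) - (2) - (0) + f * (2) + f * (0) - 2 * f * (0) + (0) + 2 * (f - 1) = 0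
      ring
    · show (2 + f) * (0 : ℝ) - (2) - f * (0) + f * (2) + (0) - (1 + f) * (0) + (0) - 2 * (f - 1) = 0
      ring
  · intro i hi
    fin_cases i <;> simp at hi ⊢ <;> linarith
  · intro i hi
    fin_cases i <;> simp at hi ⊢
  · intro w hw hz
    rw [mem_slack_pts hf] at hw
    obtain ⟨g0, g1, g2, g3⟩ := hw
    have z0 := hz 0 (by simp)
    have z1 := hz 1 (by simp)
    have z3 := hz 3 (by simp)
    have z5 := hz 5 (by simp)
    have z7 := hz 7 (by simp)
    have z8 := hz 8 (by simp)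
    have z9 := hz 9 (by simp)
    rw [z0, z5, z7, z8, z9] at g0
    rw [z1, z7, z8, z9] at g1
    rw [z5, z7, z8, z9] at g2
    rw [z3, z5, z7, z8, z9] at g3
    refine ⟨w 6 / 2, ?_⟩
    funext i
    fin_cases i
    · show w 0 = w 6 / 2 * 0
      rw [z0, mul_zero]
    · show w 1 = w 6 / 2 * 0
      rw [z1, mul_zero]
    · show w 2 = w 6 / 2 * (4 * (f - 1))
      linear_combination 2 * g0 - g2 - g3
    · show w 3 = w 6 / 2 * 0
      rw [z3, mul_zero]
    · show w 4 = w 6 / 2 * (2)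
      linear_combination -g0
    · show w 5 = w 6 / 2 * 0
      rw [z5, mul_zero]
    · show w 6 = w 6 / 2 * (2)
      ring
    · show w 7 = w 6 / 2 * 0
      rw [z7, mul_zero]
    · show w 8 = w 6 / 2 * 0
      rw [z8, mul_zero]
    · show w 9 = w 6 / 2 * 0
      rw [z9, mul_zero]
    · show w 10 = w 6 / 2 * (f - 1)
      linear_combination (1/2) * g0 - (1/2) * g3

theorem circ13 : PosCirc (slack (pts f)) {0, 3, 4, 5, 6} := by
  refine ⟨![2 * f - 1, 0, 0, 2 - f, 2 + f, 2 * f - 1, 2 + f, 0, 0, 0, 0], ?_, ?_, ?_, ?_⟩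
  · rw [mem_slack_pts hf]
    refine ⟨?_, ?_, ?_, ?_⟩
    · show (2 * f - 1 : ℝ) - (2 + f) - (2 * f - 1) + (2 + f) + (0) - 2 * (0) + (0) = 0
      ring
    · show -(0 : ℝ) - (2 + f) + (2 + f) + f * (0) - (1 + f) * (0) + 2 * (0) = 0
      ring
    · show -(0 : ℝ) - (2 + f) - (2 * f - 1) + f * (2 + f) + f * (0) - 2 * f * (0) + (0) + 2 * (0) = 0
      linear_combination hf
    · show (2 + f) * (2 - f : ℝ) - (2 + f) - f * (2 * f - 1) + f * (2 + f) + (0) - (1 + f) * (0) + (0) - 2 * (0) = 0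
      linear_combination -2 * hf
  · intro i hi
    fin_cases i <;> simp at hi ⊢ <;> linarith
  · intro i hi
    fin_cases i <;> simp at hi ⊢
  · intro w hw hz
    rw [mem_slack_pts hf] at hw
    obtain ⟨g0, g1, g2, g3⟩ := hw
    have z1 := hz 1 (by simp)
    have z2 := hz 2 (by simp)
    have z7 := hz 7 (by simp)
    have z8 := hz 8 (by simp)
    have z9 := hz 9 (by simp)
    have z10 := hz 10 (by simp)
    rw [z7, z8, z9] at g0
    rw [z1, z7, z8, z9] at g1
    rw [z2, z7, z8, z9, z10] at g2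
    rw [z7, z8, z9, z10] at g3
    refine ⟨w 6 * (3 - f) / 5, ?_⟩
    funext i
    fin_cases i
    · show w 0 = w 6 * (3 - f) / 5 * (2 * f - 1)
      linear_combination g0 - g2 + (2 * w 6 / 5) * hf
    · show w 1 = w 6 * (3 - f) / 5 * 0
      rw [z1, mul_zero]
    · show w 2 = w 6 * (3 - f) / 5 * 0
      rw [z2, mul_zero]
    · show w 3 = w 6 * (3 - f) / 5 * (2 - f)
      linear_combination (3 - f) / 5 * (g3 - g1 + f * (g1 - g2) + w 6 * hf) + (w 3 / 5) * hf
    · show w 4 = w 6 * (3 - f) / 5 * (2 + f)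
      linear_combination -g1 + (w 6 / 5) * hf
    · show w 5 = w 6 * (3 - f) / 5 * (2 * f - 1)
      linear_combination g1 - g2 + (2 * w 6 / 5) * hf
    · show w 6 = w 6 * (3 - f) / 5 * (2 + f)
      linear_combination (w 6 / 5) * hf
    · show w 7 = w 6 * (3 - f) / 5 * 0
      rw [z7, mul_zero]
    · show w 8 = w 6 * (3 - f) / 5 * 0
      rw [z8, mul_zero]
    · show w 9 = w 6 * (3 - f) / 5 * 0
      rw [z9, mul_zero]
    · show w 10 = w 6 * (3 - f) / 5 * 0
      rw [z10, mul_zero]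

end circuits

end Pool.Agent.Helper7.NRP
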