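import Pool.Agent.Helper7.NonRatPoly

/-!
# Every rational slack space misses one of thirteen positive circuits
-/

set_option autoImplicit false

namespace Pool.Agent.Helper7.NRP

open Finset

/-- `W` has an element with value 1 at `m` and value 0 at the other indices from 4 on. -/
def Dual (W : Submodule ℝ (Fin 11 → ℝ)) (m : Fin 11) : Prop :=
  ∃ w ∈ W, w m = 1 ∧ ∀ l : Fin 11, 4 ≤ l → l ≠ m → w l = 0

theorem Dual.step {W : Submodule ℝ (Fin 11 → ℝ)} {m : Fin 11} (hm4 : 4 ≤ m) (s : Fin 11 → ℝ)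
    (hs : s ∈ W) (hm : s m ≠ 0)
    (h : ∀ l : Fin 11, 4 ≤ l → l ≠ m → s l = 0 ∨ Dual W l) : Dual W m := by
  classical
  have hv : ∀ l : Fin 11, ∃ v : Fin 11 → ℝ, v ∈ W ∧ (Dual W l → v l = 1 ∧
      ∀ l' : Fin 11, 4 ≤ l' → l' ≠ l → v l' = 0) := by
    intro l
    by_cases hl : Dual W l
    · obtain ⟨w, hw, h1, h2⟩ := hl
      exact ⟨w, hw, fun _ => ⟨h1, h2⟩⟩
    · exact ⟨0, W.zero_mem, fun h => absurd h hl⟩
  choose v hvW hv using hv
  set T : Finset (Fin 11) := Finset.univ.filter (fun l => 4 ≤ l ∧ l ≠ m ∧ s l ≠ 0) with hT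
  have hTd : ∀ l ∈ T, Dual W l := by
    intro l hl
    simp only [hT, Finset.mem_filter, Finset.mem_univ, true_and] at hl
    rcases h l hl.1 hl.2.1 with h0 | h0
    · exact absurd h0 hl.2.2
    · exact h0
  have heval : ∀ l' : Fin 11, 4 ≤ l' → (∑ l ∈ T, s l • v l) l' = if l' ∈ T then s l' else 0 := by
    intro l' hl'
    rw [Finset.sum_apply]
    simp only [Pi.smul_apply, smul_eq_mul]
    split_ifs with hmem
    · rw [Finset.sum_eq_single l']
      · rw [(hv l' (hTd l' hmem)).1, mul_one]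
      · intro l hl hne
        rw [(hv l (hTd l hl)).2 l' hl' hne.symm, mul_zero]
      · intro h0
        exact absurd hmem h0
    · refine Finset.sum_eq_zero (fun l hl => ?_)
      rw [(hv l (hTd l hl)).2 l' hl' (fun h0 => hmem (h0 ▸ hl)), mul_zero]
  refine ⟨(s m)⁻¹ • (s - ∑ l ∈ T, s l • v l), W.smul_mem _ (W.sub_mem hs
    (W.sum_mem (fun l _ => W.smul_mem _ (hvW l)))), ?_, ?_⟩
  · simp only [Pi.smul_apply, Pi.sub_apply, smul_eq_mul]
    rw [heval m hm4, if_neg (by simp [hT]), sub_zero, inv_mul_cancel₀ hm]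
  · intro l hl hne
    simp only [Pi.smul_apply, Pi.sub_apply, smul_eq_mul]
    rw [heval l hl]
    split_ifs with hmem
    · rw [sub_self, mul_zero]
    · have : s l = 0 := by
        by_contra h0
        exact hmem (by simp [hT, hl, hne, h0])
      rw [this, sub_self, mul_zero]

/-- A subspace of `ℝ^11` with these circuits is a graph over the coordinates 4, ..., 10. -/
theorem unique_of_circuits {W : Submodule ℝ (Fin 11 → ℝ)}
    (c13 : PosCirc W {0, 3, 4, 5, 6}) (hd : ∀ m : Fin 11, 4 ≤ m → Dual W m)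
    (w : Fin 11 → ℝ) (hw : w ∈ W) (h0 : ∀ m : Fin 11, 4 ≤ m → w m = 0) : w = 0 := by
  classical
  obtain ⟨s, hs, hpos, hzero, huniq⟩ := c13
  let e1 : Fin 7 → Fin 11 := ![1, 2, 7, 8, 9, 10, 4]
  let e2 : Fin 7 → Fin 11 := ![4, 5, 6, 7, 8, 9, 10]
  let φ : W →ₗ[ℝ] (Fin 7 → ℝ) := (LinearMap.funLeft ℝ ℝ e1).comp W.subtype
  let ψ : W →ₗ[ℝ] (Fin 7 → ℝ) := (LinearMap.funLeft ℝ ℝ e2).comp W.subtype
  have hφ : Function.Injective φ := by
    rw [← LinearMap.ker_eq_bot, LinearMap.ker_eq_bot']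
    rintro ⟨u, hu⟩ hφu
    have hk : ∀ k : Fin 7, u (e1 k) = 0 := fun k => congrFun hφu k
    obtain ⟨t, ht⟩ := huniq u hu (by
      intro i hi
      fin_cases i
      · exact absurd (by simp) hi
      · exact hk 0
      · exact hk 1
      · exact absurd (by simp) hi
      · exact absurd (by simp) hi
      · exact absurd (by simp) hi
      · exact absurd (by simp) hi
      · exact hk 2
      · exact hk 3
      · exact hk 4
      · exact hk 5)
    have h4 : u 4 = 0 := hk 6
    have ht0 : t = 0 := by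
      rw [ht] at h4
      simp only [Pi.smul_apply, smul_eq_mul] at h4
      rcases mul_eq_zero.1 h4 with h | h
      · exact h
      · exact absurd h (hpos 4 (by simp)).ne'
    apply Subtype.ext
    show u = 0
    rw [ht, ht0, zero_smul]
  have hψ : Function.Surjective ψ := by
    have hch : ∀ k : Fin 7, ∃ v ∈ W, ∀ l : Fin 7, v (e2 l) = if l = k then 1 else 0 := by
      intro k
      have h4 : ∀ l : Fin 7, 4 ≤ e2 l := by
        intro l
        fin_cases l <;> decide
      have hinj : ∀ l k : Fin 7, l ≠ k → e2 l ≠ e2 k := by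
        intro l k
        fin_cases l <;> fin_cases k <;> decide
      obtain ⟨v, hv, h1, h2⟩ := hd (e2 k) (h4 k)
      refine ⟨v, hv, fun l => ?_⟩
      split_ifs with hlk
      · rw [hlk, h1]
      · exact h2 _ (h4 l) (hinj l k hlk)
    choose v hvW hv using hch
    intro y
    refine ⟨⟨∑ k, y k • v k, W.sum_mem (fun k _ => W.smul_mem _ (hvW k))⟩, ?_⟩
    funext l
    show (∑ k, y k • v k) (e2 l) = y l
    rw [Finset.sum_apply]
    simp only [Pi.smul_apply, smul_eq_mul, hv]
    simp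
  have hle : Module.finrank ℝ W ≤ 7 := by
    have := LinearMap.finrank_le_finrank_of_injective hφ
    simpa using this
  have hge : 7 ≤ Module.finrank ℝ W := by
    have h1 := LinearMap.finrank_range_add_finrank_ker ψ
    rw [LinearMap.range_eq_top.2 hψ] at h1
    simp at h1
    omega
  have heq : Module.finrank ℝ W = Module.finrank ℝ (Fin 7 → ℝ) := by
    simp
    omega
  have hinj : Function.Injective ψ :=
    (LinearMap.injective_iff_surjective_of_finrank_eq_finrank heq).2 hψ
  have : (⟨w, hw⟩ : W) = 0 := by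
    apply hinj
    rw [map_zero]
    funext l
    show w (e2 l) = 0
    apply h0
    fin_cases l <;> decide
  exact congrArg Subtype.val this

/-- The algebra of the configuration. -/
theorem golden_core
    {p4 p9 q6 q7 q8 r4 r7 t4 t6 t9 u5 u6 u8 v4 v7 x5 x6 y5 y9 z7 z8 k4 k6 : ℝ}
    (hp4 : 0 < p4) (hp9 : 0 < p9) (hq6 : 0 < q6) (hq7 : 0 < q7) (hq8 : 0 < q8)
    (hr7 : 0 < r7) (ht6 : 0 < t6)
    (hu5 : 0 < u5) (hu8 : 0 < u8) (hv4 : 0 < v4) (hv7 : 0 < v7)
    (hx5 : 0 < x5) (hy5 : 0 < y5) (hy9 : 0 < y9)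
    (hz8 : 0 < z8) (hk4 : 0 < k4) (hk6 : 0 < k6)
    {B50 B51 B52 B53 B60 B61 B62 B63 B70 B71 B72 B73 B80 B81 B82 B83 B90 B92 B93 : ℝ}
    (e10 : p4 + p9 * B90 = 0) (e12 : p4 + p9 * B92 = 0) (e13 : p4 + p9 * B93 = 0)
    (e30 : q6 * B60 + q7 * B70 + q8 * B80 = 0) (e31 : q6 * B61 + q7 * B71 + q8 * B81 = 0)
    (e32 : q6 * B62 + q7 * B72 + q8 * B82 = 0) (e33 : q6 * B63 + q7 * B73 + q8 * B83 = 0)
    (e41 : r4 + r7 * B71 = 0) (e42 : r4 + r7 * B72 = 0)
    (e51 : B51 = 0)
    (e62 : t4 + t6 * B62 + t9 * B92 = 0) (e63 : t4 + t6 * B63 + t9 * B93 = 0)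
    (e71 : u5 * B51 + u6 * B61 + u8 * B81 = 0) (e72 : u5 * B52 + u6 * B62 + u8 * B82 = 0)
    (e73 : u5 * B53 + u6 * B63 + u8 * B83 = 0)
    (e80 : v4 + v7 * B70 = 0) (e83 : v4 + v7 * B73 = 0)
    (e90 : x5 * B50 + x6 * B60 = 0) (e93 : x5 * B53 + x6 * B63 = 0)
    (ea0 : y5 * B50 + y9 * B90 = 0) (ea2 : y5 * B52 + y9 * B92 = 0)
    (eb0 : z7 * B70 + z8 * B80 = 0) (eb2 : z7 * B72 + z8 * B82 = 0)
    (ec0 : k4 + k6 * B60 = 0) (ec1 : k4 + k6 * B61 = 0) :
    (B53 / B50) ^ 2 = B53 / B50 + 1 := by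
  -- basic equalities
  have h9092 : B90 = B92 := by
    have : p9 * B90 = p9 * B92 := by linarith
    exact mul_left_cancel₀ hp9.ne' this
  have h9293 : B92 = B93 := by
    have : p9 * B92 = p9 * B93 := by linarith
    exact mul_left_cancel₀ hp9.ne' this
  have h90 : B90 < 0 := by
    by_contra h
    have := mul_nonneg hp9.le (not_lt.1 h)
    linarith
  have h60 : B60 < 0 := by
    by_contra h
    have := mul_nonneg hk6.le (not_lt.1 h)
    linarith
  have h6061 : B61 = B60 := by
    have : k6 * B61 = k6 * B60 := by linarith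
    exact mul_left_cancel₀ hk6.ne' this
  have h6263 : B62 = B63 := by
    have : t6 * B62 = t6 * B63 := by
      rw [h9293] at e62
      linarith
    exact mul_left_cancel₀ ht6.ne' this
  have h70 : B70 < 0 := by
    by_contra h
    have := mul_nonneg hv7.le (not_lt.1 h)
    linarith
  have h7073 : B73 = B70 := by
    have : v7 * B73 = v7 * B70 := by linarith
    exact mul_left_cancel₀ hv7.ne' this
  have h7172 : B71 = B72 := by
    have : r7 * B71 = r7 * B72 := by linarith
    exact mul_left_cancel₀ hr7.ne' this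
  have h5052 : B52 = B50 := by
    have : y5 * B52 = y5 * B50 := by
      rw [h9092] at ea0
      linarith
    exact mul_left_cancel₀ hy5.ne' this
  have h50 : 0 < B50 := by
    have h1 : 0 < y5 * B50 := by nlinarith
    exact (mul_pos_iff_of_pos_left hy5).1 h1
  set x := B53 / B50 with hx
  have h53 : B53 = x * B50 := by
    rw [hx]
    field_simp
  have h63 : B63 = x * B60 := by
    have h1 : B53 * B60 = B50 * B63 := by
      have : x5 * (B53 * B60) = x5 * (B50 * B63) := by
        linear_combination B60 * e93 - B63 * e90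
      exact mul_left_cancel₀ hx5.ne' this
    have h2 : B50 * B63 = B50 * (x * B60) := by
      rw [← h1, h53]; ring
    exact mul_left_cancel₀ h50.ne' h2
  have h62 : B62 = x * B60 := by rw [h6263, h63]
  have h72 : B72 = x * B70 := by
    have h1 : B80 * B72 = B82 * B70 := by
      have : z8 * (B80 * B72) = z8 * (B82 * B70) := by
        linear_combination B72 * eb0 - B70 * eb2
      exact mul_left_cancel₀ hz8.ne' this
    have h2 : q6 * (B60 * B72) = q6 * (B62 * B70) := by
      linear_combination B72 * e30 - B70 * e32 - q8 * h1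
    have h3 : B60 * B72 = B62 * B70 := mul_left_cancel₀ hq6.ne' h2
    have h4 : B60 * B72 = B60 * (x * B70) := by
      rw [h3, h62]; ring
    exact mul_left_cancel₀ h60.ne h4
  -- the three equations of the circuit 0, 5, 6, 8
  have i1 : (u6 * q8 - u8 * q6) * B60 = u8 * q7 * (x * B70) := by
    have h71 : B71 = x * B70 := by rw [h7172, h72]
    rw [h6061, e51] at e71
    rw [h6061, h71] at e31
    linear_combination q8 * e71 - u8 * e31
  have i2 : u5 * q8 * B50 + (u6 * q8 - u8 * q6) * (x * B60) - u8 * q7 * (x * B70) = 0 := by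
    rw [h5052, h62] at e72
    rw [h62, h72] at e32
    linear_combination q8 * e72 - u8 * e32
  have i3 : u5 * q8 * (x * B50) + (u6 * q8 - u8 * q6) * (x * B60) - u8 * q7 * B70 = 0 := by
    rw [h53, h63] at e73
    rw [h63, h7073] at e33
    linear_combination q8 * e73 - u8 * e33
  have i4 : (u8 * q7 * B70) * ((x - 1) * (x ^ 2 - x - 1)) = 0 := by
    linear_combination x * i2 - i3 - (x ^ 2 - x) * i1
  have i5 : u8 * q7 * B70 ≠ 0 := mul_ne_zero (mul_ne_zero hu8.ne' hq7.ne') h70.ne
  rcases mul_eq_zero.1 i4 with h | h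
  · exact absurd h i5
  rcases mul_eq_zero.1 h with h | h
  · exfalso
    have hx1 : x = 1 := by linarith
    rw [hx1] at i1 i2
    have : u5 * q8 * B50 = 0 := by linear_combination i2 - i1
    exact (mul_pos (mul_pos hu5 hq8) h50).ne' this
  · linarith

theorem no_rat_golden (r : ℚ) (h : (r : ℝ) ^ 2 = r + 1) : False := by
  have h1 : (2 * (r : ℝ) - 1) ^ 2 = 5 := by linear_combination 4 * h
  have h2 : Irrational (√(5 : ℝ)) := by
    have := Nat.Prime.irrational_sqrt (p := 5) (by norm_num)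
    simpa using this
  have h3 : √(5 : ℝ) = |2 * (r : ℝ) - 1| := by
    rw [← h1, Real.sqrt_sq_eq_abs]
  apply h2
  refine ⟨|2 * r - 1|, ?_⟩
  rw [h3]
  push_cast
  rfl

end Pool.Agent.Helper7.NRP
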