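import Pool.Agent.Helper7.NonRatPolyP
import Pool.Agent.Helper7.NonRatPolyQ

/-!
# Assembly: a non-rational 6-polytope with 11 vertices
-/

set_option autoImplicit false

namespace Pool.Agent.Helper7.NRP

open Finset

theorem no_rational {e : ℕ} (q : Fin 11 → Fin e → ℚ)
    (c1 : PosCirc (slack (fun i k => ((q i k : ℚ) : ℝ))) {1, 4, 9})
    (c2 : PosCirc (slack (fun i k => ((q i k : ℚ) : ℝ))) {2, 3, 10})
    (c3 : PosCirc (slack (fun i k => ((q i k : ℚ) : ℝ))) {6, 7, 8})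
    (c4 : PosCirc (slack (fun i k => ((q i k : ℚ) : ℝ))) {0, 3, 4, 7})
    (c5 : PosCirc (slack (fun i k => ((q i k : ℚ) : ℝ))) {0, 3, 5, 10})
    (c6 : PosCirc (slack (fun i k => ((q i k : ℚ) : ℝ))) {0, 4, 6, 9})
    (c7 : PosCirc (slack (fun i k => ((q i k : ℚ) : ℝ))) {0, 5, 6, 8})
    (c8 : PosCirc (slack (fun i k => ((q i k : ℚ) : ℝ))) {1, 2, 4, 7})
    (c9 : PosCirc (slack (fun i k => ((q i k : ℚ) : ℝ))) {1, 2, 5, 6})
    (c10 : PosCirc (slack (fun i k => ((q i k : ℚ) : ℝ))) {1, 3, 5, 9})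
    (c11 : PosCirc (slack (fun i k => ((q i k : ℚ) : ℝ))) {1, 3, 7, 8})
    (c12 : PosCirc (slack (fun i k => ((q i k : ℚ) : ℝ))) {2, 4, 6, 10})
    (c13 : PosCirc (slack (fun i k => ((q i k : ℚ) : ℝ))) {0, 3, 4, 5, 6}) : False := by
  set W := slack (fun i k => ((q i k : ℚ) : ℝ)) with hW
  have c13' := c13
  obtain ⟨s1, m1, p1, z1, -⟩ := c1
  obtain ⟨s2, m2, p2, z2, -⟩ := c2
  obtain ⟨s3, m3, p3, z3, -⟩ := c3
  obtain ⟨s4, m4, p4, z4, -⟩ := c4
  obtain ⟨s5, m5, p5, z5, -⟩ := c5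
  obtain ⟨s6, m6, p6, z6, -⟩ := c6
  obtain ⟨s7, m7, p7, z7, -⟩ := c7
  obtain ⟨s8, m8, p8, z8, -⟩ := c8
  obtain ⟨s9, m9, p9, z9, -⟩ := c9
  obtain ⟨s10, m10, p10, z10, -⟩ := c10
  obtain ⟨s11, m11, p11, z11, -⟩ := c11
  obtain ⟨s12, m12, p12, z12, -⟩ := c12
  have d10 : Dual W 10 := by
    refine Dual.step (by decide) s2 m2 (p2 10 (by simp)).ne' (fun l hl hne => ?_)
    fin_cases l
    · exact absurd hl (by decide)
    · exact absurd hl (by decide)
    · exact absurd hl (by decide)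
    · exact absurd hl (by decide)
    · exact Or.inl (z2 4 (by simp))
    · exact Or.inl (z2 5 (by simp))
    · exact Or.inl (z2 6 (by simp))
    · exact Or.inl (z2 7 (by simp))
    · exact Or.inl (z2 8 (by simp))
    · exact Or.inl (z2 9 (by simp))
    · exact absurd rfl hne
  have d5 : Dual W 5 := by
    refine Dual.step (by decide) s5 m5 (p5 5 (by simp)).ne' (fun l hl hne => ?_)
    fin_cases l
    · exact absurd hl (by decide)
    · exact absurd hl (by decide)
    · exact absurd hl (by decide)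
    · exact absurd hl (by decide)
    · exact Or.inl (z5 4 (by simp))
    · exact absurd rfl hne
    · exact Or.inl (z5 6 (by simp))
    · exact Or.inl (z5 7 (by simp))
    · exact Or.inl (z5 8 (by simp))
    · exact Or.inl (z5 9 (by simp))
    · exact Or.inr d10
  have d6 : Dual W 6 := by
    refine Dual.step (by decide) s9 m9 (p9 6 (by simp)).ne' (fun l hl hne => ?_)
    fin_cases l
    · exact absurd hl (by decide)
    · exact absurd hl (by decide)
    · exact absurd hl (by decide)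
    · exact absurd hl (by decide)
    · exact Or.inl (z9 4 (by simp))
    · exact Or.inr d5
    · exact absurd rfl hne
    · exact Or.inl (z9 7 (by simp))
    · exact Or.inl (z9 8 (by simp))
    · exact Or.inl (z9 9 (by simp))
    · exact Or.inl (z9 10 (by simp))
  have d4 : Dual W 4 := by
    refine Dual.step (by decide) s12 m12 (p12 4 (by simp)).ne' (fun l hl hne => ?_)
    fin_cases l
    · exact absurd hl (by decide)
    · exact absurd hl (by decide)
    · exact absurd hl (by decide)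
    · exact absurd hl (by decide)
    · exact absurd rfl hne
    · exact Or.inl (z12 5 (by simp))
    · exact Or.inr d6
    · exact Or.inl (z12 7 (by simp))
    · exact Or.inl (z12 8 (by simp))
    · exact Or.inl (z12 9 (by simp))
    · exact Or.inr d10
  have d7 : Dual W 7 := by
    refine Dual.step (by decide) s8 m8 (p8 7 (by simp)).ne' (fun l hl hne => ?_)
    fin_cases l
    · exact absurd hl (by decide)
    · exact absurd hl (by decide)
    · exact absurd hl (by decide)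
    · exact absurd hl (by decide)
    · exact Or.inr d4
    · exact Or.inl (z8 5 (by simp))
    · exact Or.inl (z8 6 (by simp))
    · exact absurd rfl hne
    · exact Or.inl (z8 8 (by simp))
    · exact Or.inl (z8 9 (by simp))
    · exact Or.inl (z8 10 (by simp))
  have d8 : Dual W 8 := by
    refine Dual.step (by decide) s3 m3 (p3 8 (by simp)).ne' (fun l hl hne => ?_)
    fin_cases l
    · exact absurd hl (by decide)
    · exact absurd hl (by decide)
    · exact absurd hl (by decide)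
    · exact absurd hl (by decide)
    · exact Or.inl (z3 4 (by simp))
    · exact Or.inl (z3 5 (by simp))
    · exact Or.inr d6
    · exact Or.inr d7
    · exact absurd rfl hne
    · exact Or.inl (z3 9 (by simp))
    · exact Or.inl (z3 10 (by simp))
  have d9 : Dual W 9 := by
    refine Dual.step (by decide) s1 m1 (p1 9 (by simp)).ne' (fun l hl hne => ?_)
    fin_cases l
    · exact absurd hl (by decide)
    · exact absurd hl (by decide)
    · exact absurd hl (by decide)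
    · exact absurd hl (by decide)
    · exact Or.inr d4
    · exact Or.inl (z1 5 (by simp))
    · exact Or.inl (z1 6 (by simp))
    · exact Or.inl (z1 7 (by simp))
    · exact Or.inl (z1 8 (by simp))
    · exact absurd rfl hne
    · exact Or.inl (z1 10 (by simp))
  have hd : ∀ m : Fin 11, 4 ≤ m → Dual W m := by
    intro m hm
    fin_cases m
    · exact absurd hm (by decide)
    · exact absurd hm (by decide)
    · exact absurd hm (by decide)
    · exact absurd hm (by decide)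
    · exact d4
    · exact d5
    · exact d6
    · exact d7
    · exact d8
    · exact d9
    · exact d10
  have hu : ∀ w ∈ W, (∀ m : Fin 11, 4 ≤ m → w m = 0) → w = 0 :=
    fun w hw h0 => unique_of_circuits c13' hd w hw h0
  obtain ⟨w4, hw4, o4, n4⟩ := d4
  obtain ⟨w5, hw5, o5, n5⟩ := d5
  obtain ⟨w6, hw6, o6, n6⟩ := d6
  obtain ⟨w7, hw7, o7, n7⟩ := d7
  obtain ⟨w8, hw8, o8, n8⟩ := d8
  obtain ⟨w9, hw9, o9, n9⟩ := d9
  obtain ⟨w10, hw10, o10, n10⟩ := d10
  have rat : ∀ w ∈ W, (∀ l : Fin 11, 4 ≤ l → ∃ r : ℚ, w l = r) → ∀ i, ∃ r : ℚ, w i = r := by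
    intro w hw hr
    exact rational_of_unique q {l | 4 ≤ l} (fun w hw h0 => hu w hw (fun m hm => h0 m hm)) w hw
      (fun i hi => hr i hi)
  have rat4 : ∀ i, ∃ r : ℚ, w4 i = r := by
    refine rat w4 hw4 (fun l hl => ?_)
    by_cases h : l = 4
    · exact ⟨1, by rw [h, o4]; simp⟩
    · exact ⟨0, by rw [n4 l hl h]; simp⟩
  have rat5 : ∀ i, ∃ r : ℚ, w5 i = r := by
    refine rat w5 hw5 (fun l hl => ?_)
    by_cases h : l = 5
    · exact ⟨1, by rw [h, o5]; simp⟩
    · exact ⟨0, by rw [n5 l hl h]; simp⟩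
  have rep : ∀ s ∈ W, ∀ j, s j = s 4 * w4 j + s 5 * w5 j + s 6 * w6 j + s 7 * w7 j + s 8 * w8 j + s 9 * w9 j + s 10 * w10 j := by
    intro s hs j
    have h0 := hu (s - (s 4 • w4 + s 5 • w5 + s 6 • w6 + s 7 • w7 + s 8 • w8 + s 9 • w9 + s 10 • w10))
      (W.sub_mem hs (W.add_mem (W.add_mem (W.add_mem (W.add_mem (W.add_mem (W.add_mem (W.smul_mem _ hw4) (W.smul_mem _ hw5)) (W.smul_mem _ hw6)) (W.smul_mem _ hw7)) (W.smul_mem _ hw8)) (W.smul_mem _ hw9)) (W.smul_mem _ hw10))) (by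
        intro l hl
        simp only [Pi.sub_apply, Pi.add_apply, Pi.smul_apply, smul_eq_mul]
        fin_cases l
        · exact absurd hl (by decide)
        · exact absurd hl (by decide)
        · exact absurd hl (by decide)
        · exact absurd hl (by decide)
        · show s 4 - (s 4 * w4 4 + s 5 * w5 4 + s 6 * w6 4 + s 7 * w7 4 + s 8 * w8 4 + s 9 * w9 4 + s 10 * w10 4) = 0
          rw [o4, n5 4 (by decide) (by decide), n6 4 (by decide) (by decide), n7 4 (by decide) (by decide), n8 4 (by decide) (by decide), n9 4 (by decide) (by decide), n10 4 (by decide) (by decide)]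
          ring
        · show s 5 - (s 4 * w4 5 + s 5 * w5 5 + s 6 * w6 5 + s 7 * w7 5 + s 8 * w8 5 + s 9 * w9 5 + s 10 * w10 5) = 0
          rw [n4 5 (by decide) (by decide), o5, n6 5 (by decide) (by decide), n7 5 (by decide) (by decide), n8 5 (by decide) (by decide), n9 5 (by decide) (by decide), n10 5 (by decide) (by decide)]
          ring
        · show s 6 - (s 4 * w4 6 + s 5 * w5 6 + s 6 * w6 6 + s 7 * w7 6 + s 8 * w8 6 + s 9 * w9 6 + s 10 * w10 6) = 0
          rw [n4 6 (by decide) (by decide), n5 6 (by decide) (by decide), o6, n7 6 (by decide) (by decide), n8 6 (by decide) (by decide), n9 6 (by decide) (by decide), n10 6 (by decide) (by decide)]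
          ring
        · show s 7 - (s 4 * w4 7 + s 5 * w5 7 + s 6 * w6 7 + s 7 * w7 7 + s 8 * w8 7 + s 9 * w9 7 + s 10 * w10 7) = 0
          rw [n4 7 (by decide) (by decide), n5 7 (by decide) (by decide), n6 7 (by decide) (by decide), o7, n8 7 (by decide) (by decide), n9 7 (by decide) (by decide), n10 7 (by decide) (by decide)]
          ring
        · show s 8 - (s 4 * w4 8 + s 5 * w5 8 + s 6 * w6 8 + s 7 * w7 8 + s 8 * w8 8 + s 9 * w9 8 + s 10 * w10 8) = 0
          rw [n4 8 (by decide) (by decide), n5 8 (by decide) (by decide), n6 8 (by decide) (by decide), n7 8 (by decide) (by decide), o8, n9 8 (by decide) (by decide), n10 8 (by decide) (by decide)]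
          ring
        · show s 9 - (s 4 * w4 9 + s 5 * w5 9 + s 6 * w6 9 + s 7 * w7 9 + s 8 * w8 9 + s 9 * w9 9 + s 10 * w10 9) = 0
          rw [n4 9 (by decide) (by decide), n5 9 (by decide) (by decide), n6 9 (by decide) (by decide), n7 9 (by decide) (by decide), n8 9 (by decide) (by decide), o9, n10 9 (by decide) (by decide)]
          ring
        · show s 10 - (s 4 * w4 10 + s 5 * w5 10 + s 6 * w6 10 + s 7 * w7 10 + s 8 * w8 10 + s 9 * w9 10 + s 10 * w10 10) = 0
          rw [n4 10 (by decide) (by decide), n5 10 (by decide) (by decide), n6 10 (by decide) (by decide), n7 10 (by decide) (by decide), n8 10 (by decide) (by decide), n9 10 (by decide) (by decide), o10]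
          ring
        )
    have h1 := congrFun h0 j
    simp only [Pi.sub_apply, Pi.add_apply, Pi.smul_apply, smul_eq_mul, Pi.zero_apply] at h1
    linarith
  have e1_0 : s1 4 * w4 0 + s1 9 * w9 0 = 0 := by
    have h := rep s1 m1 0
    rw [z1 0 (by simp), z1 5 (by simp), z1 6 (by simp), z1 7 (by simp), z1 8 (by simp), z1 10 (by simp)] at h
    linarith
  have e1_2 : s1 4 * w4 2 + s1 9 * w9 2 = 0 := by
    have h := rep s1 m1 2
    rw [z1 2 (by simp), z1 5 (by simp), z1 6 (by simp), z1 7 (by simp), z1 8 (by simp), z1 10 (by simp)] at h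
    linarith
  have e1_3 : s1 4 * w4 3 + s1 9 * w9 3 = 0 := by
    have h := rep s1 m1 3
    rw [z1 3 (by simp), z1 5 (by simp), z1 6 (by simp), z1 7 (by simp), z1 8 (by simp), z1 10 (by simp)] at h
    linarith
  have e2_0 : s2 10 * w10 0 = 0 := by
    have h := rep s2 m2 0
    rw [z2 0 (by simp), z2 4 (by simp), z2 5 (by simp), z2 6 (by simp), z2 7 (by simp), z2 8 (by simp), z2 9 (by simp)] at h
    linarith
  have e2_1 : s2 10 * w10 1 = 0 := by
    have h := rep s2 m2 1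
    rw [z2 1 (by simp), z2 4 (by simp), z2 5 (by simp), z2 6 (by simp), z2 7 (by simp), z2 8 (by simp), z2 9 (by simp)] at h
    linarith
  have e3_0 : s3 6 * w6 0 + s3 7 * w7 0 + s3 8 * w8 0 = 0 := by
    have h := rep s3 m3 0
    rw [z3 0 (by simp), z3 4 (by simp), z3 5 (by simp), z3 9 (by simp), z3 10 (by simp)] at h
    linarith
  have e3_1 : s3 6 * w6 1 + s3 7 * w7 1 + s3 8 * w8 1 = 0 := by
    have h := rep s3 m3 1
    rw [z3 1 (by simp), z3 4 (by simp), z3 5 (by simp), z3 9 (by simp), z3 10 (by simp)] at h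
    linarith
  have e3_2 : s3 6 * w6 2 + s3 7 * w7 2 + s3 8 * w8 2 = 0 := by
    have h := rep s3 m3 2
    rw [z3 2 (by simp), z3 4 (by simp), z3 5 (by simp), z3 9 (by simp), z3 10 (by simp)] at h
    linarith
  have e3_3 : s3 6 * w6 3 + s3 7 * w7 3 + s3 8 * w8 3 = 0 := by
    have h := rep s3 m3 3
    rw [z3 3 (by simp), z3 4 (by simp), z3 5 (by simp), z3 9 (by simp), z3 10 (by simp)] at h
    linarith
  have e4_0 : s4 4 * w4 0 + s4 7 * w7 0 = s4 0 := by
    have h := rep s4 m4 0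
    rw [z4 5 (by simp), z4 6 (by simp), z4 8 (by simp), z4 9 (by simp), z4 10 (by simp)] at h
    linarith
  have e4_1 : s4 4 * w4 1 + s4 7 * w7 1 = 0 := by
    have h := rep s4 m4 1
    rw [z4 1 (by simp), z4 5 (by simp), z4 6 (by simp), z4 8 (by simp), z4 9 (by simp), z4 10 (by simp)] at h
    linarith
  have e4_2 : s4 4 * w4 2 + s4 7 * w7 2 = 0 := by
    have h := rep s4 m4 2
    rw [z4 2 (by simp), z4 5 (by simp), z4 6 (by simp), z4 8 (by simp), z4 9 (by simp), z4 10 (by simp)] at h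
    linarith
  have e4_3 : s4 4 * w4 3 + s4 7 * w7 3 = s4 3 := by
    have h := rep s4 m4 3
    rw [z4 5 (by simp), z4 6 (by simp), z4 8 (by simp), z4 9 (by simp), z4 10 (by simp)] at h
    linarith
  have e5_1 : s5 5 * w5 1 + s5 10 * w10 1 = 0 := by
    have h := rep s5 m5 1
    rw [z5 1 (by simp), z5 4 (by simp), z5 6 (by simp), z5 7 (by simp), z5 8 (by simp), z5 9 (by simp)] at h
    linarith
  have e6_2 : s6 4 * w4 2 + s6 6 * w6 2 + s6 9 * w9 2 = 0 := by
    have h := rep s6 m6 2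
    rw [z6 2 (by simp), z6 5 (by simp), z6 7 (by simp), z6 8 (by simp), z6 10 (by simp)] at h
    linarith
  have e6_3 : s6 4 * w4 3 + s6 6 * w6 3 + s6 9 * w9 3 = 0 := by
    have h := rep s6 m6 3
    rw [z6 3 (by simp), z6 5 (by simp), z6 7 (by simp), z6 8 (by simp), z6 10 (by simp)] at h
    linarith
  have e7_1 : s7 5 * w5 1 + s7 6 * w6 1 + s7 8 * w8 1 = 0 := by
    have h := rep s7 m7 1
    rw [z7 1 (by simp), z7 4 (by simp), z7 7 (by simp), z7 9 (by simp), z7 10 (by simp)] at h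
    linarith
  have e7_2 : s7 5 * w5 2 + s7 6 * w6 2 + s7 8 * w8 2 = 0 := by
    have h := rep s7 m7 2
    rw [z7 2 (by simp), z7 4 (by simp), z7 7 (by simp), z7 9 (by simp), z7 10 (by simp)] at h
    linarith
  have e7_3 : s7 5 * w5 3 + s7 6 * w6 3 + s7 8 * w8 3 = 0 := by
    have h := rep s7 m7 3
    rw [z7 3 (by simp), z7 4 (by simp), z7 7 (by simp), z7 9 (by simp), z7 10 (by simp)] at h
    linarith
  have e8_0 : s8 4 * w4 0 + s8 7 * w7 0 = 0 := by
    have h := rep s8 m8 0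
    rw [z8 0 (by simp), z8 5 (by simp), z8 6 (by simp), z8 8 (by simp), z8 9 (by simp), z8 10 (by simp)] at h
    linarith
  have e8_1 : s8 4 * w4 1 + s8 7 * w7 1 = s8 1 := by
    have h := rep s8 m8 1
    rw [z8 5 (by simp), z8 6 (by simp), z8 8 (by simp), z8 9 (by simp), z8 10 (by simp)] at h
    linarith
  have e8_2 : s8 4 * w4 2 + s8 7 * w7 2 = s8 2 := by
    have h := rep s8 m8 2
    rw [z8 5 (by simp), z8 6 (by simp), z8 8 (by simp), z8 9 (by simp), z8 10 (by simp)] at h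
    linarith
  have e8_3 : s8 4 * w4 3 + s8 7 * w7 3 = 0 := by
    have h := rep s8 m8 3
    rw [z8 3 (by simp), z8 5 (by simp), z8 6 (by simp), z8 8 (by simp), z8 9 (by simp), z8 10 (by simp)] at h
    linarith
  have e9_0 : s9 5 * w5 0 + s9 6 * w6 0 = 0 := by
    have h := rep s9 m9 0
    rw [z9 0 (by simp), z9 4 (by simp), z9 7 (by simp), z9 8 (by simp), z9 9 (by simp), z9 10 (by simp)] at h
    linarith
  have e9_3 : s9 5 * w5 3 + s9 6 * w6 3 = 0 := by
    have h := rep s9 m9 3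
    rw [z9 3 (by simp), z9 4 (by simp), z9 7 (by simp), z9 8 (by simp), z9 9 (by simp), z9 10 (by simp)] at h
    linarith
  have e10_0 : s10 5 * w5 0 + s10 9 * w9 0 = 0 := by
    have h := rep s10 m10 0
    rw [z10 0 (by simp), z10 4 (by simp), z10 6 (by simp), z10 7 (by simp), z10 8 (by simp), z10 10 (by simp)] at h
    linarith
  have e10_2 : s10 5 * w5 2 + s10 9 * w9 2 = 0 := by
    have h := rep s10 m10 2
    rw [z10 2 (by simp), z10 4 (by simp), z10 6 (by simp), z10 7 (by simp), z10 8 (by simp), z10 10 (by simp)] at h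
    linarith
  have e11_0 : s11 7 * w7 0 + s11 8 * w8 0 = 0 := by
    have h := rep s11 m11 0
    rw [z11 0 (by simp), z11 4 (by simp), z11 5 (by simp), z11 6 (by simp), z11 9 (by simp), z11 10 (by simp)] at h
    linarith
  have e11_2 : s11 7 * w7 2 + s11 8 * w8 2 = 0 := by
    have h := rep s11 m11 2
    rw [z11 2 (by simp), z11 4 (by simp), z11 5 (by simp), z11 6 (by simp), z11 9 (by simp), z11 10 (by simp)] at h
    linarith
  have e12_0 : s12 4 * w4 0 + s12 6 * w6 0 + s12 10 * w10 0 = 0 := by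
    have h := rep s12 m12 0
    rw [z12 0 (by simp), z12 5 (by simp), z12 7 (by simp), z12 8 (by simp), z12 9 (by simp)] at h
    linarith
  have e12_1 : s12 4 * w4 1 + s12 6 * w6 1 + s12 10 * w10 1 = 0 := by
    have h := rep s12 m12 1
    rw [z12 1 (by simp), z12 5 (by simp), z12 7 (by simp), z12 8 (by simp), z12 9 (by simp)] at h
    linarith
  have a0 : w4 0 ≠ 0 := by
    intro h
    rw [h, mul_zero, zero_add] at e8_0 e4_0
    have h7 : w7 0 = 0 := by
      rcases mul_eq_zero.1 e8_0 with h' | h'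
      · exact absurd h' (p8 7 (by simp)).ne'
      · exact h'
    rw [h7, mul_zero] at e4_0
    exact (p4 0 (by simp)).ne e4_0
  have a3 : w4 3 ≠ 0 := by
    intro h
    rw [h, mul_zero, zero_add] at e8_3 e4_3
    have h7 : w7 3 = 0 := by
      rcases mul_eq_zero.1 e8_3 with h' | h'
      · exact absurd h' (p8 7 (by simp)).ne'
      · exact h'
    rw [h7, mul_zero] at e4_3
    exact (p4 3 (by simp)).ne e4_3
  have a1 : w4 1 ≠ 0 := by
    intro h
    rw [h, mul_zero, zero_add] at e8_1 e4_1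
    have h7 : w7 1 = 0 := by
      rcases mul_eq_zero.1 e4_1 with h' | h'
      · exact absurd h' (p4 7 (by simp)).ne'
      · exact h'
    rw [h7, mul_zero] at e8_1
    exact (p8 1 (by simp)).ne e8_1
  have a2 : w4 2 ≠ 0 := by
    intro h
    rw [h, mul_zero, zero_add] at e8_2 e4_2
    have h7 : w7 2 = 0 := by
      rcases mul_eq_zero.1 e4_2 with h' | h'
      · exact absurd h' (p4 7 (by simp)).ne'
      · exact h'
    rw [h7, mul_zero] at e8_2
    exact (p8 2 (by simp)).ne e8_2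
  have b0 : w10 0 = 0 := by
    rcases mul_eq_zero.1 e2_0 with h' | h'
    · exact absurd h' (p2 10 (by simp)).ne'
    · exact h'
  have b1 : w10 1 = 0 := by
    rcases mul_eq_zero.1 e2_1 with h' | h'
    · exact absurd h' (p2 10 (by simp)).ne'
    · exact h'
  have b5 : w5 1 = 0 := by
    rw [b1, mul_zero, add_zero] at e5_1
    rcases mul_eq_zero.1 e5_1 with h' | h'
    · exact absurd h' (p5 5 (by simp)).ne'
    · exact h'
  have f1_0 : s1 4 + s1 9 * (w9 0 / w4 0) = 0 := by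
    have h : s1 4 + s1 9 * (w9 0 / w4 0) = (s1 4 * w4 0 + s1 9 * w9 0) / w4 0 := by
      field_simp
    rw [h, e1_0, zero_div]
  have f1_2 : s1 4 + s1 9 * (w9 2 / w4 2) = 0 := by
    have h : s1 4 + s1 9 * (w9 2 / w4 2) = (s1 4 * w4 2 + s1 9 * w9 2) / w4 2 := by
      field_simp
    rw [h, e1_2, zero_div]
  have f1_3 : s1 4 + s1 9 * (w9 3 / w4 3) = 0 := by
    have h : s1 4 + s1 9 * (w9 3 / w4 3) = (s1 4 * w4 3 + s1 9 * w9 3) / w4 3 := by
      field_simp
    rw [h, e1_3, zero_div]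
  have f3_0 : s3 6 * (w6 0 / w4 0) + s3 7 * (w7 0 / w4 0) + s3 8 * (w8 0 / w4 0) = 0 := by
    have h : s3 6 * (w6 0 / w4 0) + s3 7 * (w7 0 / w4 0) + s3 8 * (w8 0 / w4 0) = (s3 6 * w6 0 + s3 7 * w7 0 + s3 8 * w8 0) / w4 0 := by
      field_simp
    rw [h, e3_0, zero_div]
  have f3_1 : s3 6 * (w6 1 / w4 1) + s3 7 * (w7 1 / w4 1) + s3 8 * (w8 1 / w4 1) = 0 := by
    have h : s3 6 * (w6 1 / w4 1) + s3 7 * (w7 1 / w4 1) + s3 8 * (w8 1 / w4 1) = (s3 6 * w6 1 + s3 7 * w7 1 + s3 8 * w8 1) / w4 1 := by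
      field_simp
    rw [h, e3_1, zero_div]
  have f3_2 : s3 6 * (w6 2 / w4 2) + s3 7 * (w7 2 / w4 2) + s3 8 * (w8 2 / w4 2) = 0 := by
    have h : s3 6 * (w6 2 / w4 2) + s3 7 * (w7 2 / w4 2) + s3 8 * (w8 2 / w4 2) = (s3 6 * w6 2 + s3 7 * w7 2 + s3 8 * w8 2) / w4 2 := by
      field_simp
    rw [h, e3_2, zero_div]
  have f3_3 : s3 6 * (w6 3 / w4 3) + s3 7 * (w7 3 / w4 3) + s3 8 * (w8 3 / w4 3) = 0 := by
    have h : s3 6 * (w6 3 / w4 3) + s3 7 * (w7 3 / w4 3) + s3 8 * (w8 3 / w4 3) = (s3 6 * w6 3 + s3 7 * w7 3 + s3 8 * w8 3) / w4 3 := by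
      field_simp
    rw [h, e3_3, zero_div]
  have f4_1 : s4 4 + s4 7 * (w7 1 / w4 1) = 0 := by
    have h : s4 4 + s4 7 * (w7 1 / w4 1) = (s4 4 * w4 1 + s4 7 * w7 1) / w4 1 := by
      field_simp
    rw [h, e4_1, zero_div]
  have f4_2 : s4 4 + s4 7 * (w7 2 / w4 2) = 0 := by
    have h : s4 4 + s4 7 * (w7 2 / w4 2) = (s4 4 * w4 2 + s4 7 * w7 2) / w4 2 := by
      field_simp
    rw [h, e4_2, zero_div]
  have f6_2 : s6 4 + s6 6 * (w6 2 / w4 2) + s6 9 * (w9 2 / w4 2) = 0 := by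
    have h : s6 4 + s6 6 * (w6 2 / w4 2) + s6 9 * (w9 2 / w4 2) = (s6 4 * w4 2 + s6 6 * w6 2 + s6 9 * w9 2) / w4 2 := by
      field_simp
    rw [h, e6_2, zero_div]
  have f6_3 : s6 4 + s6 6 * (w6 3 / w4 3) + s6 9 * (w9 3 / w4 3) = 0 := by
    have h : s6 4 + s6 6 * (w6 3 / w4 3) + s6 9 * (w9 3 / w4 3) = (s6 4 * w4 3 + s6 6 * w6 3 + s6 9 * w9 3) / w4 3 := by
      field_simp
    rw [h, e6_3, zero_div]
  have f7_1 : s7 5 * (w5 1 / w4 1) + s7 6 * (w6 1 / w4 1) + s7 8 * (w8 1 / w4 1) = 0 := by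
    have h : s7 5 * (w5 1 / w4 1) + s7 6 * (w6 1 / w4 1) + s7 8 * (w8 1 / w4 1) = (s7 5 * w5 1 + s7 6 * w6 1 + s7 8 * w8 1) / w4 1 := by
      field_simp
    rw [h, e7_1, zero_div]
  have f7_2 : s7 5 * (w5 2 / w4 2) + s7 6 * (w6 2 / w4 2) + s7 8 * (w8 2 / w4 2) = 0 := by
    have h : s7 5 * (w5 2 / w4 2) + s7 6 * (w6 2 / w4 2) + s7 8 * (w8 2 / w4 2) = (s7 5 * w5 2 + s7 6 * w6 2 + s7 8 * w8 2) / w4 2 := by
      field_simp
    rw [h, e7_2, zero_div]
  have f7_3 : s7 5 * (w5 3 / w4 3) + s7 6 * (w6 3 / w4 3) + s7 8 * (w8 3 / w4 3) = 0 := by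
    have h : s7 5 * (w5 3 / w4 3) + s7 6 * (w6 3 / w4 3) + s7 8 * (w8 3 / w4 3) = (s7 5 * w5 3 + s7 6 * w6 3 + s7 8 * w8 3) / w4 3 := by
      field_simp
    rw [h, e7_3, zero_div]
  have f8_0 : s8 4 + s8 7 * (w7 0 / w4 0) = 0 := by
    have h : s8 4 + s8 7 * (w7 0 / w4 0) = (s8 4 * w4 0 + s8 7 * w7 0) / w4 0 := by
      field_simp
    rw [h, e8_0, zero_div]
  have f8_3 : s8 4 + s8 7 * (w7 3 / w4 3) = 0 := by
    have h : s8 4 + s8 7 * (w7 3 / w4 3) = (s8 4 * w4 3 + s8 7 * w7 3) / w4 3 := by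
      field_simp
    rw [h, e8_3, zero_div]
  have f9_0 : s9 5 * (w5 0 / w4 0) + s9 6 * (w6 0 / w4 0) = 0 := by
    have h : s9 5 * (w5 0 / w4 0) + s9 6 * (w6 0 / w4 0) = (s9 5 * w5 0 + s9 6 * w6 0) / w4 0 := by
      field_simp
    rw [h, e9_0, zero_div]
  have f9_3 : s9 5 * (w5 3 / w4 3) + s9 6 * (w6 3 / w4 3) = 0 := by
    have h : s9 5 * (w5 3 / w4 3) + s9 6 * (w6 3 / w4 3) = (s9 5 * w5 3 + s9 6 * w6 3) / w4 3 := by
      field_simp
    rw [h, e9_3, zero_div]
  have f10_0 : s10 5 * (w5 0 / w4 0) + s10 9 * (w9 0 / w4 0) = 0 := by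
    have h : s10 5 * (w5 0 / w4 0) + s10 9 * (w9 0 / w4 0) = (s10 5 * w5 0 + s10 9 * w9 0) / w4 0 := by
      field_simp
    rw [h, e10_0, zero_div]
  have f10_2 : s10 5 * (w5 2 / w4 2) + s10 9 * (w9 2 / w4 2) = 0 := by
    have h : s10 5 * (w5 2 / w4 2) + s10 9 * (w9 2 / w4 2) = (s10 5 * w5 2 + s10 9 * w9 2) / w4 2 := by
      field_simp
    rw [h, e10_2, zero_div]
  have f11_0 : s11 7 * (w7 0 / w4 0) + s11 8 * (w8 0 / w4 0) = 0 := by
    have h : s11 7 * (w7 0 / w4 0) + s11 8 * (w8 0 / w4 0) = (s11 7 * w7 0 + s11 8 * w8 0) / w4 0 := by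
      field_simp
    rw [h, e11_0, zero_div]
  have f11_2 : s11 7 * (w7 2 / w4 2) + s11 8 * (w8 2 / w4 2) = 0 := by
    have h : s11 7 * (w7 2 / w4 2) + s11 8 * (w8 2 / w4 2) = (s11 7 * w7 2 + s11 8 * w8 2) / w4 2 := by
      field_simp
    rw [h, e11_2, zero_div]
  have f12_0 : s12 4 + s12 6 * (w6 0 / w4 0) = 0 := by
    rw [b0, mul_zero, add_zero] at e12_0
    have h : s12 4 + s12 6 * (w6 0 / w4 0) = (s12 4 * w4 0 + s12 6 * w6 0) / w4 0 := by
      field_simp
    rw [h, e12_0, zero_div]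
  have f12_1 : s12 4 + s12 6 * (w6 1 / w4 1) = 0 := by
    rw [b1, mul_zero, add_zero] at e12_1
    have h : s12 4 + s12 6 * (w6 1 / w4 1) = (s12 4 * w4 1 + s12 6 * w6 1) / w4 1 := by
      field_simp
    rw [h, e12_1, zero_div]
  have f5_1 : w5 1 / w4 1 = 0 := by rw [b5, zero_div]
  have key := golden_core (p1 4 (by simp)) (p1 9 (by simp)) (p3 6 (by simp)) (p3 7 (by simp)) (p3 8 (by simp)) (p4 7 (by simp)) (p6 6 (by simp)) (p7 5 (by simp)) (p7 8 (by simp)) (p8 4 (by simp)) (p8 7 (by simp)) (p9 5 (by simp)) (p10 5 (by simp)) (p10 9 (by simp)) (p11 8 (by simp)) (p12 4 (by simp)) (p12 6 (by simp))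
    f1_0 f1_2 f1_3 f3_0 f3_1 f3_2 f3_3 f4_1 f4_2 f5_1 f6_2 f6_3 f7_1 f7_2 f7_3 f8_0 f8_3 f9_0 f9_3 f10_0 f10_2 f11_0 f11_2 f12_0 f12_1
  obtain ⟨r0, hr0⟩ := rat4 0
  obtain ⟨r3, hr3⟩ := rat4 3
  obtain ⟨t0, ht0⟩ := rat5 0
  obtain ⟨t3, ht3⟩ := rat5 3
  refine no_rat_golden (t3 / r3 / (t0 / r0)) ?_
  rw [hr0, hr3, ht0, ht3] at key
  push_cast
  exact key

end Pool.Agent.Helper7.NRP
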