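import Mathlib
import Pool.Agent.Helper7.DioAvoid

/-!
# Representations of graphs with pairwise different square classes

`Rep G S f`: the integers `f u`, `u ∈ S`, are positive, `f u * f v + 1` is a square exactly for the
edges, and `f u * f v` is never a square.  A vertex with at most two neighbours in `S` can always
be added (`Rep.step`), because the Pell equation has the trivial solution `x = 0`.
-/

set_option autoImplicit false

open Finset

namespace Pool.Agent.Helper7.Dio

variable {V : Type*}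

/-- A representation of `G` on `S` with pairwise different square-free parts. -/
structure Rep (G : SimpleGraph V) (S : Finset V) (f : V → ℤ) : Prop where
  pos : ∀ u ∈ S, 0 < f u
  adj : ∀ u ∈ S, ∀ v ∈ S, u ≠ v → (G.Adj u v ↔ IsSquare (f u * f v + 1))
  nsq : ∀ u ∈ S, ∀ v ∈ S, u ≠ v → ¬ IsSquare (f u * f v)

lemma Rep.ne {G : SimpleGraph V} {S : Finset V} {f : V → ℤ} (h : Rep G S f) {u v : V}
    (hu : u ∈ S) (hv : v ∈ S) (huv : u ≠ v) : f u ≠ f v := by
  intro he
  apply h.nsq u hu v hv huv
  rw [he]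
  exact ⟨f v, rfl⟩

/-- Twice a nonzero square is not a square. -/
lemma not_sq_two_mul {m : ℤ} (hm : m ≠ 0) : ¬ IsSquare (2 * (m * m)) := by
  rintro ⟨r, hr⟩
  have h2 : Irrational (Real.sqrt 2) := irrational_sqrt_two
  apply h2
  refine ⟨|(r : ℚ) / m|, ?_⟩
  have hm' : (m : ℝ) ≠ 0 := by exact_mod_cast hm
  have h1 : ((r : ℝ) / m) ^ 2 = 2 := by
    have : (2 : ℝ) * (m * m) = r * r := by exact_mod_cast hr
    field_simp
    linarith
  push_cast
  rw [← Real.sqrt_sq_eq_abs, h1]

/-- The integers `a, b` for the Pell equation at a vertex with at most two back neighbours. -/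
lemma Rep.exists_pair {G : SimpleGraph V} {S B : Finset V} {f : V → ℤ} (h : Rep G S f)
    (hBS : B ⊆ S) (hcard : B.card ≤ 2) :
    ∃ a b : ℤ, 0 < a ∧ 0 < b ∧ ¬ IsSquare (a * b) ∧ a ≠ b ∧
      (∀ u ∈ S, u ∉ B → f u ≠ a ∧ f u ≠ b) ∧ ∀ u ∈ B, f u = a ∨ f u = b := by
  classical
  obtain ⟨M, hM1, hM⟩ : ∃ M : ℤ, 1 ≤ M ∧ ∀ u ∈ S, f u < M := by
    refine ⟨1 + ∑ u ∈ S, f u, ?_, ?_⟩
    · have : 0 ≤ ∑ u ∈ S, f u := Finset.sum_nonneg fun u hu => (h.pos u hu).le
      linarith
    · intro u hu
      have := Finset.single_le_sum (f := f) (fun u hu => (h.pos u hu).le) hu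
      linarith
  have hMM : M ≤ M * M := by nlinarith
  have h0 : B.card = 0 ∨ B.card = 1 ∨ B.card = 2 := by omega
  rcases h0 with h0 | h0 | h0
  · refine ⟨M * M, 2 * (M * M), by positivity, by positivity, ?_, by nlinarith, ?_, ?_⟩
    · have e : M * M * (2 * (M * M)) = 2 * ((M * M) * (M * M)) := by ring
      rw [e]
      exact not_sq_two_mul (by positivity)
    · intro u hu _
      have := hM u hu
      constructor <;> nlinarith
    · rw [Finset.card_eq_zero.1 h0]; simp
  · obtain ⟨w, hw⟩ := Finset.card_eq_one.1 h0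
    have hwB : w ∈ B := by rw [hw]; exact mem_singleton_self _
    have hw0 := h.pos w (hBS hwB)
    refine ⟨f w, 2 * (f w * (M * M)), hw0, by positivity, ?_, by nlinarith, ?_, ?_⟩
    · have e : f w * (2 * (f w * (M * M))) = 2 * ((f w * M) * (f w * M)) := by ring
      rw [e]
      exact not_sq_two_mul (by positivity)
    · intro u hu huB
      refine ⟨h.ne hu (hBS hwB) (fun e => huB (by rw [e]; exact hwB)), ?_⟩
      have := hM u hu
      nlinarith
    · intro u hu
      rw [hw, mem_singleton] at hu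
      left; rw [hu]
  · obtain ⟨w1, w2, hw12, hw⟩ := Finset.card_eq_two.1 h0
    have hw1 : w1 ∈ B := by rw [hw]; simp
    have hw2 : w2 ∈ B := by rw [hw]; simp
    refine ⟨f w1, f w2, h.pos w1 (hBS hw1), h.pos w2 (hBS hw2),
      h.nsq w1 (hBS hw1) w2 (hBS hw2) hw12, h.ne (hBS hw1) (hBS hw2) hw12, ?_, ?_⟩
    · intro u hu huB
      exact ⟨h.ne hu (hBS hw1) (fun e => huB (by rw [e]; exact hw1)),
        h.ne hu (hBS hw2) (fun e => huB (by rw [e]; exact hw2))⟩
    · intro u hu
      rw [hw, mem_insert, mem_singleton] at hu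
      rcases hu with rfl | rfl
      · exact Or.inl rfl
      · exact Or.inr rfl

/-- A vertex with at most two neighbours in `S` can be added. -/
theorem Rep.step [DecidableEq V] {G : SimpleGraph V} [DecidableRel G.Adj] {S : Finset V}
    {f : V → ℤ} (h : Rep G S f) {v : V} (hv : v ∉ S) (hcard : (S.filter (G.Adj v)).card ≤ 2) :
    ∃ x : ℤ, Rep G (insert v S) (Function.update f v x) := by
  set B := S.filter (G.Adj v) with hB
  have hBS : B ⊆ S := Finset.filter_subset _ _
  obtain ⟨a, b, ha, hb, hab, hne, hS, hBab⟩ := h.exists_pair hBS hcard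
  obtain ⟨x, s, t, hx, -, hs, ht, -, -, -, -, hC⟩ := avoid (α := 1) (β := 1) ha hb one_pos
    one_pos hab (by intro e; apply hne; linarith)
    ((S \ B).image (fun u => (f u, (1 : ℤ))) ∪ S.image (fun u => (f u, (0 : ℤ))))
    (by
      intro ce hce
      rw [mem_union, mem_image, mem_image] at hce
      rcases hce with ⟨u, hu, rfl⟩ | ⟨u, hu, rfl⟩
      · obtain ⟨hu1, hu2⟩ := mem_sdiff.1 hu
        obtain ⟨h1, h2⟩ := hS u hu1 hu2
        refine ⟨h.pos u hu1, ?_, ?_⟩
        · intro e; apply h1; simp only at e; linarith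
        · intro e; apply h2; simp only at e; linarith
      · have := h.pos u hu
        refine ⟨this, ?_, ?_⟩
        · simp only; intro e; linarith
        · simp only; intro e; linarith) (M := 1) one_pos 0
  have hadj : ∀ u ∈ S, (G.Adj v u ↔ IsSquare (f u * x + 1)) := by
    intro u hu
    by_cases huB : u ∈ B
    · have h1 : G.Adj v u := (Finset.mem_filter.1 huB).2
      refine ⟨fun _ => ?_, fun _ => h1⟩
      rcases hBab u huB with h2 | h2
      · rw [h2]; exact ⟨s, by rw [← sq, ← hs]; ring⟩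
      · rw [h2]; exact ⟨t, by rw [← sq, ← ht]; ring⟩
    · have h1 : ¬ G.Adj v u := fun h2 => huB (Finset.mem_filter.2 ⟨hu, h2⟩)
      refine ⟨fun h2 => absurd h2 h1, fun h2 => absurd h2 ?_⟩
      exact hC (f u, 1) (mem_union_left _ (mem_image.2 ⟨u, mem_sdiff.2 ⟨hu, huB⟩, rfl⟩))
  have hnsq : ∀ u ∈ S, ¬ IsSquare (f u * x) := by
    intro u hu
    have := hC (f u, 0) (mem_union_right _ (mem_image.2 ⟨u, hu, rfl⟩))
    simpa using this
  have hfv : Function.update f v x v = x := Function.update_self v x f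
  have hfu : ∀ u ∈ S, Function.update f v x u = f u := by
    intro u hu
    apply Function.update_of_ne
    rintro rfl
    exact hv hu
  refine ⟨x, ?_, ?_, ?_⟩
  · intro u hu0
    rcases mem_insert.1 hu0 with rfl | hu
    · rw [hfv]; exact hx
    · rw [hfu u hu]; exact h.pos u hu
  · intro u hu0 w hw0 huw
    rcases mem_insert.1 hu0 with rfl | hu
    · rcases mem_insert.1 hw0 with rfl | hw
      · exact absurd rfl huw
      · rw [hfv, hfu w hw, mul_comm]; exact hadj w hw
    · rcases mem_insert.1 hw0 with rfl | hw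
      · rw [hfv, hfu u hu, G.adj_comm]; exact hadj u hu
      · rw [hfu u hu, hfu w hw]; exact h.adj u hu w hw huw
  · intro u hu0 w hw0 huw
    rcases mem_insert.1 hu0 with rfl | hu
    · rcases mem_insert.1 hw0 with rfl | hw
      · exact absurd rfl huw
      · rw [hfv, hfu w hw, mul_comm]; exact hnsq w hw
    · rcases mem_insert.1 hw0 with rfl | hw
      · rw [hfv, hfu u hu]; exact hnsq u hu
      · rw [hfu u hu, hfu w hw]; exact h.nsq u hu w hw huw

/-- Extension of a representation over a relatively 2-degenerate set of vertices. -/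
theorem Rep.build [DecidableEq V] {G : SimpleGraph V} [DecidableRel G.Adj] {S : Finset V}
    {f : V → ℤ} (h : Rep G S f) (n : ℕ) : ∀ K : Finset V, K.card = n → Disjoint K S →
    (∀ T : Finset V, T ⊆ K → T.Nonempty → ∃ v ∈ T, ((T ∪ S).filter (G.Adj v)).card ≤ 2) →
    ∃ f' : V → ℤ, Rep G (K ∪ S) f' ∧ ∀ u ∈ S, f' u = f u := by
  induction n with
  | zero =>
    intro K hK _ _
    rw [Finset.card_eq_zero] at hK
    subst hK
    exact ⟨f, by simpa using h, fun _ _ => rfl⟩
  | succ n ih =>
    intro K hK hdis hdeg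
    have hKne : K.Nonempty := by
      rw [← Finset.card_pos]; omega
    obtain ⟨v, hvK, hv2⟩ := hdeg K (Finset.Subset.refl _) hKne
    have hsub : K.erase v ⊆ K := Finset.erase_subset _ _
    obtain ⟨f1, h1, h1S⟩ := ih (K.erase v) (by rw [Finset.card_erase_of_mem hvK]; omega)
      (Finset.disjoint_of_subset_left hsub hdis) (fun T hT hne => hdeg T (hT.trans hsub) hne)
    have hvS : v ∉ S := Finset.disjoint_left.1 hdis hvK
    have hvn : v ∉ K.erase v ∪ S := by simp [hvS]
    have hcard : ((K.erase v ∪ S).filter (G.Adj v)).card ≤ 2 :=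
      le_trans (Finset.card_le_card (Finset.filter_subset_filter _
        (Finset.union_subset_union_left hsub))) hv2
    obtain ⟨x, h2⟩ := h1.step hvn hcard
    refine ⟨Function.update f1 v x, ?_, ?_⟩
    · rwa [← Finset.insert_union, Finset.insert_erase hvK] at h2
    · intro u hu
      rw [Function.update_of_ne (by rintro rfl; exact hvS hu)]
      exact h1S u hu

/-- Conversion to natural numbers. -/
lemma isSquare_toNat_mul {a b : ℤ} (ha : 0 ≤ a) (hb : 0 ≤ b) (c : ℕ) :
    IsSquare (a.toNat * b.toNat + c) ↔ IsSquare (a * b + c) := by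
  have hcast : ((a.toNat * b.toNat + c : ℕ) : ℤ) = a * b + c := by
    push_cast
    rw [Int.toNat_of_nonneg ha, Int.toNat_of_nonneg hb]
  rw [← hcast]
  constructor
  · rintro ⟨r, hr⟩
    exact ⟨(r : ℤ), by exact_mod_cast hr⟩
  · rintro ⟨r, hr⟩
    refine ⟨r.natAbs, ?_⟩
    have h2 : ((r.natAbs * r.natAbs : ℕ) : ℤ) = r * r := by rw [Int.natAbs_mul_self]
    rw [← h2] at hr
    exact_mod_cast hr

end Pool.Agent.Helper7.Dio
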